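import Pool.Agent.EGQ.StmtsB

/-!
# Effective generators (project EGQ): the admissible classes for `n q₁` (module EGQ_ADX)
-/

set_option autoImplicit false

open NumberField IsDedekindDomain Finset
open scoped nonZeroDivisors Pointwise

namespace Pool.Agent.EGQ

open Pool.Agent.Lib_helper18 Pool.Agent.Lib_helper18.Eis Pool.Agent.Lib_helper84.Cub
open Pool.Agent.PT Pool.Agent.PTE Pool.Agent.PT3 Pool.Agent.PTL Pool.Agent.PTN

namespace ADX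

section

variable {n m k : ℕ} {π : Fin m → PP} {p e : Fin m → ℕ} {r f : Fin k → ℕ}
  {w0 : ZMod 3} {c : Fin m → ZMod 3} {q₁ : ℕ}

theorem three_pp (ϖ : PP) : ¬ ϖ.1 ∣ 3 := (Pool.Agent.PT.Final.fSPP.2.2.2.1 ϖ).1

/-- `π i` does not divide `q₁` -/
theorem ndvd (hN : NF n π p e r f) (hq : q₁.Prime) (hqn : ¬ q₁ ∣ n) (i : Fin m) :
    ¬ (π i).1 ∣ (q₁ : Eis) := by
  obtain ⟨l, hl⟩ := EADT.below Pool.Agent.PT.Final.fSPP (π i)
  have hpi : (p i : Eis) = (π i).1 * conj (π i).1 := hN.pπ i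
  have hlp : l = p i := by
    have h1 : (π i).1 ∣ (p i : Eis) := by rw [hpi]; exact dvd_mul_right _ _
    exact (Nat.prime_dvd_prime_iff_eq hl.pr (hN.pp i)).1 ((hl.dvd_nat _).1 h1)
  have hpn : p i ∣ n := by
    have h1 : p i ∣ ∏ i, p i ^ e i :=
      (dvd_pow_self _ (by rcases hN.pe i with h | h <;> omega)).trans
        (Finset.dvd_prod_of_mem _ (Finset.mem_univ i))
    rw [hN.eq]
    exact h1.mul_right _
  intro h
  have h1 := (Nat.prime_dvd_prime_iff_eq hl.pr hq).1 ((hl.dvd_nat _).1 h)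
  apply hqn
  rw [← h1, hlp]
  exact hpn

/-- the valuation of `n q₁` -/
theorem V_nq (hN : NF n π p e r f) (hq : q₁.Prime) (hqn : ¬ q₁ ∣ n) (i : Fin m) :
    V (π i).1 ((n * q₁ : ℕ) : Eis) = V (π i).1 (n : Eis) := by
  have hn0 : n ≠ 0 := Pool.Agent.PT.EADM.n_ne hN
  rw [Nat.cast_mul, V_mul (π i).2.1 (Pool.Agent.PT.EADM.natCast_ne hn0)
    (Pool.Agent.PT.EADM.natCast_ne hq.ne_zero), V_eq_zero (ndvd hN hq hqn i), add_zero]

/-- the class of `n q₁` -/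
theorem ch_nq (hN : NF n π p e r f) (hq : q₁.Prime) (hqn : ¬ q₁ ∣ n) (i : Fin m) :
    ch (π i).1 ((3 ^ 0 * (n * q₁) : ℕ) : Eis) + c1 π c q₁ i =
      ch (π i).1 ((3 ^ 0 * n : ℕ) : Eis) + c i := by
  have hn0 : n ≠ 0 := Pool.Agent.PT.EADM.n_ne hN
  rw [pow_zero, one_mul, one_mul, Nat.cast_mul, Pool.Agent.PT.EADM.ch_mul (π i).2.1 (three_pp _)
    (Pool.Agent.PT.EADM.natCast_ne hn0) (Pool.Agent.PT.EADM.natCast_ne hq.ne_zero),
    Pool.Agent.PT.EADM.ch_unit (π i).2.1 (ndvd hN hq hqn i)]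
  unfold c1
  ring

theorem q_ne3 (hq2 : q₁ % 3 = 2) : ¬ (3 : ℤ) ∣ (q₁ : ℤ) := by
  intro h
  omega

/-- (4) -/
theorem wt_nq (hN : NF n π p e r f) (hq : q₁.Prime) (hq2 : q₁ % 3 = 2) :
    wt (((n * q₁ : ℕ) : ℤ) ^ 2) + w1 w0 q₁ = wt ((n : ℤ) ^ 2) + w0 := by
  obtain ⟨-, hmul, -, hunit, -⟩ := Pool.Agent.PT3.Final.fLCL
  have hn0 : (n : ℤ) ≠ 0 := by exact_mod_cast Pool.Agent.PT.EADM.n_ne hN
  have hn3 : ¬ (3 : ℤ) ∣ (n : ℤ) := by
    intro h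
    exact Pool.Agent.PT.EADM.three_not hN (by exact_mod_cast h)
  have hq0 : (q₁ : ℤ) ≠ 0 := by exact_mod_cast hq.ne_zero
  have hq3 := q_ne3 hq2
  have hnq : ¬ (3 : ℤ) ∣ ((n * q₁ : ℕ) : ℤ) := by
    rw [Nat.cast_mul]
    intro h
    rcases Int.prime_three.dvd_or_dvd h with h1 | h1
    · exact hn3 h1
    · exact hq3 h1
  have h1 := (hunit _ hnq).2
  have h2 := (hmul (n : ℤ) (q₁ : ℤ) hn0 hq0).2
  rw [(hunit _ hn3).2, (hunit _ hq3).2] at h2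
  rw [← h1, Nat.cast_mul, h2]
  unfold w1
  ring

/-- (1), without the condition on the support -/
theorem iff_nq (hN : NF n π p e r f) (hq : q₁.Prime) (hq2 : q₁ % 3 = 2) (hqn : ¬ q₁ ∣ n) (x : ℤ)
    (hs : ∀ l : ℕ, l.Prime → (l : ℤ) ∣ x → l ∣ 3 * n) :
    AdN 0 (n * q₁) π (w1 w0 q₁) (c1 π c q₁) x ↔ AdN 0 n π w0 c x := by
  have h4 := wt_nq (w0 := w0) hN hq hq2
  constructor
  · rintro ⟨⟨hx, -, hsym, -⟩, h0⟩
    refine ⟨⟨hx, hs, fun i => ?_, fun h => absurd h (by norm_num)⟩, fun h => ?_⟩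
    · have h1 := hsym i
      rw [V_nq hN hq hqn i, ch_nq hN hq hqn i] at h1
      exact h1
    · have h1 := h0 h
      rw [h4] at h1
      exact h1
  · rintro ⟨⟨hx, -, hsym, -⟩, h0⟩
    refine ⟨⟨hx, fun l hl hd => ?_, fun i => ?_, fun h => absurd h (by norm_num)⟩, fun h => ?_⟩
    · rw [← mul_assoc]
      exact (hs l hl hd).mul_right q₁
    · rw [V_nq hN hq hqn i, ch_nq hN hq hqn i]
      exact hsym i
    · rw [h4]
      exact h0 h

/-- (3) -/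
theorem ad_mul {N : ℕ} {x y : ℤ} (hx : AdN 0 N π w0 c x) (hy : AdN 0 N π w0 c y) :
    AdN 0 N π w0 c (x * y) := by
  obtain ⟨⟨hx0, hxs, hxy, -⟩, hxl⟩ := hx
  obtain ⟨⟨hy0, hys, hyy, -⟩, hyl⟩ := hy
  obtain ⟨-, hmul, -⟩ := Pool.Agent.PT3.Final.fLCL
  refine ⟨⟨mul_ne_zero hx0 hy0, fun l hl hd => ?_, fun i => ?_, fun h => absurd h (by norm_num)⟩,
    fun h => ⟨?_, fun h' => ?_⟩⟩
  · rcases (Nat.prime_iff_prime_int.mp hl).dvd_or_dvd hd with h1 | h1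
    · exact hxs l hl h1
    · exact hys l hl h1
  · have hX := Pool.Agent.PT.EADM.intCast_ne hx0
    have hY := Pool.Agent.PT.EADM.intCast_ne hy0
    have h1 := hxy i
    have h2 := hyy i
    rw [Int.cast_mul, V_mul (π i).2.1 hX hY,
      Pool.Agent.PT.EADM.ch_mul (π i).2.1 (three_pp _) hX hY, Nat.cast_add]
    linear_combination h1 + h2
  · rw [(hmul x y hx0 hy0).1, (hxl h).1, (hyl h).1, add_zero]
  · rw [(hmul x y hx0 hy0).2, (hxl h).2 h', (hyl h).2 h', add_zero]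

/-- removing a cube -/
theorem ad_cube {N : ℕ} {x v : ℤ} (hx0 : x ≠ 0) (hv0 : v ≠ 0)
    (hA : AdN 0 N π w0 c (x * v ^ 3)) : AdN 0 N π w0 c x := by
  obtain ⟨⟨-, hs, hsym, -⟩, hl⟩ := hA
  obtain ⟨-, hmul, -⟩ := Pool.Agent.PT3.Final.fLCL
  have h3 : (3 : ZMod 3) = 0 := by decide
  have hv3 : v ^ 3 ≠ 0 := pow_ne_zero 3 hv0
  have hv2 : v ^ 2 ≠ 0 := pow_ne_zero 2 hv0
  have e3 : v ^ 3 = v * (v * v) := by ring
  have hvv : v * v ≠ 0 := mul_ne_zero hv0 hv0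
  have l1 : lv (x * v ^ 3) = lv x := by
    rw [e3, (hmul x _ hx0 (mul_ne_zero hv0 hvv)).1, (hmul v _ hv0 hvv).1, (hmul v v hv0 hv0).1]
    linear_combination (lv v) * h3
  have l2 : lw (x * v ^ 3) = lw x := by
    rw [e3, (hmul x _ hx0 (mul_ne_zero hv0 hvv)).2, (hmul v _ hv0 hvv).2, (hmul v v hv0 hv0).2]
    linear_combination (lw v) * h3
  refine ⟨⟨hx0, fun l hl' hd => hs l hl' (hd.mul_right _), fun i => ?_,
    fun h => absurd h (by norm_num)⟩, fun h => ?_⟩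
  · have hX := Pool.Agent.PT.EADM.intCast_ne hx0
    have hV := Pool.Agent.PT.EADM.intCast_ne hv0
    have hVV : (v : Eis) * v ≠ 0 := mul_ne_zero hV hV
    have h1 := hsym i
    have e4 : ((x * v ^ 3 : ℤ) : Eis) = (x : Eis) * ((v : Eis) * ((v : Eis) * v)) := by
      push_cast
      ring
    have h5 : ch (π i).1 ((x * v ^ 3 : ℤ) : Eis) = ch (π i).1 (x : Eis) := by
      rw [e4, Pool.Agent.PT.EADM.ch_mul (π i).2.1 (three_pp _) hX (mul_ne_zero hV hVV),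
        Pool.Agent.PT.EADM.ch_mul (π i).2.1 (three_pp _) hV hVV,
        Pool.Agent.PT.EADM.ch_mul (π i).2.1 (three_pp _) hV hV]
      linear_combination (ch (π i).1 (v : Eis)) * h3
    have h6 : (V (π i).1 ((x * v ^ 3 : ℤ) : Eis) : ZMod 3) = V (π i).1 (x : Eis) := by
      rw [e4, V_mul (π i).2.1 hX (mul_ne_zero hV hVV), V_mul (π i).2.1 hV hVV,
        V_mul (π i).2.1 hV hV, Nat.cast_add, Nat.cast_add, Nat.cast_add]
      linear_combination (V (π i).1 (v : Eis) : ZMod 3) * h3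
    rw [h5, h6] at h1
    exact h1
  · have h1 := hl h
    rw [l1, l2] at h1
    exact h1

/-- (2) -/
theorem ex_cube (hN : NF n π p e r f) (hq : q₁.Prime) (hq2 : q₁ % 3 = 2) (hqn : ¬ q₁ ∣ n) (x : ℤ)
    (hA : AdN 0 (n * q₁) π (w1 w0 q₁) (c1 π c q₁) x) (h3 : 3 ∣ padicValInt q₁ x) :
    ∃ x' u v : ℤ, u ≠ 0 ∧ v ≠ 0 ∧ AdN 0 n π w0 c x' ∧ x * u ^ 3 = x' * v ^ 3 := by
  have hF : Fact q₁.Prime := ⟨hq⟩
  have hx0 : x ≠ 0 := hA.1.ne
  obtain ⟨a, ha⟩ := h3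
  have hd : ((q₁ : ℤ) ^ a) ^ 3 ∣ x := by
    rw [← pow_mul, mul_comm a 3, ← ha]
    exact padicValInt_dvd x
  obtain ⟨x', hx'⟩ := hd
  have hv0 : (q₁ : ℤ) ^ a ≠ 0 := pow_ne_zero _ (by exact_mod_cast hq.ne_zero)
  have hx'0 : x' ≠ 0 := by
    rintro rfl
    exact hx0 (by rw [hx', mul_zero])
  have hnd : ¬ (q₁ : ℤ) ∣ x' := by
    rintro ⟨y, hy⟩
    have h1 : (q₁ : ℤ) ^ (3 * a + 1) ∣ x := by
      rw [hx', hy]
      exact ⟨y, by ring⟩
    have h2 := (padicValInt_dvd_iff (3 * a + 1) x).mp h1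
    rcases h2 with h2 | h2
    · exact hx0 h2
    · omega
  have e1 : x = x' * ((q₁ : ℤ) ^ a) ^ 3 := by rw [hx']; ring
  have hA' : AdN 0 (n * q₁) π (w1 w0 q₁) (c1 π c q₁) x' := by
    apply ad_cube hx'0 hv0
    rw [← e1]
    exact hA
  refine ⟨x', 1, (q₁ : ℤ) ^ a, one_ne_zero, hv0, ?_, ?_⟩
  · refine (iff_nq hN hq hq2 hqn x' fun l hl hd => ?_).mp hA'
    have h1 := hA'.1.supp l hl hd
    rw [← mul_assoc] at h1
    rcases hl.dvd_mul.mp h1 with h2 | h2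
    · exact h2
    · exfalso
      apply hnd
      rw [← (Nat.prime_dvd_prime_iff_eq hl hq).mp h2]
      exact hd
  · rw [one_pow, mul_one]
    exact e1

end

end ADX

/-- EGQ_ADX: the admissible classes for `n q₁`. -/
theorem ADX_thm : Stmt_ADX := by
  intro n m k π p e r f w0 c q₁ hN hq hq2 hqn
  exact ⟨fun x hs => ADX.iff_nq hN hq hq2 hqn x hs,
    fun x hA h3 => ADX.ex_cube hN hq hq2 hqn x hA h3,
    fun x y hx hy => ADX.ad_mul hx hy, ADX.wt_nq hN hq hq2⟩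

end Pool.Agent.EGQ
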