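import Pool.Agent.EGQ.StmtsB

/-!
# EGQ: extension of a basis
-/

set_option autoImplicit false

open NumberField IsDedekindDomain Finset
open scoped nonZeroDivisors Pointwise

namespace Pool.Agent.EGQ

open Pool.Agent.Lib_helper18 Pool.Agent.Lib_helper18.Eis Pool.Agent.Lib_helper84.Cub
open Pool.Agent.PT Pool.Agent.PTE Pool.Agent.PT3 Pool.Agent.PTL Pool.Agent.PTN

namespace BEX

theorem sn_cs {α : Type} {s : ℕ} (b : Fin s → α) (x : α) (i : Fin s) :
    sn b x i.castSucc = b i := by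
  unfold sn
  exact Fin.snoc_castSucc (α := fun _ => α) x b i

theorem sn_last {α : Type} {s : ℕ} (b : Fin s → α) (x : α) : sn b x (Fin.last s) = x := by
  unfold sn
  exact Fin.snoc_last (α := fun _ => α) x b

theorem pv_mul {q : ℕ} (hq : q.Prime) {a b : ℤ} (ha : a ≠ 0) (hb : b ≠ 0) :
    padicValInt q (a * b) = padicValInt q a + padicValInt q b := by
  have : Fact q.Prime := ⟨hq⟩
  exact padicValInt.mul ha hb

theorem pv_pow {q : ℕ} (hq : q.Prime) {a : ℤ} (ha : a ≠ 0) (g : ℕ) :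
    padicValInt q (a ^ g) = g * padicValInt q a := by
  induction g with
  | zero => simp
  | succ g ih =>
    rw [pow_succ, pv_mul hq (pow_ne_zero _ ha) ha, ih]; ring

theorem pv_prod {q : ℕ} (hq : q.Prime) {s : ℕ} (b : Fin s → ℤ) (g : Fin s → ℕ)
    (hb : ∀ i, b i ≠ 0) (hv : ∀ i, padicValInt q (b i) = 0) :
    padicValInt q (∏ i, b i ^ g i) = 0 := by
  have key : ∀ S : Finset (Fin s), padicValInt q (∏ i ∈ S, b i ^ g i) = 0 := by
    intro S
    induction S using Finset.induction_on with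
    | empty => simp
    | insert a S ha ih =>
      rw [Finset.prod_insert ha, pv_mul hq (pow_ne_zero _ (hb a))
        (Finset.prod_ne_zero_iff.mpr fun i _ => pow_ne_zero _ (hb i)), ih, pv_pow hq (hb a), hv a]
      simp
  exact key _

theorem lw_cube {x b u v : ℤ} (hx : x ≠ 0) (hb : b ≠ 0) (hu : u ≠ 0) (hv : v ≠ 0)
    (h : x * u ^ 3 = b * v ^ 3) : lv x = lv b ∧ lw x = lw b := by
  obtain ⟨-, hm, -⟩ := Pool.Agent.PT3.Final.fLCL
  have cube : ∀ y : ℤ, y ≠ 0 → lv (y ^ 3) = 0 ∧ lw (y ^ 3) = 0 := by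
    intro y hy
    have h1 := hm y y hy hy
    have h2 := hm (y * y) y (mul_ne_zero hy hy) hy
    have e : y ^ 3 = y * y * y := by ring
    rw [e, h2.1, h2.2, h1.1, h1.2]
    have h3 : ∀ z : ZMod 3, z + z + z = 0 := by decide
    exact ⟨h3 _, h3 _⟩
  have h1 := hm x (u ^ 3) hx (pow_ne_zero _ hu)
  have h2 := hm b (v ^ 3) hb (pow_ne_zero _ hv)
  rw [h, h2.1, h2.2, (cube u hu).1, (cube u hu).2, (cube v hv).1, (cube v hv).2] at h1
  refine ⟨?_, ?_⟩
  · have := h1.1; rw [add_zero, add_zero] at this; exact this.symm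
  · have := h1.2; rw [add_zero, add_zero] at this; exact this.symm

end BEX

open BEX in
theorem BEX_thm (hNFX : Stmt_NFX) (_ : Stmt_VEX) (hADX : Stmt_ADX) (hBXA : Stmt_BXA)
    (hBXB : Stmt_BXB) : Stmt_BEX := by
  intro n m k π p e r f w0 c q₁ s τ b X Y hNF hq hq2 hqn hv hs hB
  have hNF' := hNFX n m k π p e r f q₁ hNF hq hq2 hqn
  obtain ⟨hA1, hA2, hA3, hA4⟩ := hADX n m k π p e r f w0 c q₁ hNF hq hq2 hqn
  obtain ⟨x, hx, hxq⟩ := hBXA n m k π p e r f w0 c q₁ s τ b X Y hNF hq hq2 hqn hv hs hB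
  obtain ⟨hLC, hmul, -⟩ := Pool.Agent.PT3.Final.fLCL
  -- abbreviation
  set Ad : ℤ → Prop := AdN 0 (n * q₁) π (w1 w0 q₁) (c1 π c q₁) with hAd
  have ne : ∀ y, Ad y → y ≠ 0 := fun y hy => hy.1.ne
  have lv0 : ∀ y, Ad y → lv y = 0 := fun y hy => (hy.2 rfl).1
  have mulpow : ∀ y z, Ad y → Ad z → ∀ g : ℕ, Ad (y * z ^ g) := by
    intro y z hy hz g
    induction g with
    | zero => simpa using hy
    | succ g ih =>
      have := hA3 _ _ ih hz
      rw [pow_succ, ← mul_assoc]; exact this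
  have hq3 : q₁ ≠ 3 := by rintro rfl; omega
  have adb : ∀ i, Ad (b i) := fun i => (hA1 (b i) (hB.ad i).1.supp).mpr (hB.ad i)
  have bne : ∀ i, b i ≠ 0 := fun i => (hB.ad i).1.ne
  have bq : ∀ i, padicValInt q₁ (b i) = 0 := by
    intro i
    have h1 : ¬ (q₁ : ℤ) ∣ b i := by
      intro h
      have h2 := (hB.ad i).1.supp q₁ hq h
      rcases (Nat.Prime.dvd_mul hq).mp h2 with h3 | h3
      · rcases (Nat.dvd_prime Nat.prime_three).mp h3 with h4 | h4
        · exact hq.one_lt.ne' h4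
        · exact hq3 h4
      · exact hqn h3
    exact padicValInt.eq_zero_of_not_dvd h1
  have hTy : ∀ B : ℤ, TyB 0 (n * q₁) (w1 w0 q₁) B ↔ TyB 0 n w0 B := by
    intro B
    unfold TyB
    rw [hA4]
  -- the core
  have core : ∀ (x₁ : ℤ) (τ₁ : Fin 3) (X₁ Y₁ : ℤ), Ad x₁ → ¬ 3 ∣ padicValInt q₁ x₁ →
      (∀ b₁ : ℤ, Ad b₁ → lw b₁ = lw x₁ → ∀ B : ℤ, TyB 0 n w0 B →
        LamS B (sn τ τ₁) (sn b b₁) (sn X X₁) (sn Y Y₁)) →
      ∃ (τ₁ : Fin 3) (b₁ X₁ Y₁ : ℤ), Bas (n * q₁) π (w1 w0 q₁) (c1 π c q₁) (sn τ τ₁) (sn b b₁)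
        (sn X X₁) (sn Y Y₁) := by
    intro x₁ τ₁ X₁ Y₁ hx₁ hx₁q hlam
    obtain ⟨b₁, u, v, hu, hv', huv, hb₁, hV, h3⟩ :=
      hBXB (n * q₁) m (k + 1) π p e (sn r q₁) (sn f 1) (w1 w0 q₁) (c1 π c q₁) hNF' x₁ hx₁
    have hb₁0 : b₁ ≠ 0 := hb₁.1.ne
    have hx₁0 : x₁ ≠ 0 := ne _ hx₁
    have hlw := (lw_cube hx₁0 hb₁0 hu hv' huv).2
    have hb₁q : ¬ 3 ∣ padicValInt q₁ b₁ := by
      intro h
      apply hx₁q
      have h1 := congrArg (padicValInt q₁) huv
      rw [pv_mul hq hx₁0 (pow_ne_zero _ hu), pv_mul hq hb₁0 (pow_ne_zero _ hv'), pv_pow hq hu,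
        pv_pow hq hv'] at h1
      omega
    refine ⟨τ₁, b₁, X₁, Y₁, ?_, ?_, ?_, ?_, ?_, ?_⟩
    · -- ad
      intro i
      refine Fin.lastCases ?_ (fun i => ?_) i
      · rw [sn_last]; exact hb₁
      · rw [sn_cs]; exact adb i
    · -- v2
      intro i
      refine Fin.lastCases ?_ (fun i => ?_) i
      · rw [sn_last]; exact hV
      · rw [sn_cs]; exact hB.v2 i
    · -- ind
      rintro g ⟨i₀, hi₀⟩ ⟨t, ht⟩
      rw [Fin.prod_univ_castSucc] at ht
      simp only [sn_cs, sn_last] at ht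
      set P : ℤ := ∏ i : Fin s, b i ^ g i.castSucc with hP
      have hP0 : P ≠ 0 := by
        rw [hP]; exact Finset.prod_ne_zero_iff.mpr fun i _ => pow_ne_zero _ (bne i)
      have ht0 : t ≠ 0 := by
        rintro rfl
        have : P * b₁ ^ g (Fin.last s) = 0 := by rw [← ht]; ring
        exact mul_ne_zero hP0 (pow_ne_zero _ hb₁0) this
      have h1 := congrArg (padicValInt q₁) ht
      rw [pv_pow hq ht0, pv_mul hq hP0 (pow_ne_zero _ hb₁0), pv_pow hq hb₁0,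
        hP, pv_prod hq b (fun i => g i.castSucc) bne bq, zero_add] at h1
      have h2 : 3 ∣ g (Fin.last s) * padicValInt q₁ b₁ := ⟨_, h1.symm⟩
      have h3' : 3 ∣ g (Fin.last s) := by
        rcases (Nat.Prime.dvd_mul Nat.prime_three).mp h2 with h | h
        · exact h
        · exact absurd h hb₁q
      obtain ⟨g', hg'⟩ := h3'
      have h4 : (b₁ ^ g') ^ 3 ∣ t ^ 3 := by
        rw [ht, hg']
        exact ⟨P, by rw [← pow_mul, mul_comm g' 3]; ring⟩
      have h5 : b₁ ^ g' ∣ t := (Int.pow_dvd_pow_iff (by norm_num)).mp h4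
      obtain ⟨t', ht'⟩ := h5
      have h6 : t' ^ 3 = P := by
        have h7 : (b₁ ^ g') ^ 3 * t' ^ 3 = (b₁ ^ g') ^ 3 * P := by
          rw [← mul_pow, ← ht', ht, hg', ← pow_mul, mul_comm g' 3]; ring
        exact mul_left_cancel₀ (pow_ne_zero _ (pow_ne_zero _ hb₁0)) h7
      refine hB.ind (fun i => g i.castSucc) ?_ ⟨t', h6⟩
      revert hi₀
      refine Fin.lastCases ?_ (fun i => ?_) i₀
      · intro h; exact absurd ⟨g', hg'⟩ h
      · intro h; exact ⟨i, h⟩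
    · -- n3
      intro i j
      refine Fin.lastCases ?_ (fun i => ?_) i
      · intro _; left; rw [sn_last]; exact h3
      · refine Fin.lastCases ?_ (fun j => ?_) j
        · intro _; right; rw [sn_last]; exact h3
        · intro hij
          rw [sn_cs, sn_cs]
          exact hB.n3 i j (fun h => hij (by rw [h]))
    · -- lam
      intro B hBT
      exact hlam b₁ hb₁ hlw.symm B ((hTy B).mp hBT)
    · -- span
      intro y hy
      have hy0 := ne y hy
      obtain ⟨g', hg'⟩ : ∃ g' : ℕ, 3 ∣ padicValInt q₁ y + g' * padicValInt q₁ b₁ := by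
        have hmod : padicValInt q₁ b₁ % 3 = 1 ∨ padicValInt q₁ b₁ % 3 = 2 := by omega
        have hmy : padicValInt q₁ y % 3 = 0 ∨ padicValInt q₁ y % 3 = 1 ∨
          padicValInt q₁ y % 3 = 2 := by omega
        rcases hmod with h | h <;> rcases hmy with h' | h' | h'
        · exact ⟨0, by omega⟩
        · exact ⟨2, by omega⟩
        · exact ⟨1, by omega⟩
        · exact ⟨0, by omega⟩
        · exact ⟨1, by omega⟩
        · exact ⟨2, by omega⟩
      have hz := mulpow y b₁ hy hb₁ g'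
      have hzq : 3 ∣ padicValInt q₁ (y * b₁ ^ g') := by
        rw [pv_mul hq hy0 (pow_ne_zero _ hb₁0), pv_pow hq hb₁0]; exact hg'
      obtain ⟨x', u₁, v₁, hu₁, hv₁, hx', hxx'⟩ := hA2 _ hz hzq
      obtain ⟨g, u₂, v₂, hu₂, hv₂, hg⟩ := hB.span x' hx'
      refine ⟨sn g (2 * g'), b₁ ^ g' * u₁ * u₂, v₁ * v₂,
        mul_ne_zero (mul_ne_zero (pow_ne_zero _ hb₁0) hu₁) hu₂, mul_ne_zero hv₁ hv₂, ?_⟩
      rw [Fin.prod_univ_castSucc]
      simp only [sn_cs, sn_last]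
      set P : ℤ := ∏ i : Fin s, b i ^ g i with hP
      calc y * (b₁ ^ g' * u₁ * u₂) ^ 3 = (y * b₁ ^ g' * u₁ ^ 3) * b₁ ^ (2 * g') * u₂ ^ 3 := by
            rw [pow_mul' b₁ 2 g']; ring
        _ = (x' * u₂ ^ 3) * b₁ ^ (2 * g') * v₁ ^ 3 := by rw [hxx']; ring
        _ = P * b₁ ^ (2 * g') * (v₁ * v₂) ^ 3 := by rw [hg]; ring
  -- type 0
  have core0 : ∀ x₁ : ℤ, Ad x₁ → ¬ 3 ∣ padicValInt q₁ x₁ → ((∃ B, TyB 0 n w0 B) → lw x₁ = 0) →
      ∃ (τ₁ : Fin 3) (b₁ X₁ Y₁ : ℤ), Bas (n * q₁) π (w1 w0 q₁) (c1 π c q₁) (sn τ τ₁) (sn b b₁)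
        (sn X X₁) (sn Y Y₁) := by
    intro x₁ hx₁ hx₁q h0
    refine core x₁ 0 0 0 hx₁ hx₁q ?_
    intro b₁ hb₁ hlw B hBT
    have hL := hB.lam B hBT
    have hLCb : LC lam b₁ := (hLC b₁ (ne _ hb₁)).mpr ⟨lv0 _ hb₁, by rw [hlw]; exact h0 ⟨B, hBT⟩⟩
    refine ⟨?_, ?_, ?_, ?_⟩
    · intro i
      refine Fin.lastCases ?_ (fun i => ?_) i
      · intro _; rw [sn_last]; exact hLCb
      · rw [sn_cs, sn_cs]; exact hL.t0 i
    · intro i
      refine Fin.lastCases ?_ (fun i => ?_) i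
      · rw [sn_last]; intro h; exact absurd h (by decide)
      · rw [sn_cs, sn_cs, sn_cs, sn_cs]; exact hL.t1 i
    · intro i
      refine Fin.lastCases ?_ (fun i => ?_) i
      · rw [sn_last]; intro h; exact absurd h (by decide)
      · rw [sn_cs, sn_cs, sn_cs, sn_cs]; exact hL.t2 i
    · intro i j
      refine Fin.lastCases ?_ (fun i => ?_) i
      · intro _ h; rw [sn_last] at h; exact absurd rfl h
      · refine Fin.lastCases ?_ (fun j => ?_) j
        · intro h1 h2; rw [h1, sn_last] at h2; exact absurd rfl h2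
        · rw [sn_cs, sn_cs]
          intro h1 h2
          rw [hL.inj i j h1 h2]
  by_cases hex : ∃ B, TyB 0 n w0 B
  swap
  · exact core0 x hx hxq (fun h => absurd h hex)
  obtain ⟨B₀, hB₀⟩ := hex
  have hL₀ := hB.lam B₀ hB₀
  have hlvB : lv B₀ = 0 := by rw [hB₀.2.1]; rfl
  have hlwB : lw B₀ = wt ((n : ℤ) ^ 2) + w0 := hB₀.2.2
  by_cases hi : ∃ i, τ i = 1
  · -- case A
    obtain ⟨i₁, hi₁⟩ := hi
    obtain ⟨h1, h2, h3, -, -⟩ := hL₀.t1 i₁ hi₁
    have hβ : lw (b i₁) ≠ 0 := by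
      intro h
      exact h1 ((hLC _ (bne i₁)).mpr ⟨by rw [h2, hlvB], h⟩)
    obtain ⟨g, hg⟩ : ∃ g : ℕ, lw x + g * lw (b i₁) = 0 := by
      have key : ∀ a c : ZMod 3, c ≠ 0 → ∃ g : Fin 3, a + ((g : ℕ) : ZMod 3) * c = 0 := by decide
      obtain ⟨g, hg⟩ := key (lw x) _ hβ
      exact ⟨g, hg⟩
    have hpow : ∀ g : ℕ, lw (b i₁ ^ g) = g * lw (b i₁) := by
      intro g
      induction g with
      | zero =>
        have h4 := (hmul 1 1 one_ne_zero one_ne_zero).2
        rw [mul_one] at h4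
        have : lw 1 = 0 := by
          have h5 : ∀ z : ZMod 3, z = z + z → z = 0 := by decide
          exact h5 _ h4
        simpa using this
      | succ g ih =>
        rw [pow_succ, (hmul _ _ (pow_ne_zero _ (bne i₁)) (bne i₁)).2, ih]; push_cast; ring
    refine core0 (x * b i₁ ^ g) (mulpow _ _ hx (adb i₁) g) ?_ (fun _ => ?_)
    · rw [pv_mul hq (ne _ hx) (pow_ne_zero _ (bne i₁)), pv_pow hq (bne i₁), bq i₁, mul_zero,
        add_zero]
      exact hxq
    · rw [(hmul _ _ (ne _ hx) (pow_ne_zero _ (bne i₁))).2, hpow, hg]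
  · -- case B
    push Not at hi
    by_cases hlx : lw x = 0
    · exact core0 x hx hxq (fun _ => hlx)
    · have hβ : wt ((n : ℤ) ^ 2) + w0 ≠ 0 := by
        intro h
        apply hlx
        exact (hx.2 rfl).2 (by rw [hA4]; exact h)
      -- the class with `lw = β`
      obtain ⟨x₁, hx₁, hx₁q, hlx₁⟩ : ∃ x₁, Ad x₁ ∧ ¬ 3 ∣ padicValInt q₁ x₁ ∧
          lw x₁ = wt ((n : ℤ) ^ 2) + w0 := by
        have key : ∀ a c : ZMod 3, a ≠ 0 → c ≠ 0 → a = c ∨ a + a = c := by decide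
        rcases key _ _ hlx hβ with h | h
        · exact ⟨x, hx, hxq, h⟩
        · refine ⟨x * x, hA3 _ _ hx hx, ?_, ?_⟩
          · rw [pv_mul hq (ne _ hx) (ne _ hx)]; omega
          · rw [(hmul _ _ (ne _ hx) (ne _ hx)).2, h]
      refine core x₁ 1 1 0 hx₁ hx₁q ?_
      intro b₁ hb₁ hlw B hBT
      have hL := hB.lam B hBT
      have hlvB' : lv B = 0 := by rw [hBT.2.1]; rfl
      have hlwb : lw b₁ = wt ((n : ℤ) ^ 2) + w0 := by rw [hlw, hlx₁]
      have hnLC : ¬ LC lam b₁ := by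
        intro h
        have := ((hLC b₁ (ne _ hb₁)).mp h).2
        rw [hlwb] at this
        exact hβ this
      refine ⟨?_, ?_, ?_, ?_⟩
      · intro i
        refine Fin.lastCases ?_ (fun i => ?_) i
        · rw [sn_last]; intro h; exact absurd h (by decide)
        · rw [sn_cs, sn_cs]; exact hL.t0 i
      · intro i
        refine Fin.lastCases ?_ (fun i => ?_) i
        · intro _
          rw [sn_last, sn_last, sn_last]
          exact ⟨hnLC, by rw [lv0 _ hb₁, hlvB'], by rw [hlwb, hBT.2.2], rfl, rfl⟩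
        · rw [sn_cs, sn_cs, sn_cs, sn_cs]; exact hL.t1 i
      · intro i
        refine Fin.lastCases ?_ (fun i => ?_) i
        · rw [sn_last]; intro h; exact absurd h (by decide)
        · rw [sn_cs, sn_cs, sn_cs, sn_cs]; exact hL.t2 i
      · intro i j
        refine Fin.lastCases ?_ (fun i => ?_) i
        · refine Fin.lastCases ?_ (fun j => ?_) j
          · intro _ _; rfl
          · rw [sn_last, sn_cs]; intro h _; exact absurd h.symm (hi j)
        · refine Fin.lastCases ?_ (fun j => ?_) j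
          · rw [sn_last, sn_cs]; intro h _; exact absurd h (hi i)
          · rw [sn_cs, sn_cs]
            intro h1 h2
            rw [hL.inj i j h1 h2]

end Pool.Agent.EGQ
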