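import Pool.Agent.EGQ.StmtsB

/-!
# Effective generators (project EGQ): there is a new class (module EGQ_BXA)
-/

set_option autoImplicit false

open NumberField IsDedekindDomain Finset
open scoped nonZeroDivisors Pointwise

namespace Pool.Agent.EGQ

open Pool.Agent.Lib_helper18 Pool.Agent.Lib_helper18.Eis Pool.Agent.Lib_helper84.Cub
open Pool.Agent.PT Pool.Agent.PTE Pool.Agent.PT3 Pool.Agent.PTL Pool.Agent.PTN

/-- EGQ_BXA: there is a new class. -/
theorem BXA_thm (hNFX : Stmt_NFX) (hVEX : Stmt_VEX) (hADX : Stmt_ADX) : Stmt_BXA := by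
  intro n m k π p e r f w0 c q₁ s τ b X Y hN hq hq2 hqn hv hs hB
  have hF : Fact (Nat.Prime 3) := ⟨Nat.prime_three⟩
  have hN' := hNFX n m k π p e r f q₁ hN hq hq2 hqn
  have hv' := hVEX n m k π p e r f w0 c q₁ hN hq hq2 hqn hv
  obtain ⟨-, hA2, -, hA4⟩ := hADX n m k π p e r f w0 c q₁ hN hq hq2 hqn
  obtain ⟨hV1, hV2, hV3⟩ := Pool.Agent.PTN.Final.fNVEC 0 (n * q₁) m (k + 1) π p e (sn r q₁)
    (sn f 1) (w1 w0 q₁) (c1 π c q₁) hN' (by norm_num)
  have hd := Pool.Agent.PTN.Final.fNDIM 0 n m k π p e r w0 c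
  have hd' := Pool.Agent.PTN.Final.fNDIM 0 (n * q₁) m (k + 1) π p e (sn r q₁) (w1 w0 q₁)
    (c1 π c q₁)
  have hact : actR 0 (n * q₁) (w1 w0 q₁) ↔ actR 0 n w0 := by
    unfold actR
    rw [hA4]
  have hs' : sN 0 (n * q₁) π p e (sn r q₁) (w1 w0 q₁) (c1 π c q₁) = s + 1 := by
    rw [hv', if_pos rfl] at hd'
    rw [hv, if_pos rfl] at hd
    by_cases h : actR 0 n w0
    · rw [if_pos h] at hd
      rw [if_pos (hact.mpr h)] at hd'
      omega
    · rw [if_neg h] at hd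
      rw [if_neg fun h' => h (hact.mp h')] at hd'
      omega
  obtain ⟨u, hu, hu'⟩ : ∃ u ∈ US 0 (n * q₁) π p e (sn r q₁) (w1 w0 q₁) (c1 π c q₁),
      u ∉ Submodule.span (ZMod 3) (Set.range fun i => exv p (sn r q₁) (b i)) := by
    by_contra h
    push Not at h
    have h1 : Module.finrank (ZMod 3)
        (US 0 (n * q₁) π p e (sn r q₁) (w1 w0 q₁) (c1 π c q₁)) ≤
        Module.finrank (ZMod 3)
          (Submodule.span (ZMod 3) (Set.range fun i => exv p (sn r q₁) (b i))) :=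
      Submodule.finrank_mono h
    have h2 : Module.finrank (ZMod 3)
          (Submodule.span (ZMod 3) (Set.range fun i => exv p (sn r q₁) (b i))) ≤ s := by
      have h3 := finrank_range_le_card (R := ZMod 3) (fun i => exv p (sn r q₁) (b i))
      rw [Fintype.card_fin] at h3
      exact h3
    have h4 : Module.finrank (ZMod 3)
        (US 0 (n * q₁) π p e (sn r q₁) (w1 w0 q₁) (c1 π c q₁)) = s + 1 := hs'
    omega
  obtain ⟨x, hx0, hxs, hxe, -, -⟩ := hV3 u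
  have hxA : AdN 0 (n * q₁) π (w1 w0 q₁) (c1 π c q₁) x := by
    rw [hV1 x hx0 hxs, hxe]
    exact hu
  refine ⟨x, hxA, fun h3 => ?_⟩
  obtain ⟨x', a, a', ha, ha', hxA', hxx⟩ := hA2 x hxA h3
  obtain ⟨g, t, t', ht, ht', hg⟩ := hB.span x' hxA'
  have hbne : ∀ i, b i ≠ 0 := fun i => (hB.ad i).1.ne
  have hps : ∏ i, b i ^ g i ≠ 0 :=
    Finset.prod_ne_zero_iff.mpr fun i _ => pow_ne_zero _ (hbne i)
  have hpsup : ∀ l : ℕ, l.Prime → (l : ℤ) ∣ ∏ i, b i ^ g i → l ∣ 3 * (n * q₁) := by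
    intro l hl hd
    obtain ⟨i, -, hi⟩ := (Nat.prime_iff_prime_int.mp hl).dvd_finsetProd_iff _ |>.mp hd
    have h1 := (hB.ad i).1.supp l hl ((Nat.prime_iff_prime_int.mp hl).dvd_of_dvd_pow hi)
    rw [← mul_assoc]
    exact h1.mul_right q₁
  have h5 : exv p (sn r q₁) x = exv p (sn r q₁) (∏ i, b i ^ g i) := by
    rw [← hV2 x _ hx0 hps hxs hpsup]
    refine ⟨a * t, t' * a', mul_ne_zero ha ht, mul_ne_zero ht' ha', ?_⟩
    calc x * (a * t) ^ 3 = (x * a ^ 3) * t ^ 3 := by ring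
      _ = (x' * t ^ 3) * a' ^ 3 := by rw [hxx]; ring
      _ = (∏ i, b i ^ g i) * (t' * a') ^ 3 := by rw [hg]; ring
  apply hu'
  rw [← hxe, h5, NBAS.exv_prod hN' b hbne g]
  exact Submodule.sum_mem _ fun i _ => Submodule.smul_mem _ _ (Submodule.subset_span ⟨i, rfl⟩)

end Pool.Agent.EGQ
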