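import Pool.Agent.EGQ.StmtsB

/-!
# Effective generators (project EGQ): reduced representatives (module EGQ_BXB)
-/

set_option autoImplicit false

open NumberField IsDedekindDomain Finset
open scoped nonZeroDivisors Pointwise

namespace Pool.Agent.EGQ

open Pool.Agent.Lib_helper18 Pool.Agent.Lib_helper18.Eis Pool.Agent.Lib_helper84.Cub
open Pool.Agent.PT Pool.Agent.PTE Pool.Agent.PT3 Pool.Agent.PTL Pool.Agent.PTN

/-- EGQ_BXB: reduced representatives. -/
theorem BXB_thm : Stmt_BXB := by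
  intro n m k π p e r f w0 c hN x hx
  obtain ⟨hV1, hV2, hV3⟩ := Pool.Agent.PTN.Final.fNVEC 0 n m k π p e r f w0 c hN (by norm_num)
  have hx0 : x ≠ 0 := hx.1.ne
  have hxs := hx.1.supp
  have hxU : exv p r x ∈ US 0 n π p e r w0 c := (hV1 x hx0 hxs).mp hx
  obtain ⟨b, hb0, hbs, hbe, hbV, hb3⟩ := hV3 (exv p r x)
  obtain ⟨u, v, hu, hv, huv⟩ := (hV2 x b hx0 hb0 hxs hbs).mpr hbe.symm
  refine ⟨b, u, v, hu, hv, huv, ?_, hbV, hb3 ?_⟩
  · rw [hV1 b hb0 hbs, hbe]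
    exact hxU
  · exact (hx.2 rfl).1

end Pool.Agent.EGQ
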