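import Pool.Agent.EGQ.Stmts
import Pool.Agent.CDP.Stmts

set_option autoImplicit false

namespace Pool.Agent.EGQ

theorem CDPA (h : Pool.Agent.CDP.MainStatement) : Stmt_CDP := by
  intro S hS n N₀ hn
  obtain ⟨p, q, t, hp, hq, h1, h2, h3, h4, -, h5⟩ := h S hS n 1 hn le_rfl N₀
  exact ⟨p, q, t, hp, hq, h1, h2, h4, h5, h3⟩

end Pool.Agent.EGQ
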