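import Pool.Agent.EGQ.StmtsB

/-!
# Effective generators (project EGQ): the module CLA, choice of the class
-/

set_option autoImplicit false

open NumberField IsDedekindDomain Finset
open scoped nonZeroDivisors Pointwise

namespace Pool.Agent.EGQ

open Pool.Agent.Lib_helper18 Pool.Agent.Lib_helper18.Eis Pool.Agent.Lib_helper84.Cub
open Pool.Agent.PT Pool.Agent.PTE Pool.Agent.PT3 Pool.Agent.PTL Pool.Agent.PTN

/-- The squares of the numbers `2`, `5 (mod 9)` are not cubes modulo `9`. -/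
theorem CLA_wt {a : ℤ} (h : a % 9 = 2 ∨ a % 9 = 5) : wt (a ^ 2) ≠ 0 := by
  have hd : ∀ x : ZMod 3, (1 : ZMod 3) + 3 * x ≠ 0 ∧ (2 : ZMod 3) + 3 * x ≠ 0 := by decide
  rcases h with h | h
  · obtain ⟨t, ht⟩ : ∃ t, a = 9 * t + a % 9 := ⟨a / 9, by omega⟩
    rw [h] at ht
    have h1 : a ^ 2 = 1 + 3 * (1 + 3 * (9 * t ^ 2 + 4 * t)) := by rw [ht]; ring
    rw [wt_eq h1]
    push_cast
    exact (hd _).1
  · obtain ⟨t, ht⟩ : ∃ t, a = 9 * t + a % 9 := ⟨a / 9, by omega⟩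
    rw [h] at ht
    have h1 : a ^ 2 = 1 + 3 * (2 + 3 * (9 * t ^ 2 + 10 * t + 2)) := by rw [ht]; ring
    rw [wt_eq h1]
    push_cast
    exact (hd _).2

theorem CLA_thm : Stmt_CLA := by
  intro n m k π p e r f hNF hk
  by_cases hev : Even k
  · have h1 := PTN.Final.fNZER 0 n m k π p e r f hNF
    have h2 : 0 < Nat.card {x : ZMod 3 × (Fin m → ZMod 3) // vN 0 n π p e r x.1 x.2 = 0 ∧
        ¬ ((0 : ℕ) = 0 ∧ wt ((n : ℤ) ^ 2) + x.1 = 0)} :=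
      lt_of_lt_of_le (by positivity) h1
    obtain ⟨⟨⟨x, hx⟩⟩, -⟩ := Nat.card_pos_iff.mp h2
    obtain ⟨hx1, hx2⟩ := hx
    refine ⟨x.1, x.2, hx1, ?_⟩
    have h3 := PTN.Final.fNDIM 0 n m k π p e r x.1 x.2
    have h4 : ¬ actR 0 n x.1 := by
      rintro (h | h)
      · omega
      · exact hx2 h
    rw [if_neg h4, if_pos rfl, hx1] at h3
    have h5 : sN 0 n π p e r x.1 x.2 = k := by omega
    rw [h5]
    exact hev
  · obtain ⟨j, hj⟩ := hk.resolve_left hev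
    have hj' : ((r j : ℤ)) % 9 = 2 ∨ ((r j : ℤ)) % 9 = 5 := by omega
    have h1 := PTN.Final.fNZE0 n m k π p e r f hNF ⟨j, CLA_wt hj'⟩
    have h2 : 0 < Nat.card {x : ZMod 3 × (Fin m → ZMod 3) // vN 0 n π p e r x.1 x.2 = 0 ∧
        wt ((n : ℤ) ^ 2) + x.1 = 0} :=
      lt_of_lt_of_le (by positivity) h1
    obtain ⟨⟨⟨x, hx⟩⟩, -⟩ := Nat.card_pos_iff.mp h2
    obtain ⟨hx1, hx2⟩ := hx
    refine ⟨x.1, x.2, hx1, ?_⟩
    have h3 := PTN.Final.fNDIM 0 n m k π p e r x.1 x.2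
    have h4 : actR 0 n x.1 := Or.inr ⟨rfl, hx2⟩
    rw [if_pos h4, if_pos rfl, hx1] at h3
    have h5 : Odd k := Nat.not_even_iff_odd.mp hev
    obtain ⟨t, ht⟩ := h5
    exact ⟨t, by omega⟩

end Pool.Agent.EGQ
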