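import Pool.Agent.EGQ.StmtsB

/-!
# EGQ_CRI: the bound `r(n q₁ q₂) ≤ 1`
-/

set_option autoImplicit false

namespace Pool.Agent.EGQ

open Pool.Agent.Lib_helper18 Pool.Agent.Lib_helper18.Eis Pool.Agent.Lib_helper84.Cub
open Pool.Agent.PT Pool.Agent.PTE Pool.Agent.PT3 Pool.Agent.PTL Pool.Agent.PTN

namespace CRI

theorem sn_castSucc {α : Type} {s : ℕ} (b : Fin s → α) (x : α) (i : Fin s) : sn b x i.castSucc = b i := by
  unfold sn; rw [Fin.snoc_castSucc]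

theorem sn_last {α : Type} {s : ℕ} (b : Fin s → α) (x : α) : sn b x (Fin.last s) = x := by
  unfold sn; rw [Fin.snoc_last]

/-- the block of the extended matrix -/
theorem block {s : ℕ} (b X Y : Fin s → ℤ) (b₁ X₁ Y₁ : ℤ) (P Q P' Q' : Fin s → Fin s → ℤ)
    (P₁ Q₁ P₁' Q₁' : Fin (s + 1) → Fin (s + 1) → ℤ) (hP : rs P₁ = P) (hQ : rs Q₁ = Q)
    (hP' : rs P₁' = P') (hQ' : rs Q₁' = Q') (B : ℤ) :
    (MaT (sn b b₁) (sn X X₁) (sn Y Y₁) P₁ Q₁ P₁' Q₁' B).submatrix Fin.castSucc Fin.castSucc =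
      MaT b X Y P Q P' Q' B := by
  subst hP hQ hP' hQ'
  ext j i
  show (if j.castSucc = i.castSucc then (0 : ZMod 3) else
      OT B (sn b b₁ j.castSucc) (sn X X₁ j.castSucc) (sn Y Y₁ j.castSucc) (sn b b₁ i.castSucc)
        (P₁ j.castSucc i.castSucc) (Q₁ j.castSucc i.castSucc) (P₁' j.castSucc i.castSucc)
        (Q₁' j.castSucc i.castSucc)) =
    if j = i then 0 else OT B (b j) (X j) (Y j) (b i) (rs P₁ j i) (rs Q₁ j i) (rs P₁' j i) (rs Q₁' j i)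
  rw [sn_castSucc, sn_castSucc, sn_castSucc, sn_castSucc]
  by_cases h : j = i
  · rw [if_pos h, if_pos (congrArg Fin.castSucc h)]
  · rw [if_neg h, if_neg (fun h' => h (Fin.castSucc_injective _ h'))]
    rfl

theorem mono {A : ℤ} {d d' : ℕ} (h : CubeRank.GenBy A d) (hd : d ≤ d') : CubeRank.GenBy A d' := by
  obtain ⟨s, hs, hc⟩ := h
  exact ⟨s, hs.trans hd, hc⟩

end CRI

/-- EGQ_CRI. -/
theorem CRI_thm (hNFX : Stmt_NFX) (hVEX : Stmt_VEX) (hBEX : Stmt_BEX) (hSYX : Stmt_SYX)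
    (hLIN : Stmt_LIN) : Stmt_CRI := by
  intro n m k π p e r f w0 c q₁ q₂ s τ b X Y P Q P' Q' hNF hv hs hB hSG hSw hT hdet
  obtain ⟨τ₁, b₁, X₁, Y₁, hB₁⟩ := hBEX n m k π p e r f w0 c q₁ s τ b X Y hNF hT.p1 hT.m1 hT.d1 hv hs hB
  obtain ⟨P₁, Q₁, P₁', Q₁', hSG₁, hSw₁, hP, hQ, hP', hQ'⟩ := hSYX n m k π p e r f w0 c q₁ s τ b X Y τ₁ b₁ X₁ Y₁
    P Q P' Q' hNF hT.p1 hT.m1 hT.d1 hB₁ hSG hSw
  have hNF₁ := hNFX n m k π p e r f q₁ hNF hT.p1 hT.m1 hT.d1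
  have hv₁ := hVEX n m k π p e r f w0 c q₁ hNF hT.p1 hT.m1 hT.d1 hv
  have hInC : InCT 1 π (w1 w0 q₁) (c1 π c q₁) q₂ := by
    refine ⟨?_, fun i => ?_⟩
    · unfold w1
      rw [← hT.w, pow_one]
      ring
    · unfold c1
      rw [← hT.c i, Nat.cast_one, one_mul]
      ring
  have hd₂ : ¬ q₂ ∣ n * q₁ := by
    intro h
    rcases (Nat.Prime.dvd_mul hT.p2).1 h with h | h
    · exact hT.d2 h
    · exact hT.ne ((Nat.prime_dvd_prime_iff_eq hT.p2 hT.p1).1 h).symm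
  have key := Pool.Agent.PTN.Final.fNBKN 0 (n * q₁) m (k + 1) π p e (sn r q₁) (sn f 1) (w1 w0 q₁) (c1 π c q₁)
    (s + 1) (sn τ τ₁) (sn b b₁) (sn X X₁) (sn Y Y₁) P₁ Q₁ P₁' Q₁' 1 q₂ hNF₁ (by omega) hB₁.ad hSG₁ hSw₁ hB₁.lam
    hB₁.span (Or.inl rfl) hT.p2 hT.l2 hT.m2 hInC hd₂
  have hBB : BB 0 (n * q₁) 1 q₂ = (n : ℤ) * q₁ * q₂ := by
    unfold BB
    push_cast
    ring
  rw [hBB, hv₁, zero_add] at key
  refine CRI.mono key (hLIN s _ ?_)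
  rw [CRI.block b X Y b₁ X₁ Y₁ P Q P' Q' P₁ Q₁ P₁' Q₁' hP hQ hP' hQ']
  exact hdet

end Pool.Agent.EGQ
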