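import Pool.Agent.EGQ.StmtsB

/-!
# Effective generators: module DC2, the pairing `O_{N Q₁ Q₂}(b, η)` as a function of the primes `Q₁`, `Q₂ = 2 (mod 3)`

Modified copy of `PT3/DCOT.lean`: at the places dividing `M` (and at `3`) the number `Q₁ Q₂` is used in place of a
prime `Q`; there are two places outside `M` and `3` with a nonzero term, `Q₁` and `Q₂`.
-/

set_option autoImplicit false

open NumberField IsDedekindDomain Finset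
open scoped nonZeroDivisors Pointwise

namespace Pool.Agent.EGQ

open Pool.Agent.Lib_helper18 Pool.Agent.Lib_helper18.Eis Pool.Agent.Lib_helper84.Cub
open Pool.Agent.PT Pool.Agent.PTE Pool.Agent.PT3 Pool.Agent.PTL Pool.Agent.PTN

namespace DC2

open DCONST

lemma unit_mul {f a b : ℕ} (ha : a.Coprime f) (hb : b.Coprime f) (hab : (a * b).Coprime f) :
    ZMod.unitOfCoprime (a * b) hab = ZMod.unitOfCoprime a ha * ZMod.unitOfCoprime b hb := by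
  apply Units.ext
  simp [ZMod.coe_unitOfCoprime]

/-- the term at an inert prime which divides `B` exactly once -/
lemma term_inert {B b x p q p' q' m : ℤ} {Q : ℕ} (hQp : Q.Prime) (hQ3 : Q % 3 = 2)
    (hs : Sol b x p q p' q') (hB : B = m * Q) (hm : ¬ (Q : ℤ) ∣ m) (hb : b ≠ 0) (hx : x ≠ 0)
    (hax : AG B x) {πQ : PP} (hπQ : πQ.1 = (Q : Eis)) (hQb : ¬ (Q : ℤ) ∣ b) (hQx : ¬ (Q : ℤ) ∣ x)
    (hQ1 : ¬ (Q : ℤ) ∣ p ^ 3 + b * q ^ 3) (hQ2 : ¬ (Q : ℤ) ∣ p' ^ 3 + b * q' ^ 3) {r : ℤ}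
    (hr : (Q : ℤ) ∣ r ^ 3 - b) : TT (some πQ) B b x p q p' q' = - TAUV Q p q p' q' r := by
  have hSTM := PT.Final.fSTM
  have hSPP := PT.Final.fSPP
  have hLCI := PT.Final.fLCI
  have hAVV := PT.Final.fAVV
  have hB0 : B ≠ 0 := by
    rw [hB]
    refine mul_ne_zero ?_ (by exact_mod_cast hQp.ne_zero)
    rintro rfl
    exact hm (dvd_zero _)
  have hQc : ((Q : ℤ) : Eis) = (Q : Eis) := Int.cast_natCast Q
  have hπQ' : πQ.1 = ((Q : ℤ) : Eis) := by rw [hπQ, hQc]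
  have hQnd : ∀ m : ℤ, ¬ (Q : ℤ) ∣ m → ¬ πQ.1 ∣ (m : Eis) := by
    intro m hm h
    rw [hπQ'] at h
    exact hm (intCast_dvd_intCast.1 h)
  have hQw : ¬ πQ.1 ∣ w := not_dvd_w πQ.2.1
  have hBcast : ((B : ℤ) : Eis) = ((m : ℤ) : Eis) * πQ.1 ^ 1 := by
    rw [hB, Int.cast_mul, hπQ', pow_one]
  have hLC : LC (uni (some πQ)) b := by
    refine (hLCI.1 πQ b hb).2 ⟨?_, ?_⟩
    · rw [V_eq_zero (hQnd b hQb)]
      exact dvd_zero 3
    · unfold ch up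
      rw [V_eq_zero (hQnd b hQb), pow_zero, EuclideanDomain.div_one, hπQ]
      exact sym_int hQp hQ3 hQb
  rw [TT_LC hLC]
  have hw : sy (some πQ) w (x : Eis) = 0 := tm_zero hQw (hQnd x hQx)
  rw [hw, add_zero]
  refine (hAVV (some πQ) B b x p q p' q' hB0 hb hx
    hs.toSolW (DCOT.sy_zeroG hSTM hSPP hB0 hax (some πQ)) hLC).2 _ 1 ?_
  intro r' hr'
  have hr1 : πQ.1 ∣ (r' : Eis) ^ 3 - (b : Eis) := by
    have h1 : πQ.1 ^ 1 ∣ (r' : Eis) ^ 3 - (b : Eis) := hr'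
    rwa [pow_one] at h1
  have hrr : (Q : ℤ) ∣ r' - r := by
    apply root_unique hQp hQ3
    have h1 : (Q : ℤ) ∣ r' ^ 3 - b := by
      rw [hπQ'] at hr1
      apply intCast_dvd_intCast.1
      push_cast
      push_cast at hr1
      exact hr1
    have h2 : r' ^ 3 - r ^ 3 = (r' ^ 3 - b) - (r ^ 3 - b) := by ring
    rw [h2]
    exact dvd_sub h1 hr
  have hrr' : πQ.1 ∣ (r' : Eis) - (r : Eis) := by
    rw [hπQ', ← Int.cast_sub]
    exact intCast_dvd_intCast.2 hrr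
  have hsym : ∀ (g h : ℤ) (i : ℕ), sym (Q : Eis) (Lf g h i r') = sym (Q : Eis) (Lf g h i r) := by
    intro g h i
    apply sym_congr
    rw [← hπQ]
    have h1 : Lf g h i r' - Lf g h i r = (h * w ^ i) * ((r' : Eis) - r) := by
      unfold Lf
      ring
    rw [h1]
    exact dvd_mul_of_dvd_right hrr' _
  have k1 := Lf_ndvd (p := p) (q := q) hr1 (hQnd _ hQ1)
  have k2 := Lf_ndvd (p := p') (q := q') hr1 (hQnd _ hQ2)
  show tm πQ.1 ((B : ℤ) : Eis) (Lf p q 2 r') +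
    tm πQ.1 ((B : ℤ) : Eis) (Lf p' q' 1 r') -
    tm πQ.1 ((B : ℤ) : Eis) (Lf p q 1 r') -
    tm πQ.1 ((B : ℤ) : Eis) (Lf p' q' 2 r') = - TAUV Q p q p' q' r
  rw [hBcast, PTL.DC.tm_inert πQ.2.1 (hQnd _ hm) (k1 2), PTL.DC.tm_inert πQ.2.1 (hQnd _ hm) (k2 1),
    PTL.DC.tm_inert πQ.2.1 (hQnd _ hm) (k1 1), PTL.DC.tm_inert πQ.2.1 (hQnd _ hm) (k2 2), hπQ, hsym,
    hsym, hsym, hsym]
  unfold TAUV
  push_cast
  ring

/-- the part `OO` of the pairing -/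
theorem main : ∀ (N : ℕ) (b x p q p' q' : ℤ), 0 < N → Sol b x p q p' q' →
  b ≠ 0 → x ≠ 0 → ∃ f₀ : ℕ, 0 < f₀ ∧ ∀ f : ℕ, 0 < f → f₀ ∣ f →
  ∃ (C : ZMod 3) (Φ : (ZMod f)ˣ →* Multiplicative (ZMod 3)),
    ∀ (Q₁ Q₂ : ℕ) (h₁ : Q₁.Coprime f) (h₂ : Q₂.Coprime f), Q₁.Prime → Q₂.Prime → Q₁ ≠ Q₂ →
      Q₁ % 3 = 2 → Q₂ % 3 = 2 → AG ((N : ℤ) * Q₁ * Q₂) x →
      ∀ r₁ r₂ : ℤ, (Q₁ : ℤ) ∣ r₁ ^ 3 - b → (Q₂ : ℤ) ∣ r₂ ^ 3 - b →
        PT.OO ((N : ℤ) * Q₁ * Q₂) b x p q p' q' =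
          C + ((Φ (ZMod.unitOfCoprime Q₁ h₁)).toAdd - TAUV Q₁ p q p' q' r₁) +
            ((Φ (ZMod.unitOfCoprime Q₂ h₂)).toAdd - TAUV Q₂ p q p' q' r₂) := by
  intro n b x p q p' q' hn0 hs hb hx
  have hSTM := PT.Final.fSTM
  have hSPP := PT.Final.fSPP
  have hSLC := PT.Final.fSLC
  have hAVV := PT.Final.fAVV
  have hn1 := hs.n1
  have hn2 : p' ^ 3 + b * q' ^ 3 ≠ 0 := by
    intro h
    apply hs.n1
    rw [hs.eq, h, mul_zero]
  have hnz : (n : ℤ) ≠ 0 := by omega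
  obtain ⟨M, hMdef⟩ : ∃ M : ℤ, M = (n : ℤ) * b * x * (p ^ 3 + b * q ^ 3) *
    (p' ^ 3 + b * q' ^ 3) := ⟨_, rfl⟩
  have hM : M ≠ 0 := by
    rw [hMdef]
    exact mul_ne_zero (mul_ne_zero (mul_ne_zero (mul_ne_zero hnz hb) hx) hn1) hn2
  have dn : (n : ℤ) ∣ M := ⟨b * x * (p ^ 3 + b * q ^ 3) * (p' ^ 3 + b * q' ^ 3), by
    rw [hMdef]; ring⟩
  have db : b ∣ M := ⟨(n : ℤ) * x * (p ^ 3 + b * q ^ 3) * (p' ^ 3 + b * q' ^ 3), by
    rw [hMdef]; ring⟩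
  have dx : x ∣ M := ⟨(n : ℤ) * b * (p ^ 3 + b * q ^ 3) * (p' ^ 3 + b * q' ^ 3), by
    rw [hMdef]; ring⟩
  have d1 : p ^ 3 + b * q ^ 3 ∣ M := ⟨(n : ℤ) * b * x * (p' ^ 3 + b * q' ^ 3), by
    rw [hMdef]; ring⟩
  have d2 : p' ^ 3 + b * q' ^ 3 ∣ M := ⟨(n : ℤ) * b * x * (p ^ 3 + b * q ^ 3), by
    rw [hMdef]; ring⟩
  have hfin := hSPP.2.2.1 (M : Eis) (DCONST.cast_ne hM)
  have hMa : 0 < M.natAbs := Int.natAbs_pos.2 hM
  refine ⟨9 * M.natAbs, by omega, ?_⟩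
  intro f hf0 hf
  have h9 : 9 ∣ f := (Dvd.intro _ rfl).trans hf
  have hf1 : 1 < f := by
    have := Nat.le_of_dvd hf0 h9
    omega
  have hMf : M ∣ (f : ℤ) := by
    have h1 : M.natAbs ∣ f := (Dvd.intro_left 9 rfl).trans hf
    exact Int.natAbs_dvd.1 (Int.natCast_dvd_natCast.2 h1)
  have hlamf : lam ^ 4 ∣ ((f : ℤ) : Eis) := by
    have h1 : ((9 : ℤ) : Eis) ∣ ((f : ℤ) : Eis) :=
      intCast_dvd_intCast.2 (by exact_mod_cast h9)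
    refine Dvd.dvd.trans ⟨w ^ 4, ?_⟩ h1
    have h2 : ((9 : ℤ) : Eis) = (3 : Eis) ^ 2 := by norm_num
    rw [h2, three_eq]
    ring
  have hQM : ∀ Q : ℕ, Q.Prime → Q.Coprime f → ¬ (Q : ℤ) ∣ M := by
    intro Q hQ hQf h
    have h1 : (Q : ℤ) ∣ (f : ℤ) := h.trans hMf
    have h2 : Q ∣ f := Int.natCast_dvd_natCast.1 h1
    have h3 := Nat.Coprime.eq_one_of_dvd hQf h2
    exact hQ.one_lt.ne' h3
  have hBne : ∀ Q : ℕ, Q ≠ 0 → (n : ℤ) * (Q : ℤ) ^ 1 ≠ 0 := fun Q hQ =>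
    mul_ne_zero hnz (pow_ne_zero _ (by exact_mod_cast hQ))
  -- the place above `3`
  obtain ⟨c₀, Φ₀, H₀⟩ : ∃ (c : ZMod 3) (Φ : (ZMod f)ˣ →* Multiplicative (ZMod 3)),
      ∀ (Q : ℕ) (hQ : Q.Coprime f), Q ≠ 0 → AG ((n : ℤ) * (Q : ℤ) ^ 1) x →
        TT none ((n : ℤ) * (Q : ℤ) ^ 1) b x p q p' q' =
          c + (Φ (ZMod.unitOfCoprime Q hQ)).toAdd := by
    by_cases hLC : LC (uni none) b
    · obtain ⟨C, Φ, H⟩ := PTL.DC.place_LC (n := (n : ℤ)) hSLC hnz hn1 hn2 hLC hf1 hlamf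
      refine ⟨C + sl w (x : Eis), Φ, ?_⟩
      intro Q hQ hQp hax
      rw [TT_LC hLC]
      obtain ⟨N0, hN0⟩ := (hAVV none ((n : ℤ) * (Q : ℤ) ^ 1) b x p q p' q' (hBne Q hQp) hb hx
        hs.toSolW (DCOT.sy_zeroG hSTM hSPP (hBne Q hQp) hax none) hLC).1
      rw [H 1 Q hQ _ N0 hN0]
      show _ + sl w (x : Eis) = _
      push_cast
      ring
    · refine ⟨0, 1, ?_⟩
      intro Q hQ hQp hax
      unfold TT
      rw [if_neg hLC]
      simp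
  -- the places dividing `M`
  have hpl : ∀ π : PP, ∃ (c : ZMod 3) (Φ : (ZMod f)ˣ →* Multiplicative (ZMod 3)),
      π.1 ∣ (M : Eis) → ∀ (Q : ℕ) (hQ : Q.Coprime f), Q ≠ 0 → AG ((n : ℤ) * (Q : ℤ) ^ 1) x →
        TT (some π) ((n : ℤ) * (Q : ℤ) ^ 1) b x p q p' q' =
          c + (Φ (ZMod.unitOfCoprime Q hQ)).toAdd := by
    intro π
    by_cases hπM : π.1 ∣ (M : Eis)
    · have hπf : π.1 ∣ ((f : ℤ) : Eis) := hπM.trans (intCast_dvd_intCast.2 hMf)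
      by_cases hLC : LC (uni (some π)) b
      · obtain ⟨C, Φ, H⟩ := PTL.DC.place_LC (n := (n : ℤ)) (hSTM π.1 π.2.1 (hSPP.2.2.2.1 π).1) hnz
          hn1 hn2 hLC hf1 (by rw [pow_one]; exact hπf)
        refine ⟨C + tm π.1 w (x : Eis), Φ, ?_⟩
        intro _ Q hQ hQp hax
        rw [TT_LC hLC]
        obtain ⟨N0, hN0⟩ := (hAVV (some π) ((n : ℤ) * (Q : ℤ) ^ 1) b x p q p' q' (hBne Q hQp) hb hx
          hs.toSolW (DCOT.sy_zeroG hSTM hSPP (hBne Q hQp) hax (some π)) hLC).1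
        rw [H 1 Q hQ _ N0 hN0]
        show _ + tm π.1 w (x : Eis) = _
        push_cast
        ring
      · refine ⟨if 3 ∣ V π.1 (b : Eis) + V π.1 ((n : ℤ) : Eis) ∧ ¬ 3 ∣ V π.1 (b : Eis)
          then - tm π.1 w (x : Eis) else 0, 1, ?_⟩
        intro _ Q hQ hQp hax
        rw [TT_some hLC]
        have hVQ : V π.1 ((Q : ℤ) : Eis) = 0 := by
          apply V_eq_zero
          intro hd
          obtain ⟨y, z, hyz⟩ := Nat.isCoprime_iff_coprime.2 hQ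
          apply π.2.1.not_isUnit
          apply isUnit_of_dvd_one
          have h1 : (1 : Eis) = (y : Eis) * ((Q : ℤ) : Eis) + (z : Eis) * ((f : ℤ) : Eis) := by
            have h2 := congrArg (fun t : ℤ => (t : Eis)) hyz
            simp only [Int.cast_add, Int.cast_mul, Int.cast_one] at h2
            exact h2.symm
          rw [h1]
          exact dvd_add (dvd_mul_of_dvd_right hd _) (dvd_mul_of_dvd_right hπf _)
        have hV : V π.1 (((n : ℤ) * (Q : ℤ) ^ 1 : ℤ) : Eis) = V π.1 ((n : ℤ) : Eis) := by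
          have hQe : ((Q : ℤ) : Eis) ≠ 0 := DCONST.cast_ne (by exact_mod_cast hQp)
          rw [Int.cast_mul, Int.cast_pow, V_mul π.2.1 (DCONST.cast_ne hnz) (pow_ne_zero _ hQe),
            V_pow π.2.1 hQe, hVQ, mul_zero, add_zero]
        rw [hV]
        simp
    · exact ⟨0, 1, fun h => absurd h hπM⟩
  choose c Φ H using hpl
  refine ⟨c₀ + ∑ π ∈ hfin.toFinset, c π, Φ₀ * ∏ π ∈ hfin.toFinset, Φ π, ?_⟩
  intro Q₁ Q₂ h₁ h₂ hp₁ hp₂ hne hm₁ hm₂ hax r₁ r₂ hr₁ hr₂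
  obtain ⟨π₁, hπ₁⟩ := hSPP.2.2.2.2.1 Q₁ hp₁ hm₁
  obtain ⟨π₂, hπ₂⟩ := hSPP.2.2.2.2.1 Q₂ hp₂ hm₂
  have hQc₁ : ((Q₁ : ℤ) : Eis) = (Q₁ : Eis) := Int.cast_natCast Q₁
  have hQc₂ : ((Q₂ : ℤ) : Eis) = (Q₂ : Eis) := Int.cast_natCast Q₂
  have hπ₁' : π₁.1 = ((Q₁ : ℤ) : Eis) := by rw [hπ₁, hQc₁]
  have hπ₂' : π₂.1 = ((Q₂ : ℤ) : Eis) := by rw [hπ₂, hQc₂]
  have hndd : ∀ {P Q : ℕ}, P.Prime → Q.Prime → P ≠ Q → ¬ (P : ℤ) ∣ (Q : ℤ) := by
    intro P Q hP hQ hPQ h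
    exact hPQ ((Nat.prime_dvd_prime_iff_eq hP hQ).1 (Int.natCast_dvd_natCast.1 h))
  have hnd₁ : ∀ m : ℤ, m ∣ M → ¬ (Q₁ : ℤ) ∣ m := fun m hm h => hQM Q₁ hp₁ h₁ (h.trans hm)
  have hnd₂ : ∀ m : ℤ, m ∣ M → ¬ (Q₂ : ℤ) ∣ m := fun m hm h => hQM Q₂ hp₂ h₂ (h.trans hm)
  have hpi₁ : Prime (Q₁ : ℤ) := Nat.prime_iff_prime_int.1 hp₁
  have hpi₂ : Prime (Q₂ : ℤ) := Nat.prime_iff_prime_int.1 hp₂
  have hcop : (Q₁ * Q₂).Coprime f := Nat.Coprime.mul_left h₁ h₂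
  have hQQ0 : Q₁ * Q₂ ≠ 0 := mul_ne_zero hp₁.ne_zero hp₂.ne_zero
  have hBe : (n : ℤ) * ((Q₁ * Q₂ : ℕ) : ℤ) ^ 1 = (n : ℤ) * Q₁ * Q₂ := by
    push_cast
    ring
  have hB0 : (n : ℤ) * Q₁ * Q₂ ≠ 0 := by
    rw [← hBe]
    exact hBne _ hQQ0
  have hBcast : (((n : ℤ) * Q₁ * Q₂ : ℤ) : Eis) = ((n : ℤ) : Eis) * π₁.1 * π₂.1 := by
    rw [Int.cast_mul, Int.cast_mul, hπ₁', hπ₂']
  have hT₀ := H₀ (Q₁ * Q₂) hcop hQQ0 (by rw [hBe]; exact hax)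
  have hTM : ∀ π : PP, π.1 ∣ (M : Eis) → TT (some π) ((n : ℤ) * Q₁ * Q₂) b x p q p' q' =
      c π + (Φ π (ZMod.unitOfCoprime (Q₁ * Q₂) hcop)).toAdd := by
    intro π hπ
    have h := H π hπ (Q₁ * Q₂) hcop hQQ0 (by rw [hBe]; exact hax)
    rwa [hBe] at h
  rw [hBe] at hT₀
  have hT₁ : TT (some π₁) ((n : ℤ) * Q₁ * Q₂) b x p q p' q' = - TAUV Q₁ p q p' q' r₁ := by
    refine term_inert (m := (n : ℤ) * Q₂) hp₁ hm₁ hs (by ring) ?_ hb hx hax hπ₁ (hnd₁ b db)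
      (hnd₁ x dx) (hnd₁ _ d1) (hnd₁ _ d2) hr₁
    intro h
    rcases hpi₁.dvd_or_dvd h with h | h
    · exact hnd₁ _ dn h
    · exact hndd hp₁ hp₂ hne h
  have hT₂ : TT (some π₂) ((n : ℤ) * Q₁ * Q₂) b x p q p' q' = - TAUV Q₂ p q p' q' r₂ := by
    refine term_inert (m := (n : ℤ) * Q₁) hp₂ hm₂ hs rfl ?_ hb hx hax hπ₂ (hnd₂ b db)
      (hnd₂ x dx) (hnd₂ _ d1) (hnd₂ _ d2) hr₂
    intro h
    rcases hpi₂.dvd_or_dvd h with h | h
    · exact hnd₂ _ dn h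
    · exact hndd hp₂ hp₁ hne.symm h
  -- the sum
  have hS₁ : π₁ ∉ hfin.toFinset := by
    rw [Set.Finite.mem_toFinset]
    intro h
    have h' : π₁.1 ∣ (M : Eis) := h
    rw [hπ₁'] at h'
    exact hnd₁ M dvd_rfl (intCast_dvd_intCast.1 h')
  have hS₂ : π₂ ∉ hfin.toFinset := by
    rw [Set.Finite.mem_toFinset]
    intro h
    have h' : π₂.1 ∣ (M : Eis) := h
    rw [hπ₂'] at h'
    exact hnd₂ M dvd_rfl (intCast_dvd_intCast.1 h')
  have h12 : π₁ ≠ π₂ := by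
    intro h
    have h' : π₁.1 = π₂.1 := by rw [h]
    rw [hπ₁', hπ₂'] at h'
    apply hndd hp₁ hp₂ hne
    apply intCast_dvd_intCast.1
    rw [h']
  classical
  have hsupp : (Function.support fun v : Pl => TT v ((n : ℤ) * Q₁ * Q₂) b x p q p' q') ⊆
      ((insert none (insert (some π₁) (insert (some π₂) (hfin.toFinset.image some))) :
        Finset Pl) : Set Pl) := by
    intro v hv
    by_contra hnv
    apply hv
    rcases v with _ | π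
    · exact absurd (Finset.mem_coe.2 (Finset.mem_insert_self _ _)) hnv
    · have hnM : ¬ π.1 ∣ (M : Eis) := by
        intro h
        apply hnv
        rw [Finset.mem_coe]
        refine Finset.mem_insert_of_mem (Finset.mem_insert_of_mem
          (Finset.mem_insert_of_mem (Finset.mem_image_of_mem _ ?_)))
        rw [Set.Finite.mem_toFinset]
        exact h
      have hπne₁ : π ≠ π₁ := by
        rintro rfl
        apply hnv
        rw [Finset.mem_coe]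
        exact Finset.mem_insert_of_mem (Finset.mem_insert_self _ _)
      have hπne₂ : π ≠ π₂ := by
        rintro rfl
        apply hnv
        rw [Finset.mem_coe]
        exact Finset.mem_insert_of_mem (Finset.mem_insert_of_mem (Finset.mem_insert_self _ _))
      have hd : ∀ m : ℤ, m ∣ M → ¬ π.1 ∣ (m : Eis) := fun m hm h =>
        hnM (h.trans (intCast_dvd_intCast.2 hm))
      have hπnd : ∀ π' : PP, π ≠ π' → ¬ π.1 ∣ π'.1 := by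
        intro π' hne' h
        exact hne' (hSPP.2.1 π π' (π.2.1.associated_of_dvd π'.2.1 h))
      have hnB : ¬ π.1 ∣ (((n : ℤ) * Q₁ * Q₂ : ℤ) : Eis) := by
        rw [hBcast]
        intro h
        rcases π.2.1.dvd_or_dvd h with h1 | h1
        · rcases π.2.1.dvd_or_dvd h1 with h2 | h2
          · exact hd _ dn h2
          · exact hπnd _ hπne₁ h2
        · exact hπnd _ hπne₂ h1
      have hnw : ¬ π.1 ∣ w := not_dvd_w π.2.1
      show TT (some π) ((n : ℤ) * Q₁ * Q₂) b x p q p' q' = 0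
      by_cases hLC : LC (uni (some π)) b
      · rw [TT_LC hLC]
        have hw : sy (some π) w (x : Eis) = 0 := tm_zero hnw (hd x dx)
        obtain ⟨N0, hN0⟩ := (hAVV (some π) ((n : ℤ) * Q₁ * Q₂) b x p q p' q' hB0 hb hx
          hs.toSolW (DCOT.sy_zeroG hSTM hSPP hB0 hax (some π)) hLC).1
        obtain ⟨r₃, hr₃⟩ := hLC (max N0 1)
        have hr0 : uni (some π) ^ N0 ∣ (r₃ : Eis) ^ 3 - (b : Eis) :=
          (pow_dvd_pow _ (le_max_left _ _)).trans hr₃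
        have hr1 : π.1 ∣ (r₃ : Eis) ^ 3 - (b : Eis) := by
          have h1 : π.1 ^ 1 ∣ (r₃ : Eis) ^ 3 - (b : Eis) :=
            (pow_dvd_pow π.1 (le_max_right N0 1)).trans hr₃
          rwa [pow_one] at h1
        have k1 := Lf_ndvd (p := p) (q := q) hr1 (hd _ d1)
        have k2 := Lf_ndvd (p := p') (q := q') hr1 (hd _ d2)
        rw [hw, ← hN0 r₃ hr0]
        show tm π.1 (((n : ℤ) * Q₁ * Q₂ : ℤ) : Eis) (Lf p q 2 r₃) +
          tm π.1 (((n : ℤ) * Q₁ * Q₂ : ℤ) : Eis) (Lf p' q' 1 r₃) -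
          tm π.1 (((n : ℤ) * Q₁ * Q₂ : ℤ) : Eis) (Lf p q 1 r₃) -
          tm π.1 (((n : ℤ) * Q₁ * Q₂ : ℤ) : Eis) (Lf p' q' 2 r₃) + 0 = 0
        rw [tm_zero hnB (k1 2), tm_zero hnB (k2 1), tm_zero hnB (k1 1), tm_zero hnB (k2 2)]
        simp
      · rw [TT_some hLC, if_neg]
        rintro ⟨-, h1⟩
        apply h1
        rw [V_eq_zero (hd b db)]
        exact dvd_zero 3
  have hn_notin : (none : Pl) ∉ insert (some π₁) (insert (some π₂) (hfin.toFinset.image some)) := by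
    simp
  have hmem : ∀ π : PP, π ∉ hfin.toFinset → (some π : Pl) ∉ hfin.toFinset.image some := by
    intro π hπ h
    obtain ⟨y, hy, hy'⟩ := Finset.mem_image.1 h
    rw [Option.some.injEq] at hy'
    rw [hy'] at hy
    exact hπ hy
  have h1_notin : (some π₁ : Pl) ∉ insert (some π₂) (hfin.toFinset.image some) := by
    intro h
    rcases Finset.mem_insert.1 h with h | h
    · rw [Option.some.injEq] at h
      exact h12 h
    · exact hmem _ hS₁ h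
  have hsum : ∑ π ∈ hfin.toFinset, TT (some π) ((n : ℤ) * Q₁ * Q₂) b x p q p' q' =
      ∑ π ∈ hfin.toFinset, (c π + (Φ π (ZMod.unitOfCoprime (Q₁ * Q₂) hcop)).toAdd) := by
    refine Finset.sum_congr rfl ?_
    intro π hπ
    rw [Set.Finite.mem_toFinset] at hπ
    exact hTM π hπ
  have hΦ : ((Φ₀ * ∏ π ∈ hfin.toFinset, Φ π) (ZMod.unitOfCoprime (Q₁ * Q₂) hcop)).toAdd =
      ((Φ₀ * ∏ π ∈ hfin.toFinset, Φ π) (ZMod.unitOfCoprime Q₁ h₁)).toAdd +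
      ((Φ₀ * ∏ π ∈ hfin.toFinset, Φ π) (ZMod.unitOfCoprime Q₂ h₂)).toAdd := by
    rw [unit_mul h₁ h₂ hcop, map_mul, toAdd_mul]
  have hΦ' : ((Φ₀ * ∏ π ∈ hfin.toFinset, Φ π) (ZMod.unitOfCoprime (Q₁ * Q₂) hcop)).toAdd =
      (Φ₀ (ZMod.unitOfCoprime (Q₁ * Q₂) hcop)).toAdd +
      ∑ π ∈ hfin.toFinset, (Φ π (ZMod.unitOfCoprime (Q₁ * Q₂) hcop)).toAdd := by
    rw [MonoidHom.mul_apply, MonoidHom.finsetProd_apply, toAdd_mul, toAdd_prod]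
  unfold PT.OO
  rw [finsum_eq_sum_of_support_subset _ hsupp, Finset.sum_insert hn_notin,
    Finset.sum_insert h1_notin, Finset.sum_insert (hmem _ hS₂),
    Finset.sum_image (fun _ _ _ _ h => Option.some_injective _ h),
    hsum, hT₁, hT₂, hT₀, Finset.sum_add_distrib]
  linear_combination hΦ - hΦ'

end DC2

/-- DC2: the pairing `O_{N Q₁ Q₂}(b, η)` as a function of the primes `Q₁`, `Q₂ = 2 (mod 3)`. -/
theorem DC2_thm : Stmt_DC2 := by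
  classical
  intro N b X Y x p q p' q' hN hs hb hx
  obtain ⟨f₀, hf₀, H⟩ := DC2.main N b x p q p' q' hN hs hb hx
  refine ⟨f₀, hf₀, fun f hf hd => ?_⟩
  obtain ⟨C, Φ, H1⟩ := H f hf hd
  refine ⟨C + (if LC lam b then 0 else SV sl b p (-p') (-q) q' X Y), Φ, ?_⟩
  intro Q₁ Q₂ h₁ h₂ hp₁ hp₂ hne hm₁ hm₂ hax r₁ r₂ hr₁ hr₂
  have h1 := H1 Q₁ Q₂ h₁ h₂ hp₁ hp₂ hne hm₁ hm₂ hax r₁ r₂ hr₁ hr₂
  unfold OT
  rw [h1]
  by_cases hLC : LC lam b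
  · simp only [if_pos hLC]
    ring
  · simp only [if_neg hLC]
    ring

end Pool.Agent.EGQ
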