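import Pool.Agent.EGQ.StmtsB

/-!
# Effective generators: module DNA, the matrix of the pairing for `n q₁ q₂`
-/

set_option autoImplicit false

open NumberField IsDedekindDomain Finset
open scoped nonZeroDivisors Pointwise

namespace Pool.Agent.EGQ

open Pool.Agent.Lib_helper18 Pool.Agent.Lib_helper18.Eis Pool.Agent.Lib_helper84.Cub
open Pool.Agent.PT Pool.Agent.PTE Pool.Agent.PT3 Pool.Agent.PTL Pool.Agent.PTN

theorem DNA_thm (hLOC : Stmt_LOC) (hDC2 : Stmt_DC2) (_hDNB : Stmt_DNB) : Stmt_DNA := by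
  classical
  intro n m k π p e r f w0 c s τ b X Y P Q P' Q' hNF hBas hSys hSw
  have hn0 : 0 < n := PT.FINA.pos_of_nf hNF
  have hb0 : ∀ i, b i ≠ 0 := fun i => (hBas.ad i).1.ne
  -- the conductor
  have hD : ∀ j i : Fin s, ∃ f₀ : ℕ, 0 < f₀ ∧ (j ≠ i → ∀ f : ℕ, 0 < f → f₀ ∣ f →
      ∃ (C : ZMod 3) (Φ : (ZMod f)ˣ →* Multiplicative (ZMod 3)),
        ∀ (q₁ q₂ : ℕ) (h₁ : q₁.Coprime f) (h₂ : q₂.Coprime f), q₁.Prime → q₂.Prime → q₁ ≠ q₂ →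
          q₁ % 3 = 2 → q₂ % 3 = 2 → AG ((n : ℤ) * q₁ * q₂) (b i) →
          ∀ r₁ r₂ : ℤ, (q₁ : ℤ) ∣ r₁ ^ 3 - b j → (q₂ : ℤ) ∣ r₂ ^ 3 - b j →
            OT ((n : ℤ) * q₁ * q₂) (b j) (X j) (Y j) (b i) (P j i) (Q j i) (P' j i) (Q' j i) =
            C + ((Φ (ZMod.unitOfCoprime q₁ h₁)).toAdd -
              TAUV q₁ (P j i) (Q j i) (P' j i) (Q' j i) r₁) +
              ((Φ (ZMod.unitOfCoprime q₂ h₂)).toAdd -
              TAUV q₂ (P j i) (Q j i) (P' j i) (Q' j i) r₂)) := by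
    intro j i
    by_cases hji : j = i
    · exact ⟨1, one_pos, fun h => absurd hji h⟩
    · obtain ⟨f₀, h0, h1⟩ := hDC2 n (b j) (X j) (Y j) (b i) (P j i) (Q j i) (P' j i)
        (Q' j i) hn0 (hSys.sol j i hji) (hb0 j) (hb0 i)
      exact ⟨f₀, h0, fun _ => h1⟩
  choose F0 hF0 hF1 using hD
  obtain ⟨F, hFpos, hF9, hpF, hFd⟩ : ∃ F : ℕ, 0 < F ∧ 9 ∣ F ∧ (∀ i, p i ∣ F) ∧
      ∀ j i, F0 j i ∣ F := by
    refine ⟨9 * (∏ i, p i) * ∏ j, ∏ i, F0 j i, ?_, ?_, ?_, ?_⟩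
    · have h1 : 0 < ∏ i, p i := Finset.prod_pos fun i _ => (hNF.pp i).pos
      have h2 : 0 < ∏ j, ∏ i, F0 j i :=
        Finset.prod_pos fun j _ => Finset.prod_pos fun i _ => hF0 j i
      positivity
    · exact Dvd.dvd.mul_right (Dvd.intro _ rfl) _
    · intro i
      exact Dvd.dvd.mul_right (Dvd.dvd.mul_left (Finset.dvd_prod_of_mem p (mem_univ i)) _) _
    · intro j i
      exact Dvd.dvd.mul_left ((Finset.dvd_prod_of_mem (fun i => F0 j i) (mem_univ i)).trans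
        (Finset.dvd_prod_of_mem (fun j => ∏ i, F0 j i) (mem_univ j))) _
  have hC : ∀ j i : Fin s, ∃ (C : ZMod 3) (Φ : (ZMod F)ˣ →* Multiplicative (ZMod 3)),
      j ≠ i → ∀ (q₁ q₂ : ℕ) (h₁ : q₁.Coprime F) (h₂ : q₂.Coprime F), q₁.Prime → q₂.Prime →
          q₁ ≠ q₂ → q₁ % 3 = 2 → q₂ % 3 = 2 → AG ((n : ℤ) * q₁ * q₂) (b i) →
          ∀ r₁ r₂ : ℤ, (q₁ : ℤ) ∣ r₁ ^ 3 - b j → (q₂ : ℤ) ∣ r₂ ^ 3 - b j →
            OT ((n : ℤ) * q₁ * q₂) (b j) (X j) (Y j) (b i) (P j i) (Q j i) (P' j i) (Q' j i) =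
            C + ((Φ (ZMod.unitOfCoprime q₁ h₁)).toAdd -
              TAUV q₁ (P j i) (Q j i) (P' j i) (Q' j i) r₁) +
              ((Φ (ZMod.unitOfCoprime q₂ h₂)).toAdd -
              TAUV q₂ (P j i) (Q j i) (P' j i) (Q' j i) r₂) := by
    intro j i
    by_cases hji : j = i
    · exact ⟨0, 1, fun h => absurd hji h⟩
    · obtain ⟨C, Φ, h⟩ := hF1 j i hji F hFpos (hFd j i)
      exact ⟨C, Φ, fun _ => h⟩
  choose C Φ hC using hC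
  refine ⟨F, hFpos, hF9, hpF, C, PT.FINA.assemble Φ, ?_⟩
  intro q₁ q₂ h₁ h₂ hTwo τ₁ τ₂ hτ₁ hτ₂
  obtain ⟨hBG, hTy, hAd⟩ := hLOC n m k π p e r f w0 c q₁ q₂ hNF hTwo
  have hAG : ∀ i, AG ((n : ℤ) * q₁ * q₂) (b i) := fun i => hAd (b i) (hBas.ad i)
  have hent : ∀ j i, j ≠ i → MaT b X Y P Q P' Q' ((n : ℤ) * q₁ * q₂) j i =
      C j i + ((Φ j i (ZMod.unitOfCoprime q₁ h₁)).toAdd - τ₁ j i) +
        ((Φ j i (ZMod.unitOfCoprime q₂ h₂)).toAdd - τ₂ j i) := by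
    intro j i hji
    obtain ⟨ρ₁, hρ₁⟩ := PT.BFINA.exists_root hTwo.p1 hTwo.m1 (b j)
    obtain ⟨ρ₂, hρ₂⟩ := PT.BFINA.exists_root hTwo.p2 hTwo.m2 (b j)
    rw [MaT, if_neg hji, hC j i hji q₁ q₂ h₁ h₂ hTwo.p1 hTwo.p2 hTwo.ne hTwo.m1 hTwo.m2 (hAG i)
      ρ₁ ρ₂ hρ₁ hρ₂, ← hτ₁ j i hji ρ₁ hρ₁, ← hτ₂ j i hji ρ₂ hρ₂]
  have hanti := (PT3.Final.fTENT s τ b X Y P Q P' Q' ((n : ℤ) * q₁ * q₂) hSys hSw hBG hAG
    (hBas.lam _ hTy) hb0).1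
  ext j i
  rw [alt]
  rcases lt_trichotomy j i with h | h | h
  · rw [if_pos h, hent j i h.ne]
    rfl
  · subst h
    rw [if_neg (lt_irrefl _), if_neg (lt_irrefl _), MaT, if_pos rfl]
  · rw [if_neg (not_lt.2 h.le), if_pos h, hanti j i, hent i j h.ne]
    rfl

end Pool.Agent.EGQ
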