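import Pool.Agent.EGQ.StmtsB

/-!
# EGQ_DNB: the matrix of the symbols
-/

set_option autoImplicit false

namespace Pool.Agent.EGQ

open Pool.Agent.Lib_helper18 Pool.Agent.Lib_helper18.Eis Pool.Agent.Lib_helper84.Cub
open Pool.Agent.PT Pool.Agent.PTE Pool.Agent.PT3 Pool.Agent.PTL Pool.Agent.PTN

namespace DNB

theorem tauv_congr {Q : ℕ} {p q p' q' r r' : ℤ} (h : (Q : ℤ) ∣ r' - r) :
    TAUV Q p q p' q' r' = TAUV Q p q p' q' r := by
  have hc : (Q : Eis) ∣ (r' : Eis) - (r : Eis) := by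
    rw [← Int.cast_sub]
    obtain ⟨z, hz⟩ := h
    exact ⟨(z : Eis), by rw [hz]; push_cast; ring⟩
  have hsym : ∀ (g h : ℤ) (i : ℕ), sym (Q : Eis) (Lf g h i r') = sym (Q : Eis) (Lf g h i r) := by
    intro g h i
    apply sym_congr
    have h1 : Lf g h i r' - Lf g h i r = (h * w ^ i) * ((r' : Eis) - r) := by
      unfold Lf
      ring
    rw [h1]
    exact dvd_mul_of_dvd_right hc _
  unfold TAUV
  rw [hsym, hsym, hsym, hsym]

end DNB

open DNB in
/-- EGQ_DNB. -/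
theorem DNB_thm : Stmt_DNB := by
  classical
  intro s b p q p' q' Q hQ hQ3
  refine ⟨fun j i => if h : ∃ r : ℤ, (Q : ℤ) ∣ r ^ 3 - b j then
    TAUV Q (p j i) (q j i) (p' j i) (q' j i) h.choose else 0, ?_⟩
  intro j i hji r hr
  have h : ∃ r : ℤ, (Q : ℤ) ∣ r ^ 3 - b j := ⟨r, hr⟩
  show (if h : ∃ r : ℤ, (Q : ℤ) ∣ r ^ 3 - b j then
    TAUV Q (p j i) (q j i) (p' j i) (q' j i) h.choose else 0) = _
  rw [dif_pos h]
  apply tauv_congr
  apply DCONST.root_unique hQ hQ3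
  have h2 : h.choose ^ 3 - r ^ 3 = (h.choose ^ 3 - b j) - (r ^ 3 - b j) := by ring
  rw [h2]
  exact dvd_sub h.choose_spec hr

end Pool.Agent.EGQ
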