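import Pool.Agent.EGQ.StmtsB

/-!
# Effective generators (project EGQ): the set of primes (DNC)
-/

set_option autoImplicit false

open NumberField IsDedekindDomain Finset
open scoped nonZeroDivisors Pointwise

namespace Pool.Agent.EGQ

open Pool.Agent.Lib_helper18 Pool.Agent.Lib_helper18.Eis Pool.Agent.Lib_helper84.Cub
open Pool.Agent.PT Pool.Agent.PTE Pool.Agent.PT3 Pool.Agent.PTL Pool.Agent.PTN

namespace DNC

theorem add_self3 (x : ZMod 3) : -x + -x = x := by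
  revert x
  decide

theorem add3 (x y : ZMod 3) : x + y + y = -(-x + y) := by
  revert x y
  decide

theorem alt_combine {s : ℕ} (C G : Fin s → Fin s → ZMod 3) :
    alt (C + G + G) = - alt (-C + G) := by
  ext j i
  rw [Matrix.neg_apply]
  unfold alt
  simp only [Pi.add_apply, Pi.neg_apply]
  split_ifs
  · exact add3 _ _
  · rw [add3]
  · rw [neg_zero]

theorem det_alt {s : ℕ} (C G : Fin s → Fin s → ZMod 3) (h : (alt (-C + G)).det ≠ 0) :
    (alt (C + G + G)).det ≠ 0 := by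
  rw [alt_combine, Matrix.det_neg]
  exact mul_ne_zero (pow_ne_zero _ (by decide)) h

end DNC

open DNC in
/-- EGQ_DNC: the set of primes. -/
theorem DNC_thm (hPIG : Stmt_PIG) (hDNA : Stmt_DNA) (hDNB : Stmt_DNB) : Stmt_DNC := by
  classical
  intro n m k π p e r f w0 c s τ b X Y P Q P' Q' hNF hs hBas hSys hSw
  have hn0 : 0 < n := PT.FINA.pos_of_nf hNF
  obtain ⟨F, hF, h9, hpF, C, Φ, hM⟩ :=
    hDNA n m k π p e r f w0 c s τ b X Y P Q P' Q' hNF hBas hSys hSw
  obtain ⟨κ, hκ1, hκ2⟩ :=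
    PT.Final.fCLSC m π p hNF.pp hNF.p1 hNF.pπ hNF.pinj F hF h9 hpF
  have hF9 : 9 ≤ F := Nat.le_of_dvd hF h9
  have hD := PT3.Final.fDENG s b P Q P' Q' F m κ (Fin.cons (-w0) (-c)) (-C) Φ hSys hs hF h9 hκ2
  let Gf : ℕ → (Fin s → Fin s → ZMod 3) := fun q =>
    if h : q.Coprime F ∧ q.Prime ∧ q % 3 = 2 then
      (Φ (ZMod.unitOfCoprime q h.1)).toAdd -
        Classical.choose (hDNB s b P Q P' Q' q h.2.1 h.2.2)
    else 0
  obtain ⟨G, hG⟩ := hPIG _ (1 / (24 * 3 ^ m)) (by positivity) hD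
    (Fin s → Fin s → ZMod 3) Gf
  refine ⟨_, n + F, hG, ?_⟩
  intro q₁ q₂ h1 h2 hp1 hp2 hne hM1 hM2
  obtain ⟨⟨hc1, hm1, hk1, hd1⟩, hG1⟩ := h1
  obtain ⟨⟨hc2, hm2, hk2, hd2⟩, hG2⟩ := h2
  rw [hκ1] at hk1 hk2
  have hw1 : wt ((q₁ : ℤ) ^ 2) = -w0 := by
    have h := congrFun hk1 0
    simpa using h
  have hw2 : wt ((q₂ : ℤ) ^ 2) = -w0 := by
    have h := congrFun hk2 0
    simpa using h
  have hs1 : ∀ i, sym (π i).1 (q₁ : Eis) = -c i := fun i => by
    have h := congrFun hk1 i.succ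
    simpa using h
  have hs2 : ∀ i, sym (π i).1 (q₂ : Eis) = -c i := fun i => by
    have h := congrFun hk2 i.succ
    simpa using h
  have hTwo : Two n π w0 c q₁ q₂ :=
    { p1 := hp1
      p2 := hp2
      ne := hne
      l1 := by omega
      l2 := by omega
      m1 := hm1
      m2 := hm2
      d1 := fun h => by
        have := Nat.le_of_dvd hn0 h
        omega
      d2 := fun h => by
        have := Nat.le_of_dvd hn0 h
        omega
      w := by rw [hw1, hw2, add_self3]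
      c := fun i => by rw [hs1, hs2, add_self3] }
  refine ⟨hTwo, ?_⟩
  have hg1 : (Φ (ZMod.unitOfCoprime q₁ hc1)).toAdd -
      Classical.choose (hDNB s b P Q P' Q' q₁ hp1 hm1) = G := by
    rw [← hG1]
    simp only [Gf]
    rw [dif_pos ⟨hc1, hp1, hm1⟩]
  have hg2 : (Φ (ZMod.unitOfCoprime q₂ hc2)).toAdd -
      Classical.choose (hDNB s b P Q P' Q' q₂ hp2 hm2) = G := by
    rw [← hG2]
    simp only [Gf]
    rw [dif_pos ⟨hc2, hp2, hm2⟩]
  have ht1 := Classical.choose_spec (hDNB s b P Q P' Q' q₁ hp1 hm1)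
  have ht2 := Classical.choose_spec (hDNB s b P Q P' Q' q₂ hp2 hm2)
  rw [hM q₁ q₂ hc1 hc2 hTwo _ _ ht1 ht2, hg1, hg2]
  apply det_alt
  have h := hd1 _ ht1
  rw [add_sub_assoc, hg1] at h
  exact h

end Pool.Agent.EGQ
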