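import Pool.Agent.EGQ.StmtsB

set_option autoImplicit false

open NumberField IsDedekindDomain Finset
open scoped nonZeroDivisors Pointwise

namespace Pool.Agent.EGQ

open Pool.Agent.Lib_helper18 Pool.Agent.Lib_helper18.Eis Pool.Agent.Lib_helper84.Cub
open Pool.Agent.PT Pool.Agent.PTE Pool.Agent.PT3 Pool.Agent.PTL Pool.Agent.PTN

theorem THK_thm : Stmt_THK := by
  rintro S M ⟨c, hc, h⟩
  refine ⟨c, hc, fun K => ?_⟩
  obtain ⟨σ, h1, h2, h3⟩ := h (K + 2 * ((Finset.range (M + 1)).card : ℝ))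
  refine ⟨σ, h1, h2, ?_⟩
  have h4 := BDENS.sm_add_le S ∅ {q : ℕ | q ∈ S ∧ M < q} (Finset.range (M + 1))
    (fun n _ hn hS => ⟨⟨hS, by
      rw [Finset.mem_range, not_lt] at hn
      omega⟩, fun h => h⟩)
    (fun n _ _ h => absurd h (Set.notMem_empty n)) h1
  have h5 : 0 ≤ BDENS.sm ∅ σ := by
    unfold BDENS.sm
    exact tsum_nonneg fun q => Real.rpow_nonneg (Nat.cast_nonneg _) _
  linarith

end Pool.Agent.EGQ
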