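import Pool.Agent.EGQ.StmtsB

/-!
# Effective generators (project EGQ): the upper bound for the rank
-/

set_option autoImplicit false
set_option maxHeartbeats 4000000

open NumberField IsDedekindDomain Finset
open scoped nonZeroDivisors Pointwise

namespace Pool.Agent.EGQ

open Pool.Agent.Lib_helper18 Pool.Agent.Lib_helper18.Eis Pool.Agent.Lib_helper84.Cub
open Pool.Agent.PT Pool.Agent.PTE Pool.Agent.PT3 Pool.Agent.PTL Pool.Agent.PTN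

namespace UPB

lemma exists_r {n m k : ℕ} {π : Fin m → PP} {p e : Fin m → ℕ} {r f : Fin k → ℕ}
    (hNF : NF n π p e r f) {l : ℕ} (hl : l.Prime) (hd : l ∣ n) (h2 : l % 3 = 2) :
    ∃ j, r j = l := by
  rw [hNF.eq, hl.dvd_mul] at hd
  rcases hd with hd | hd
  · obtain ⟨i, _, hi⟩ := (hl.prime.dvd_finsetProd_iff _).1 hd
    have h1 := (Nat.prime_dvd_prime_iff_eq hl (hNF.pp i)).1 (hl.dvd_of_dvd_pow hi)
    have := hNF.p1 i
    omega
  · obtain ⟨j, _, hj⟩ := (hl.prime.dvd_finsetProd_iff _).1 hd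
    have h1 := (Nat.prime_dvd_prime_iff_eq hl (hNF.rp j)).1 (hl.dvd_of_dvd_pow hj)
    exact ⟨j, h1.symm⟩

end UPB

theorem UPB_thm (hCLA : Stmt_CLA) (hDNC : Stmt_DNC) (hCRI : Stmt_CRI) (hTHK : Stmt_THK) :
    Stmt_UPB := by
  intro n hn
  obtain ⟨hn0, hcf, h3, hor⟩ := hn
  obtain ⟨h, n', m, k, π, p, e, r, f, hNF, _, hh, hN, _, hk⟩ :=
    Pool.Agent.PTN.Final.fNFE n hn0 hcf
  have hh0 : h = 0 := by
    rw [hh]
    exact Nat.factorization_eq_zero_of_not_dvd h3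
  rw [hh0, pow_zero, one_mul] at hN
  rw [← hN] at hNF
  have hcond : Even k ∨ ∃ j, r j % 9 = 2 ∨ r j % 9 = 5 := by
    rcases hor with ho | ⟨l, hl, hd, h9⟩
    · exact Or.inl (by rw [hk]; exact ho)
    · obtain ⟨j, hj⟩ := UPB.exists_r hNF hl hd (by omega)
      exact Or.inr ⟨j, by rw [hj]; exact h9⟩
  obtain ⟨w0, c, hv, hs⟩ := hCLA n m k π p e r f hNF hcond
  obtain ⟨s, τ, b, X, Y, hs', a1, a2, a3, a4, a5, a6⟩ :=
    Pool.Agent.PTN.Final.fNBAS 0 n m k π p e r f w0 c hNF (by omega)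
  have hBas : Bas n π w0 c τ b X Y := ⟨a1, a2, a3, a4, a5, a6⟩
  obtain ⟨P, Q, P', Q', hSys, hSw⟩ := Pool.Agent.PT3.Final.fESYT 0 n m k π p e r f w0 c s b hNF
    (fun i => (a1 i).1) a2 a3 a4
  obtain ⟨S, M, hT, hS⟩ := hDNC n m k π p e r f w0 c s τ b X Y P Q P' Q' hNF
    (by rw [hs']; exact hs) hBas hSys hSw
  refine ⟨{q : ℕ | q ∈ S ∧ M < q}, hTHK S M hT, ?_⟩
  intro q₁ q₂ h1 h2 p1 p2 hne
  obtain ⟨hTwo, hdet⟩ := hS q₁ q₂ h1.1 h2.1 p1 p2 hne h1.2 h2.2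
  exact ⟨hTwo.m1, hTwo.m2, hCRI n m k π p e r f w0 c q₁ q₂ s τ b X Y P Q P' Q' hNF hv hs' hBas
    hSys hSw hTwo hdet⟩

end Pool.Agent.EGQ
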