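import Pool.Agent.EGQ.FINC
import Pool.Agent.EGQ.DNC
import Pool.Agent.EGQ.UPB
import Pool.Agent.EGQ.THK
import Pool.Agent.PTBM.Sets

/-!
# Effective generators (project EGQ): the set of primes and the set of the numbers `A` are primitive
recursive
-/

set_option autoImplicit false
set_option maxHeartbeats 4000000

open NumberField IsDedekindDomain Finset
open scoped nonZeroDivisors Pointwise

namespace Pool.Agent.EGQ

open Pool.Agent.Lib_helper18 Pool.Agent.Lib_helper18.Eis Pool.Agent.Lib_helper84.Cub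
open Pool.Agent.PT Pool.Agent.PTE Pool.Agent.PT3 Pool.Agent.PTL Pool.Agent.PTN
open Pool.Agent.PTB.PRM

namespace DecA

theorem alt_congr {s : ℕ} {A B : Fin s → Fin s → ZMod 3} (h : ∀ j i, j ≠ i → A j i = B j i) :
    alt A = alt B := by
  ext j i
  unfold alt
  split_ifs with h1 h2
  · exact h j i h1.ne
  · rw [h i j h2.ne]
  · rfl

/-- the matrix of the symbols is unique outside the diagonal -/
theorem tau_unique {s : ℕ} {b : Fin s → ℤ} {p q p' q' : Fin s → Fin s → ℤ} {Q : ℕ} (hQ : Q.Prime)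
    (h2 : Q % 3 = 2) {τ τ' : Fin s → Fin s → ZMod 3} (hτ : IsTau b p q p' q' Q τ)
    (hτ' : IsTau b p q p' q' Q τ') : ∀ j i, j ≠ i → τ j i = τ' j i := by
  intro j i hji
  obtain ⟨r, hr⟩ := BFINA.exists_root hQ h2 (b j)
  rw [hτ j i hji r hr, hτ' j i hji r hr]

/-- thick sets and inclusions -/
theorem thick_mono {S T : Set ℕ} (hS : Thick S) (h : ∀ q : ℕ, q.Prime → q ∈ S → q ∈ T) :
    Thick T := by
  obtain ⟨c, hc, h1⟩ := hS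
  obtain ⟨K', hK'⟩ := CLU.sm_le S T 0 fun q hq _ hqS => h q hq hqS
  refine ⟨c, hc, fun K => ?_⟩
  obtain ⟨σ, h2, h3, h4⟩ := h1 (K + K')
  exact ⟨σ, h2, h3, by
    have := hK' σ h2
    linarith⟩

end DecA

open DecA DNC in
/-- DNC with a primitive recursive set of primes. -/
theorem DNC_dec (hPIG : Stmt_PIG) (hDNA : Stmt_DNA) (hDNB : Stmt_DNB) :
    ∀ (n m k : ℕ) (π : Fin m → PP) (p e : Fin m → ℕ) (r f : Fin k → ℕ)
      (w0 : ZMod 3) (c : Fin m → ZMod 3) (s : ℕ) (τ : Fin s → Fin 3) (b X Y : Fin s → ℤ)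
      (P Q P' Q' : Fin s → Fin s → ℤ),
      NF n π p e r f → Even s → Bas n π w0 c τ b X Y → SysG b P Q P' Q' → SwS P Q P' Q' →
      ∃ (S : Set ℕ) (M : ℕ), DecP S ∧ Thick S ∧ ∀ q₁ q₂ : ℕ, q₁ ∈ S → q₂ ∈ S → q₁.Prime →
        q₂.Prime → q₁ ≠ q₂ → M < q₁ → M < q₂ →
        Two n π w0 c q₁ q₂ ∧ (MaT b X Y P Q P' Q' ((n : ℤ) * q₁ * q₂)).det ≠ 0 := by
  classical
  intro n m k π p e r f w0 c s τ b X Y P Q P' Q' hNF hs hBas hSys hSw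
  have hn0 : 0 < n := PT.FINA.pos_of_nf hNF
  obtain ⟨F, hF, h9, hpF, C, Φ, hM⟩ :=
    hDNA n m k π p e r f w0 c s τ b X Y P Q P' Q' hNF hBas hSys hSw
  obtain ⟨κ, hκ1, hκ2⟩ :=
    PT.Final.fCLSC m π p hNF.pp hNF.p1 hNF.pπ hNF.pinj F hF h9 hpF
  have hF9 : 9 ≤ F := Nat.le_of_dvd hF h9
  have hD := PT3.Final.fDENG s b P Q P' Q' F m κ (Fin.cons (-w0) (-c)) (-C) Φ hSys hs hF h9 hκ2
  let Gf : ℕ → (Fin s → Fin s → ZMod 3) := fun q =>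
    if h : q.Coprime F ∧ q.Prime ∧ q % 3 = 2 then
      (Φ (ZMod.unitOfCoprime q h.1)).toAdd -
        Classical.choose (hDNB s b P Q P' Q' q h.2.1 h.2.2)
    else 0
  obtain ⟨G, hG⟩ := hPIG _ (1 / (24 * 3 ^ m)) (by positivity) hD
    (Fin s → Fin s → ZMod 3) Gf
  refine ⟨{q : ℕ | ∃ hQ : q.Coprime F, q % 3 = 2 ∧
    (κ (ZMod.unitOfCoprime q hQ)).toAdd = Fin.cons (-w0) (-c) ∧
      ∀ τ : Fin s → Fin s → ZMod 3,
        (∀ j i, j ≠ i → ∀ r : ℤ, (q : ℤ) ∣ r ^ 3 - b j →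
          τ j i = TAUV q (P j i) (Q j i) (P' j i) (Q' j i) r) →
        (∀ j i, j ≠ i → ((Φ (ZMod.unitOfCoprime q hQ)).toAdd - τ) j i = G j i) ∧
          (alt (-C + (Φ (ZMod.unitOfCoprime q hQ)).toAdd - τ)).det ≠ 0}, n + F,
    DecP.of (g2_prim hF b P Q P' Q' (fun u => (κ u).toAdd = Fin.cons (-w0) (-c))
      fun u τ => (∀ j i, j ≠ i → ((Φ u).toAdd - τ) j i = G j i) ∧
        (alt (-C + (Φ u).toAdd - τ)).det ≠ 0), thick_mono hG ?_, ?_⟩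
  · rintro q hq ⟨⟨hc1, hm1, hk1, hd1⟩, hG1⟩
    refine ⟨hc1, hm1, hk1, fun τ' hτ' => ⟨fun j i hji => ?_, hd1 τ' hτ'⟩⟩
    have hg1 : (Φ (ZMod.unitOfCoprime q hc1)).toAdd -
        Classical.choose (hDNB s b P Q P' Q' q hq hm1) = G := by
      rw [← hG1]
      simp only [Gf]
      rw [dif_pos ⟨hc1, hq, hm1⟩]
    have ht1 := Classical.choose_spec (hDNB s b P Q P' Q' q hq hm1)
    rw [← hg1, Pi.sub_apply, Pi.sub_apply, Pi.sub_apply, Pi.sub_apply,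
      tau_unique hq hm1 hτ' ht1 j i hji]
  intro q₁ q₂ h1 h2 hp1 hp2 hne hM1 hM2
  obtain ⟨hc1, hm1, hk1, hd1⟩ := h1
  obtain ⟨hc2, hm2, hk2, hd2⟩ := h2
  rw [hκ1] at hk1 hk2
  have hw1 : wt ((q₁ : ℤ) ^ 2) = -w0 := by
    have h := congrFun hk1 0
    simpa using h
  have hw2 : wt ((q₂ : ℤ) ^ 2) = -w0 := by
    have h := congrFun hk2 0
    simpa using h
  have hs1 : ∀ i, sym (π i).1 (q₁ : Eis) = -c i := fun i => by
    have h := congrFun hk1 i.succ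
    simpa using h
  have hs2 : ∀ i, sym (π i).1 (q₂ : Eis) = -c i := fun i => by
    have h := congrFun hk2 i.succ
    simpa using h
  have hTwo : Two n π w0 c q₁ q₂ :=
    { p1 := hp1
      p2 := hp2
      ne := hne
      l1 := by omega
      l2 := by omega
      m1 := hm1
      m2 := hm2
      d1 := fun h => by
        have := Nat.le_of_dvd hn0 h
        omega
      d2 := fun h => by
        have := Nat.le_of_dvd hn0 h
        omega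
      w := by rw [hw1, hw2, add_self3]
      c := fun i => by rw [hs1, hs2, add_self3] }
  refine ⟨hTwo, ?_⟩
  obtain ⟨τ₁, ht1⟩ := hDNB s b P Q P' Q' q₁ hp1 hm1
  obtain ⟨τ₂, ht2⟩ := hDNB s b P Q P' Q' q₂ hp2 hm2
  obtain ⟨g1, e1⟩ := hd1 τ₁ ht1
  obtain ⟨g2, -⟩ := hd2 τ₂ ht2
  rw [hM q₁ q₂ hc1 hc2 hTwo τ₁ τ₂ ht1 ht2]
  have e2 : alt (C + ((Φ (ZMod.unitOfCoprime q₁ hc1)).toAdd - τ₁) +
      ((Φ (ZMod.unitOfCoprime q₂ hc2)).toAdd - τ₂)) = alt (C + G + G) := by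
    apply alt_congr
    intro j i hji
    simp only [Pi.add_apply]
    rw [g1 j i hji, g2 j i hji]
  rw [e2]
  apply det_alt
  have e3 : alt (-C + (Φ (ZMod.unitOfCoprime q₁ hc1)).toAdd - τ₁) = alt (-C + G) := by
    rw [add_sub_assoc]
    apply alt_congr
    intro j i hji
    rw [Pi.add_apply, Pi.add_apply, Pi.add_apply, Pi.add_apply, g1 j i hji]
  rw [← e3]
  exact e1

/-- UPB with a primitive recursive set of primes. -/
theorem UPB_dec (hCLA : Stmt_CLA) (hPIG : Stmt_PIG) (hDNA : Stmt_DNA) (hDNB : Stmt_DNB)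
    (hCRI : Stmt_CRI) (hTHK : Stmt_THK) :
    ∀ n : ℕ, Good n → ∃ S : Set ℕ, DecP S ∧ Thick S ∧ ∀ q₁ q₂ : ℕ, q₁ ∈ S → q₂ ∈ S →
      q₁.Prime → q₂.Prime → q₁ ≠ q₂ →
      q₁ % 3 = 2 ∧ q₂ % 3 = 2 ∧ CubeRank.GenBy ((n : ℤ) * q₁ * q₂) 1 := by
  intro n hn
  obtain ⟨hn0, hcf, h3, hor⟩ := hn
  obtain ⟨h, n', m, k, π, p, e, r, f, hNF, _, hh, hN, _, hk⟩ :=
    Pool.Agent.PTN.Final.fNFE n hn0 hcf
  have hh0 : h = 0 := by
    rw [hh]
    exact Nat.factorization_eq_zero_of_not_dvd h3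
  rw [hh0, pow_zero, one_mul] at hN
  rw [← hN] at hNF
  have hcond : Even k ∨ ∃ j, r j % 9 = 2 ∨ r j % 9 = 5 := by
    rcases hor with ho | ⟨l, hl, hd, h9⟩
    · exact Or.inl (by rw [hk]; exact ho)
    · obtain ⟨j, hj⟩ := UPB.exists_r hNF hl hd (by omega)
      exact Or.inr ⟨j, by rw [hj]; exact h9⟩
  obtain ⟨w0, c, hv, hs⟩ := hCLA n m k π p e r f hNF hcond
  obtain ⟨s, τ, b, X, Y, hs', a1, a2, a3, a4, a5, a6⟩ :=
    Pool.Agent.PTN.Final.fNBAS 0 n m k π p e r f w0 c hNF (by omega)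
  have hBas : Bas n π w0 c τ b X Y := ⟨a1, a2, a3, a4, a5, a6⟩
  obtain ⟨P, Q, P', Q', hSys, hSw⟩ := Pool.Agent.PT3.Final.fESYT 0 n m k π p e r f w0 c s b hNF
    (fun i => (a1 i).1) a2 a3 a4
  obtain ⟨S, M, hSd, hT, hS⟩ := DNC_dec hPIG hDNA hDNB n m k π p e r f w0 c s τ b X Y P Q P' Q'
    hNF (by rw [hs']; exact hs) hBas hSys hSw
  refine ⟨{q : ℕ | q ∈ S ∧ M < q}, hSd.inter (B := {q : ℕ | M < q})
    (DecP.of (Primrec.nat_lt.comp (Primrec.const M) Primrec.id)), hTHK S M hT, ?_⟩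
  intro q₁ q₂ h1 h2 p1 p2 hne
  obtain ⟨hTwo, hdet⟩ := hS q₁ q₂ h1.1 h2.1 p1 p2 hne h1.2 h2.2
  exact ⟨hTwo.m1, hTwo.m2, hCRI n m k π p e r f w0 c q₁ q₂ s τ b X Y P Q P' Q' hNF hv hs' hBas
    hSys hSw hTwo hdet⟩

/-- The theorem in counting form, with a primitive recursive set of numbers `A`. -/
def Stmt_FIND : Prop := ∀ n M : ℕ, Good n → 0 < M → ∃ 𝒜 : Set ℕ, PrimrecPred (fun A => A ∈ 𝒜) ∧
  (∀ A ∈ 𝒜, ∃ p q t : ℕ, p.Prime ∧ q.Prime ∧ n < p ∧ p % 3 = 2 ∧ q % 3 = 2 ∧ 0 < t ∧ M ∣ t ∧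
      q = p + n * t ^ 3 ∧ A = n * p * q ∧ CubeRank.rr (A : ℤ) = 1 ∧
      ∃ h : (CubeRank.EA (A : ℤ)).toAffine.Nonsingular (px p q t) (py p q t),
        ∀ R : CubeRank.GA (A : ℤ), ∃! m : ℤ,
          R = m • (WeierstrassCurve.Affine.Point.some _ _ h : CubeRank.GA (A : ℤ))) ∧
  ∃ c : ℝ, 0 < c ∧ ∀ x₀ : ℕ, ∃ x : ℕ, x₀ ≤ x ∧
    c * ((x : ℝ) ^ (2 / 3 : ℝ) / Real.log x ^ 2) ≤ ({A : ℕ | A ∈ 𝒜 ∧ A ≤ x}.ncard : ℝ)

namespace DecA

/-- the predicate of the numbers `A` -/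
theorem setA_prim {σ : ℕ → Prop} (hσ : PrimrecPred σ) (n M Q₀ : ℕ) :
    PrimrecPred fun A : ℕ => ∃ p < A + 1, ∃ q < A + 1, ∃ t < A + 1,
      (p.Prime ∧ σ p) ∧ (q.Prime ∧ σ q) ∧ n < p ∧ Q₀ < p ∧ 0 < t ∧ t % M = 0 ∧
        q = p + n * (t * t * t) ∧ A = n * p * q := by
  have a1 : Primrec fun x : ((ℕ × ℕ) × ℕ) × ℕ => x.1.1.1 :=
    Primrec.fst.comp (Primrec.fst.comp Primrec.fst)
  have a2 : Primrec fun x : ((ℕ × ℕ) × ℕ) × ℕ => x.1.1.2 :=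
    Primrec.snd.comp (Primrec.fst.comp Primrec.fst)
  have a3 : Primrec fun x : ((ℕ × ℕ) × ℕ) × ℕ => x.1.2 := Primrec.snd.comp Primrec.fst
  have a4 : Primrec fun x : ((ℕ × ℕ) × ℕ) × ℕ => x.2 := Primrec.snd
  refine pp_exists_lt Primrec.succ (pp_exists_lt (Primrec.succ.comp Primrec.fst)
    (pp_exists_lt (Primrec.succ.comp (Primrec.fst.comp Primrec.fst)) ?_))
  have hps : PrimrecPred fun q : ℕ => q.Prime ∧ σ q := pp_prime.and hσ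
  refine (hps.comp a2).and ((hps.comp a3).and ((Primrec.nat_lt.comp (Primrec.const n) a2).and
    ((Primrec.nat_lt.comp (Primrec.const Q₀) a2).and ((Primrec.nat_lt.comp (Primrec.const 0) a4).and
    ((Primrec.eq.comp (Primrec.nat_mod.comp a4 (Primrec.const M)) (Primrec.const 0)).and
    ((Primrec.eq.comp a3 ?_).and (Primrec.eq.comp a1 ?_)))))))
  · exact Primrec.nat_add.comp a2 (Primrec.nat_mul.comp (Primrec.const n)
      (Primrec.nat_mul.comp (Primrec.nat_mul.comp a4 a4) a4))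
  · exact Primrec.nat_mul.comp (Primrec.nat_mul.comp (Primrec.const n) a2) a3

end DecA

open DecA in
theorem FIND_thm (hUPB : ∀ n : ℕ, Good n → ∃ S : Set ℕ, DecP S ∧ Thick S ∧ ∀ q₁ q₂ : ℕ,
      q₁ ∈ S → q₂ ∈ S → q₁.Prime → q₂.Prime → q₁ ≠ q₂ →
      q₁ % 3 = 2 ∧ q₂ % 3 = 2 ∧ CubeRank.GenBy ((n : ℤ) * q₁ * q₂) 1)
    (hCNT : CDP.CountStatement) (hHT : Stmt_HT) : Stmt_FIND := by
  intro n M hn hM
  obtain ⟨hn0, hcf, h3, -⟩ := id hn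
  obtain ⟨S, ⟨σ, hσ, hσS⟩, hT, hS⟩ := hUPB n hn
  obtain ⟨Q₀, hQ⟩ := hHT n hn0 hcf h3
  obtain ⟨c, hc, hF⟩ := hCNT S hT n M hn0 hM
  refine ⟨{A : ℕ | ∃ p < A + 1, ∃ q < A + 1, ∃ t < A + 1,
      (p.Prime ∧ σ p) ∧ (q.Prime ∧ σ q) ∧ n < p ∧ Q₀ < p ∧ 0 < t ∧ t % M = 0 ∧
        q = p + n * (t * t * t) ∧ A = n * p * q}, setA_prim hσ n M Q₀, ?_, ?_⟩
  · rintro A ⟨p, -, q, -, t, -, ⟨hp, hpσ⟩, ⟨hq, hqσ⟩, hnp, hQp, ht, hMt, hpq, rfl⟩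
    have hpq' : q = p + n * t ^ 3 := by
      rw [hpq]
      ring
    have hne : p ≠ q := by
      have : 0 < n * t ^ 3 := by positivity
      omega
    obtain ⟨hp3, hq3, hgen⟩ := hS p q ((hσS p hp).2 hpσ) ((hσS q hq).2 hqσ) hp hq hne
    obtain ⟨hr, h, hu⟩ := FINC.one hp ht hpq' hgen
      (fun h R m hm => hQ p q t hp hq hp3 hq3 ht hpq' hQp.le h R m hm)
    exact ⟨p, q, t, hp, hq, hnp, hp3, hq3, ht, Nat.dvd_of_mod_eq_zero hMt, hpq', rfl, hr, h, hu⟩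
  refine ⟨c / (n : ℝ) ^ (2 / 3 : ℝ), div_pos hc (Real.rpow_pos_of_pos (by exact_mod_cast hn0) _),
    fun x₀ => ?_⟩
  obtain ⟨N, hN', F, hFc, hFx⟩ := hF (max (max (max x₀ Q₀) 2) n)
  have hN : max (max x₀ Q₀) 2 ≤ N := le_trans (le_max_left _ _) hN'
  have hN2 : 2 ≤ N := le_trans (le_max_right _ _) hN
  have hNx : x₀ ≤ N := le_trans (le_trans (le_max_left _ _) (le_max_left _ _)) hN
  have hlt : ∀ x ∈ F, x.1 < x.2 := by
    intro x hx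
    obtain ⟨-, -, -, -, -, -, t, ht, -, hpq⟩ := hFx x hx
    have : 0 < n * t ^ 3 := by positivity
    omega
  have hinj : Set.InjOn (fun x : ℕ × ℕ => n * x.1 * x.2) (F : Set (ℕ × ℕ)) := by
    intro x hx y hy he
    have hx' := hFx x hx
    have hy' := hFx y hy
    have he' : x.1 * x.2 = y.1 * y.2 := by
      have he'' : n * x.1 * x.2 = n * y.1 * y.2 := he
      rw [mul_assoc, mul_assoc] at he''
      exact Nat.eq_of_mul_eq_mul_left hn0 he''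
    obtain ⟨h1, h2⟩ := FINC.pair_inj hx'.1 hy'.1 hy'.2.1 (hlt x hx) (hlt y hy) he'
    exact Prod.ext h1 h2
  refine ⟨n * N ^ 2, ?_, ?_⟩
  · calc x₀ ≤ N := hNx
      _ = 1 * N := (one_mul N).symm
      _ ≤ n * N ^ 2 := Nat.mul_le_mul hn0 (Nat.le_self_pow (by norm_num) N)
  have h4 : ((F.image (fun x : ℕ × ℕ => n * x.1 * x.2)).card : ℝ) ≤
      ({A : ℕ | A ∈ {A : ℕ | ∃ p < A + 1, ∃ q < A + 1, ∃ t < A + 1,
      (p.Prime ∧ σ p) ∧ (q.Prime ∧ σ q) ∧ n < p ∧ Q₀ < p ∧ 0 < t ∧ t % M = 0 ∧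
        q = p + n * (t * t * t) ∧ A = n * p * q} ∧ A ≤ n * N ^ 2}.ncard : ℝ) := by
    rw [← Set.ncard_coe_finset]
    refine Nat.cast_le.2 (Set.ncard_le_ncard ?_ ((Set.finite_Iic (n * N ^ 2)).subset
      fun A hA => hA.2))
    intro A hA
    obtain ⟨x, hx, rfl⟩ := Finset.mem_image.1 (Finset.mem_coe.1 hA)
    obtain ⟨hp, hq, hpS, hqS, hN0, hqN, t, ht, hMt, hpq⟩ := hFx x hx
    have hl := hlt x hx
    have hQp : Q₀ < x.1 := lt_of_le_of_lt (le_trans (le_trans (le_trans (le_max_right x₀ Q₀)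
      (le_max_left _ 2)) (le_max_left _ n)) le_rfl) hN0
    have hnp : n < x.1 := lt_of_le_of_lt (le_max_right _ n) hN0
    have hx1 : 0 < x.1 := hp.pos
    have hx2 : 0 < x.2 := hq.pos
    have b1 : x.1 ≤ n * x.1 * x.2 := by
      calc x.1 = 1 * x.1 * 1 := by ring
        _ ≤ n * x.1 * x.2 := Nat.mul_le_mul (Nat.mul_le_mul_right _ hn0) hx2
    have b2 : x.2 ≤ n * x.1 * x.2 := by
      calc x.2 = 1 * 1 * x.2 := by ring
        _ ≤ n * x.1 * x.2 := Nat.mul_le_mul_right _ (Nat.mul_le_mul hn0 hx1)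
    have b3 : t ≤ x.2 := by
      have c1 : t ≤ t ^ 3 := Nat.le_self_pow (by norm_num) t
      have c2 : t ^ 3 ≤ n * t ^ 3 := Nat.le_mul_of_pos_left _ hn0
      omega
    refine ⟨⟨x.1, Nat.lt_succ_of_le b1, x.2, Nat.lt_succ_of_le b2, t,
      Nat.lt_succ_of_le (b3.trans b2), ⟨hp, (hσS _ hp).1 hpS⟩, ⟨hq, (hσS _ hq).1 hqS⟩, hnp, hQp,
      ht, Nat.mod_eq_zero_of_dvd hMt, ?_, rfl⟩, ?_⟩
    · rw [hpq]
      ring
    · show n * x.1 * x.2 ≤ n * N ^ 2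
      calc n * x.1 * x.2 ≤ n * N * N := Nat.mul_le_mul (Nat.mul_le_mul le_rfl (hl.le.trans hqN)) hqN
        _ = n * N ^ 2 := by ring
  refine le_trans ?_ h4
  rw [Finset.card_image_of_injOn hinj]
  exact le_trans (FINC.scale hn0 hN2 hc) hFc

end Pool.Agent.EGQ
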