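import Pool.Agent.EGQ.StmtsB

/-!
# Effective generators (project EGQ): the theorem
-/

set_option autoImplicit false

namespace Pool.Agent.EGQ

namespace FIN

lemma point_ns (n p q t : ℕ) (hp : 0 < p) (ht : 0 < t)
    (h : q = p + n * t ^ 3) :
    (CubeRank.EA ((n : ℤ) * p * q)).toAffine.Nonsingular (px p q t) (py p q t) := by
  have ht' : (t : ℚ) ≠ 0 := by exact_mod_cast ht.ne'
  have hq' : (q : ℚ) = p + n * t ^ 3 := by exact_mod_cast h
  have hx : px p q t ≠ 0 := by
    unfold px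
    have h1 : (0 : ℚ) < (p : ℚ) ^ 2 - p * q + q ^ 2 := by
      have hp' : (0 : ℚ) < p := by exact_mod_cast hp
      nlinarith [sq_nonneg ((p : ℚ) - q), sq_nonneg ((p : ℚ) + q), sq_nonneg ((p : ℚ) - 2 * q)]
    positivity
  rw [WeierstrassCurve.Affine.nonsingular_iff]
  constructor
  · rw [WeierstrassCurve.Affine.equation_iff]
    simp only [CubeRank.EA]
    unfold px py
    push_cast
    rw [hq']
    field_simp
    ring
  · left
    simp only [CubeRank.EA]
    simp only [zero_mul, mul_zero, add_zero]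
    intro h0
    have : (0 : ℚ) = 3 * px p q t ^ 2 := by simpa using h0
    have h2 : px p q t ^ 2 = 0 := by linarith
    exact hx (pow_eq_zero_iff (two_ne_zero) |>.1 h2)

lemma gen_one {A : ℤ} (h : CubeRank.GenBy A 1) :
    ∃ G : CubeRank.GA A, ∀ R : CubeRank.GA A, ∃ m : ℤ, m • G = R := by
  obtain ⟨s, hs, hc⟩ := h
  rcases Nat.le_one_iff_eq_zero_or_eq_one.1 hs with h0 | h1
  · rw [Finset.card_eq_zero] at h0
    subst h0
    refine ⟨0, fun R => ⟨0, ?_⟩⟩
    have h2 : R ∈ (⊤ : AddSubgroup (CubeRank.GA A)) := trivial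
    rw [← hc, Finset.coe_empty, AddSubgroup.closure_empty, AddSubgroup.mem_bot] at h2
    rw [h2, zsmul_zero]
  · obtain ⟨G, hG⟩ := Finset.card_eq_one.1 h1
    refine ⟨G, fun R => ?_⟩
    have h2 : R ∈ (⊤ : AddSubgroup (CubeRank.GA A)) := trivial
    rw [← hc, hG, Finset.coe_singleton, AddSubgroup.mem_closure_singleton] at h2
    exact h2

lemma gen_zero {A : ℤ} (h : CubeRank.GenBy A 0) (R : CubeRank.GA A) : R = 0 := by
  obtain ⟨s, hs, hc⟩ := h
  have h0 : s = ∅ := Finset.card_eq_zero.1 (Nat.le_zero.1 hs)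
  subst h0
  have h2 : R ∈ (⊤ : AddSubgroup (CubeRank.GA A)) := trivial
  rwa [← hc, Finset.coe_empty, AddSubgroup.closure_empty, AddSubgroup.mem_bot] at h2

/-- abstract form: a cyclic group and an element that is not a proper multiple -/
lemma main {A : ℤ} (hG : CubeRank.GenBy A 1) (P : CubeRank.GA A)
    (hP : ∀ (R : CubeRank.GA A) (m : ℤ), m • R = P → m = 1 ∨ m = -1) :
    CubeRank.rr A = 1 ∧ ∀ R : CubeRank.GA A, ∃! m : ℤ, R = m • P := by
  constructor
  · have h1 := CubeRank.rr_le hG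
    rcases Nat.le_one_iff_eq_zero_or_eq_one.1 h1 with h0 | h0
    · exfalso
      have h2 := CubeRank.gen_rr hG
      rw [h0] at h2
      have h3 := hP P 2 (by rw [gen_zero h2 P]; exact zsmul_zero 2)
      omega
    · exact h0
  · obtain ⟨G, hG'⟩ := gen_one hG
    intro R
    obtain ⟨k, hk⟩ := hG' R
    obtain ⟨m, hm⟩ := hG' P
    have h1 := hP G m hm
    have h2 : m • P = G := by
      rw [← hm, smul_smul]
      rcases h1 with rfl | rfl <;> simp
    refine ⟨k * m, ?_, ?_⟩
    · show R = (k * m) • P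
      rw [mul_smul, h2, hk]
    · intro k' hk'
      have hk'' : R = k' • P := hk'
      have h3 : R = (k * m) • P := by rw [mul_smul, h2, hk]
      set d := k' - k * m with hd
      have h4 : d • P = 0 := by
        rw [hd, sub_smul, ← hk'', ← h3, sub_self]
      have h5 := hP P (1 + d) (by rw [add_zsmul, one_zsmul, h4, add_zero])
      have h6 := hP P (1 - d) (by rw [sub_zsmul, one_zsmul, h4, neg_zero, add_zero])
      omega

end FIN

theorem FIN_thm (hUPB : Stmt_UPB) (hCDP : Stmt_CDP) (hHT : Stmt_HT) : Stmt_FIN := by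
  intro n N hn
  obtain ⟨hn0, hcf, h3, -⟩ := id hn
  obtain ⟨S, hT, hS⟩ := hUPB n hn
  obtain ⟨Q₀, hQ⟩ := hHT n hn0 hcf h3
  obtain ⟨p, q, t, hp, hq, hpS, hqS, ht, hpq, hN⟩ := hCDP S hT n (max N Q₀) hn0
  have hne : p ≠ q := by
    have : 0 < n * t ^ 3 := by positivity
    omega
  obtain ⟨hp3, hq3, hgen⟩ := hS p q hpS hqS hp hq hne
  have hns := FIN.point_ns n p q t hp.pos ht hpq
  obtain ⟨hr, hu⟩ := FIN.main hgen
    (WeierstrassCurve.Affine.Point.some _ _ hns : CubeRank.GA ((n : ℤ) * p * q))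
    (fun R m hm => hQ p q t hp hq hp3 hq3 ht hpq
      (le_trans (le_max_right N Q₀) hN.le) hns R m hm)
  exact ⟨p, q, t, lt_of_le_of_lt (le_max_left N Q₀) hN, hp, hq, ht, hpq, hp3, hq3, hr, hns, hu⟩

end Pool.Agent.EGQ
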