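import Pool.Agent.EGQ.FIN
import Pool.Agent.CDP.StmtsC

/-!
# Effective generators (project EGQ): the theorem in counting form
-/

set_option autoImplicit false

namespace Pool.Agent.EGQ

/-- The theorem in counting form. -/
def Stmt_FINC : Prop := ∀ n M : ℕ, Good n → 0 < M → ∃ c : ℝ, 0 < c ∧ ∀ x₀ : ℕ, ∃ x : ℕ, x₀ ≤ x ∧
  ∃ 𝒜 : Finset ℕ, c * ((x : ℝ) ^ (2 / 3 : ℝ) / Real.log x ^ 2) ≤ (𝒜.card : ℝ) ∧
    ∀ A ∈ 𝒜, A ≤ x ∧ ∃ p q t : ℕ, p.Prime ∧ q.Prime ∧ n < p ∧ p % 3 = 2 ∧ q % 3 = 2 ∧ 0 < t ∧ M ∣ t ∧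
      q = p + n * t ^ 3 ∧ A = n * p * q ∧ CubeRank.rr (A : ℤ) = 1 ∧
      ∃ h : (CubeRank.EA (A : ℤ)).toAffine.Nonsingular (px p q t) (py p q t),
        ∀ R : CubeRank.GA (A : ℤ), ∃! m : ℤ,
          R = m • (WeierstrassCurve.Affine.Point.some _ _ h : CubeRank.GA (A : ℤ))

namespace FINC

/-- pairs of primes are determined by their product -/
lemma pair_inj {p q p' q' : ℕ} (hp : p.Prime) (hp' : p'.Prime) (hq' : q'.Prime)
    (h : p < q) (h' : p' < q') (he : p * q = p' * q') : p = p' ∧ q = q' := by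
  have h1 : p ∣ p' * q' := he ▸ Dvd.intro _ rfl
  rcases (Nat.Prime.dvd_mul hp).1 h1 with h2 | h2
  · have h3 := (Nat.prime_dvd_prime_iff_eq hp hp').1 h2
    subst h3
    exact ⟨rfl, Nat.eq_of_mul_eq_mul_left hp.pos he⟩
  · have h3 := (Nat.prime_dvd_prime_iff_eq hp hq').1 h2
    subst h3
    have h4 : q = p' := by
      have : p * q = p * p' := by rw [he, mul_comm]
      exact Nat.eq_of_mul_eq_mul_left hp.pos this
    omega

/-- the conclusion for one pair -/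
lemma one {n p q t : ℕ} (hp : p.Prime) (ht : 0 < t) (hpq : q = p + n * t ^ 3)
    (hgen : CubeRank.GenBy ((n : ℤ) * p * q) 1)
    (hH : ∀ (h : (CubeRank.EA ((n : ℤ) * p * q)).toAffine.Nonsingular (px p q t) (py p q t))
      (R : CubeRank.GA ((n : ℤ) * p * q)) (m : ℤ),
      m • R = (WeierstrassCurve.Affine.Point.some _ _ h : CubeRank.GA ((n : ℤ) * p * q)) → m = 1 ∨ m = -1) :
    CubeRank.rr (((n * p * q : ℕ)) : ℤ) = 1 ∧
      ∃ h : (CubeRank.EA (((n * p * q : ℕ)) : ℤ)).toAffine.Nonsingular (px p q t) (py p q t),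
        ∀ R : CubeRank.GA (((n * p * q : ℕ)) : ℤ), ∃! m : ℤ,
          R = m • (WeierstrassCurve.Affine.Point.some _ _ h : CubeRank.GA (((n * p * q : ℕ)) : ℤ)) := by
  have hA : (((n * p * q : ℕ)) : ℤ) = (n : ℤ) * p * q := by push_cast; ring
  rw [hA]
  have hns := FIN.point_ns n p q t hp.pos ht hpq
  obtain ⟨hr, hu⟩ := FIN.main hgen
    (WeierstrassCurve.Affine.Point.some _ _ hns : CubeRank.GA ((n : ℤ) * p * q))
    (fun R m hm => hH hns R m hm)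
  exact ⟨hr, hns, hu⟩

/-- from the pairs to the numbers `A` -/
lemma scale {n N : ℕ} (hn : 0 < n) (hN : 2 ≤ N) {c : ℝ} (hc : 0 < c) :
    c / (n : ℝ) ^ (2 / 3 : ℝ) * (((n * N ^ 2 : ℕ) : ℝ) ^ (2 / 3 : ℝ) / Real.log ((n * N ^ 2 : ℕ) : ℝ) ^ 2) ≤
      c * ((N : ℝ) ^ (4 / 3 : ℝ) / Real.log N ^ 2) := by
  have hn' : (1 : ℝ) ≤ n := by exact_mod_cast hn
  have hN' : (2 : ℝ) ≤ N := by exact_mod_cast hN
  have hN0 : (0 : ℝ) < N := by linarith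
  have hn0 : (0 : ℝ) < n := by linarith
  have hcast : ((n * N ^ 2 : ℕ) : ℝ) = (n : ℝ) * (N : ℝ) ^ 2 := by push_cast; ring
  rw [hcast]
  have h1 : ((n : ℝ) * (N : ℝ) ^ 2) ^ (2 / 3 : ℝ) = (n : ℝ) ^ (2 / 3 : ℝ) * (N : ℝ) ^ (4 / 3 : ℝ) := by
    rw [Real.mul_rpow hn0.le (by positivity)]
    congr 1
    rw [← Real.rpow_natCast, ← Real.rpow_mul hN0.le]
    norm_num
  have hlN : 0 < Real.log N := Real.log_pos (by linarith)
  have h2 : Real.log N ≤ Real.log ((n : ℝ) * (N : ℝ) ^ 2) := by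
    apply Real.log_le_log hN0
    nlinarith [mul_le_mul hn' (le_refl ((N : ℝ) ^ 2)) (by positivity) hn0.le, mul_pos hN0 hN0]
  rw [h1]
  have hnp : (0 : ℝ) < (n : ℝ) ^ (2 / 3 : ℝ) := Real.rpow_pos_of_pos hn0 _
  have h3 : c / (n : ℝ) ^ (2 / 3 : ℝ) * ((n : ℝ) ^ (2 / 3 : ℝ) * (N : ℝ) ^ (4 / 3 : ℝ) /
      Real.log ((n : ℝ) * (N : ℝ) ^ 2) ^ 2) = c * ((N : ℝ) ^ (4 / 3 : ℝ) /
      Real.log ((n : ℝ) * (N : ℝ) ^ 2) ^ 2) := by
    field_simp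
  rw [h3]
  apply mul_le_mul_of_nonneg_left _ hc.le
  apply div_le_div_of_nonneg_left (by positivity) (by positivity)
  exact pow_le_pow_left₀ hlN.le h2 2

end FINC

theorem FINC_thm (hUPB : Stmt_UPB) (hCNT : CDP.CountStatement) (hHT : Stmt_HT) : Stmt_FINC := by
  intro n M hn hM
  obtain ⟨hn0, hcf, h3, -⟩ := id hn
  obtain ⟨S, hT, hS⟩ := hUPB n hn
  obtain ⟨Q₀, hQ⟩ := hHT n hn0 hcf h3
  obtain ⟨c, hc, hF⟩ := hCNT S hT n M hn0 hM
  refine ⟨c / (n : ℝ) ^ (2 / 3 : ℝ), div_pos hc (Real.rpow_pos_of_pos (by exact_mod_cast hn0) _),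
    fun x₀ => ?_⟩
  obtain ⟨N, hN', F, hFc, hFx⟩ := hF (max (max (max x₀ Q₀) 2) n)
  have hN : max (max x₀ Q₀) 2 ≤ N := le_trans (le_max_left _ _) hN'
  have hN2 : 2 ≤ N := le_trans (le_max_right _ _) hN
  have hNx : x₀ ≤ N := le_trans (le_trans (le_max_left _ _) (le_max_left _ _)) hN
  have hlt : ∀ x ∈ F, x.1 < x.2 := by
    intro x hx
    obtain ⟨-, -, -, -, -, -, t, ht, -, hpq⟩ := hFx x hx
    have : 0 < n * t ^ 3 := by positivity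
    omega
  have hinj : Set.InjOn (fun x : ℕ × ℕ => n * x.1 * x.2) (F : Set (ℕ × ℕ)) := by
    intro x hx y hy he
    have hx' := hFx x hx
    have hy' := hFx y hy
    have he' : x.1 * x.2 = y.1 * y.2 := by
      have he'' : n * x.1 * x.2 = n * y.1 * y.2 := he
      rw [mul_assoc, mul_assoc] at he''
      exact Nat.eq_of_mul_eq_mul_left hn0 he''
    obtain ⟨h1, h2⟩ := FINC.pair_inj hx'.1 hy'.1 hy'.2.1 (hlt x hx) (hlt y hy) he'
    exact Prod.ext h1 h2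
  refine ⟨n * N ^ 2, ?_, F.image (fun x : ℕ × ℕ => n * x.1 * x.2), ?_, ?_⟩
  · calc x₀ ≤ N := hNx
      _ = 1 * N := (one_mul N).symm
      _ ≤ n * N ^ 2 := Nat.mul_le_mul hn0 (Nat.le_self_pow (by norm_num) N)
  · rw [Finset.card_image_of_injOn hinj]
    exact le_trans (FINC.scale hn0 hN2 hc) hFc
  · intro A hA
    obtain ⟨x, hx, rfl⟩ := Finset.mem_image.1 hA
    obtain ⟨hp, hq, hpS, hqS, hN0, hqN, t, ht, hMt, hpq⟩ := hFx x hx
    have hl := hlt x hx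
    obtain ⟨hp3, hq3, hgen⟩ := hS x.1 x.2 hpS hqS hp hq hl.ne
    have hQp : Q₀ ≤ x.1 := le_trans (le_trans (le_trans (le_max_right x₀ Q₀) (le_max_left _ 2))
      (le_max_left _ n)) hN0.le
    have hnp : n < x.1 := lt_of_le_of_lt (le_max_right _ n) hN0
    obtain ⟨hr, h, hu⟩ := FINC.one hp ht hpq hgen
      (fun h R m hm => hQ x.1 x.2 t hp hq hp3 hq3 ht hpq hQp h R m hm)
    refine ⟨?_, x.1, x.2, t, hp, hq, hnp, hp3, hq3, ht, hMt, hpq, rfl, hr, h, hu⟩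
    show n * x.1 * x.2 ≤ n * N ^ 2
    calc n * x.1 * x.2 ≤ n * N * N := Nat.mul_le_mul (Nat.mul_le_mul le_rfl (hl.le.trans hqN)) hqN
      _ = n * N ^ 2 := by ring

end Pool.Agent.EGQ
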