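import Pool.Agent.EGQ.StmtsB

/-!
# EGQ_LIN: linear algebra
-/

set_option autoImplicit false

namespace Pool.Agent.EGQ

/-- EGQ_LIN. -/
theorem LIN_thm : Stmt_LIN := by
  intro s M hM
  have h1 : (M.submatrix Fin.castSucc Fin.castSucc).rank = s := by
    have hu : IsUnit (M.submatrix Fin.castSucc Fin.castSucc) :=
      (Matrix.isUnit_iff_isUnit_det _).2 (isUnit_iff_ne_zero.2 hM)
    rw [Matrix.rank_of_isUnit _ hu, Fintype.card_fin]
  have h2 : (M.submatrix Fin.castSucc Fin.castSucc).rank ≤ M.rank := by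
    exact Matrix.rank_submatrix_le M Fin.castSucc Fin.castSucc
  omega

end Pool.Agent.EGQ
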