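import Pool.Agent.EGQ.StmtsB

/-!
# EGQ_LOC: the number `B = n q₁ q₂`
-/

set_option autoImplicit false

namespace Pool.Agent.EGQ

open Pool.Agent.Lib_helper18 Pool.Agent.Lib_helper18.Eis Pool.Agent.Lib_helper84.Cub
open Pool.Agent.PT Pool.Agent.PTE Pool.Agent.PT3 Pool.Agent.PTL Pool.Agent.PTN

/-- EGQ_LOC. -/
theorem LOC_thm (hNFX : Stmt_NFX) (hADX : Stmt_ADX) : Stmt_LOC := by
  intro n m k π p e r f w0 c q₁ q₂ hNF hT
  have hNF₁ := hNFX n m k π p e r f q₁ hNF hT.p1 hT.m1 hT.d1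
  obtain ⟨hA1, -, -, hA4⟩ := hADX n m k π p e r f w0 c q₁ hNF hT.p1 hT.m1 hT.d1
  have hInC : InCT 1 π (w1 w0 q₁) (c1 π c q₁) q₂ := by
    refine ⟨?_, fun i => ?_⟩
    · unfold w1
      rw [← hT.w, pow_one]
      ring
    · unfold c1
      rw [← hT.c i, Nat.cast_one, one_mul]
      ring
  have hd₂ : ¬ q₂ ∣ n * q₁ := by
    intro h
    rcases (Nat.Prime.dvd_mul hT.p2).1 h with h | h
    · exact hT.d2 h
    · exact hT.ne ((Nat.prime_dvd_prime_iff_eq hT.p2 hT.p1).1 h).symm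
  have hBB : BB 0 (n * q₁) 1 q₂ = (n : ℤ) * q₁ * q₂ := by
    unfold BB
    push_cast
    ring
  obtain ⟨h1, h2, h3⟩ := Pool.Agent.PTN.Final.fNADT 0 (n * q₁) m (k + 1) π p e (sn r q₁) (sn f 1)
    (w1 w0 q₁) (c1 π c q₁) 1 q₂ hNF₁ (by omega) (Or.inl rfl) hT.p2 hT.m2 hInC hd₂
  rw [hBB] at h1 h2 h3
  refine ⟨h1, ⟨h2.1, h2.2.1, ?_⟩, ?_⟩
  · rw [h2.2.2, hA4]
  · intro x hx
    have hsup : ∀ l : ℕ, l.Prime → (l : ℤ) ∣ x → l ∣ 3 * n := hx.1.supp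
    have hx' := (hA1 x hsup).2 hx
    refine ((h3 x fun l hl hlx => ?_).1 hx').1
    exact (hsup l hl hlx).trans (Nat.mul_dvd_mul_left 3 (Dvd.intro _ rfl))

end Pool.Agent.EGQ
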