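import Pool.Agent.EGQ.StmtsB

/-!
# Effective generators (project EGQ): module PIG, the pigeonhole principle for thick sets of primes
-/

set_option autoImplicit false

namespace Pool.Agent.EGQ

open Pool.Agent.PT

theorem PIG_thm : Stmt_PIG := by
  classical
  intro S δ hδ hS ι _ F
  obtain ⟨C, hC⟩ := hS
  by_contra hne
  have hfin : Fintype ι := Fintype.ofFinite ι
  simp only [not_exists] at hne
  have hN : 0 < Fintype.card ι := Fintype.card_pos_iff.2 ⟨F 0⟩
  have hNr : (0 : ℝ) < Fintype.card ι := by exact_mod_cast hN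
  have hc : 0 < δ / (2 * (Fintype.card ι : ℝ)) := by positivity
  have hK : ∀ i : ι, ∃ K : ℝ, ∀ σ : ℝ, 1 < σ → σ ≤ 2 → BDENS.sm {q : ℕ | q ∈ S ∧ F q = i} σ <
      δ / (2 * (Fintype.card ι : ℝ)) * Real.log (1 / (σ - 1)) + K := by
    intro i
    by_contra h
    refine hne i ⟨δ / (2 * (Fintype.card ι : ℝ)), hc, fun K => ?_⟩
    by_contra h2
    refine h ⟨K, fun σ h1 h3 => ?_⟩
    by_contra h4
    exact h2 ⟨σ, h1, h3, not_lt.1 h4⟩
  choose K hK using hK
  have hsum : ∀ σ : ℝ, 1 < σ →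
      BDENS.sm S σ = ∑ i, BDENS.sm {q : ℕ | q ∈ S ∧ F q = i} σ := by
    intro σ hσ
    rw [BDENS.sm_eq, Finset.sum_congr rfl fun i _ => BDENS.sm_eq _ σ,
      ← Summable.tsum_finsetSum fun i _ => BDENS.ind_summable _ hσ]
    refine tsum_congr fun n => ?_
    by_cases hn : n.Prime ∧ n ∈ S
    · rw [BDENS.ind_mem hn.1 hn.2, Finset.sum_eq_single (F n)]
      · exact (BDENS.ind_mem (S := {q : ℕ | q ∈ S ∧ F q = F n}) hn.1 ⟨hn.2, rfl⟩).symm
      · intro i _ hi
        exact BDENS.ind_not fun h => hi h.2.2.symm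
      · intro h
        exact absurd (Finset.mem_univ _) h
    · rw [BDENS.ind_not hn]
      exact (Finset.sum_eq_zero fun i _ => BDENS.ind_not fun h => hn ⟨h.1, h.2.1⟩).symm
  obtain ⟨M, hM1, hM2⟩ : ∃ M : ℝ, 1 ≤ M ∧ 2 * (C + ∑ i, K i) / δ + 1 ≤ M :=
    ⟨max 1 (2 * (C + ∑ i, K i) / δ + 1), le_max_left _ _, le_max_right _ _⟩
  have h1 : 1 < 1 + Real.exp (-M) := by linarith [Real.exp_pos (-M)]
  have h2 : 1 + Real.exp (-M) ≤ 2 := by
    have h : Real.exp (-M) ≤ 1 := Real.exp_le_one_iff.2 (by linarith)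
    linarith
  have h3 : Real.log (1 / (1 + Real.exp (-M) - 1)) = M := by
    rw [add_sub_cancel_left, one_div, ← Real.exp_neg, neg_neg, Real.log_exp]
  have h4 : δ * M - C ≤ BDENS.sm S (1 + Real.exp (-M)) := by
    have h := hC _ h1 h2
    rw [h3] at h
    exact h
  have h5 : BDENS.sm S (1 + Real.exp (-M)) ≤
      ∑ i : ι, (δ / (2 * (Fintype.card ι : ℝ)) * M + K i) := by
    rw [hsum _ h1]
    refine Finset.sum_le_sum fun i _ => ?_
    have h := hK i _ h1 h2
    rw [h3] at h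
    exact h.le
  rw [Finset.sum_add_distrib, Finset.sum_const, Finset.card_univ, nsmul_eq_mul] at h5
  have h6 : (Fintype.card ι : ℝ) * (δ / (2 * (Fintype.card ι : ℝ)) * M) = δ / 2 * M := by
    field_simp
  rw [h6] at h5
  have h7 : 2 * (C + ∑ i, K i) / δ < M := by linarith
  rw [div_lt_iff₀ hδ] at h7
  nlinarith [h4, h5, h7]

end Pool.Agent.EGQ
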