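import Pool.Agent.EGQ.StmtsB

/-!
# EGQ_SYX: extension of the solutions of the norm equations
-/

set_option autoImplicit false

namespace Pool.Agent.EGQ

open Pool.Agent.Lib_helper18 Pool.Agent.Lib_helper18.Eis Pool.Agent.Lib_helper84.Cub
open Pool.Agent.PT Pool.Agent.PTE Pool.Agent.PT3 Pool.Agent.PTL Pool.Agent.PTN

namespace SYX

/-- the matrix `P₀` with the block `P` on the first `s` indices -/
def ov {s : ℕ} (P : Fin s → Fin s → ℤ) (P₀ : Fin (s + 1) → Fin (s + 1) → ℤ) : Fin (s + 1) → Fin (s + 1) → ℤ :=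
  fun j i => Fin.lastCases (motive := fun _ => ℤ) (P₀ j i)
    (fun j' => Fin.lastCases (motive := fun _ => ℤ) (P₀ j i) (fun i' => P j' i') i) j

theorem ov_cc {s : ℕ} (P : Fin s → Fin s → ℤ) (P₀ : Fin (s + 1) → Fin (s + 1) → ℤ) (j i : Fin s) :
    ov P P₀ j.castSucc i.castSucc = P j i := by
  unfold ov
  rw [Fin.lastCases_castSucc, Fin.lastCases_castSucc]

theorem ov_cl {s : ℕ} (P : Fin s → Fin s → ℤ) (P₀ : Fin (s + 1) → Fin (s + 1) → ℤ) (j : Fin s) :
    ov P P₀ j.castSucc (Fin.last s) = P₀ j.castSucc (Fin.last s) := by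
  unfold ov
  rw [Fin.lastCases_castSucc, Fin.lastCases_last]

theorem ov_l {s : ℕ} (P : Fin s → Fin s → ℤ) (P₀ : Fin (s + 1) → Fin (s + 1) → ℤ) (i : Fin (s + 1)) :
    ov P P₀ (Fin.last s) i = P₀ (Fin.last s) i := by
  unfold ov
  rw [Fin.lastCases_last]

theorem sn_c {α : Type} {s : ℕ} (b : Fin s → α) (x : α) (i : Fin s) : sn b x i.castSucc = b i := by
  unfold sn; rw [Fin.snoc_castSucc]

end SYX

open SYX in
/-- EGQ_SYX. -/
theorem SYX_thm (hNFX : Stmt_NFX) : Stmt_SYX := by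
  intro n m k π p e r f w0 c q₁ s τ b X Y τ₁ b₁ X₁ Y₁ P Q P' Q' hNF hq hq3 hn hB hSG hSw
  have hNF₁ := hNFX n m k π p e r f q₁ hNF hq hq3 hn
  obtain ⟨P₀, Q₀, P₀', Q₀', hG₀, hS₀⟩ := Pool.Agent.PT3.Final.fESYT 0 (n * q₁) m (k + 1) π p e (sn r q₁) (sn f 1)
    (w1 w0 q₁) (c1 π c q₁) (s + 1) (sn b b₁) hNF₁ (fun i => (hB.ad i).1) hB.v2 hB.ind hB.n3
  refine ⟨ov P P₀, ov Q Q₀, ov P' P₀', ov Q' Q₀', ⟨hB.ind, ?_⟩, ?_, ?_, ?_, ?_, ?_⟩
  · intro j i hji
    revert hji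
    refine Fin.lastCases ?_ (fun j => ?_) j
    · intro hji
      rw [ov_l, ov_l, ov_l, ov_l]
      exact hG₀.sol _ _ hji
    · refine Fin.lastCases ?_ (fun i => ?_) i
      · intro hji
        rw [ov_cl, ov_cl, ov_cl, ov_cl]
        exact hG₀.sol _ _ hji
      · intro hji
        rw [ov_cc, ov_cc, ov_cc, ov_cc, sn_c, sn_c]
        exact hSG.sol _ _ (fun h => hji (congrArg _ h))
  · intro j i hji
    revert hji
    refine Fin.lastCases ?_ (fun j => ?_) j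
    · refine Fin.lastCases ?_ (fun i => ?_) i
      · intro hji
        exact absurd rfl hji
      · intro hji
        rw [ov_l, ov_l, ov_l, ov_l, ov_cl, ov_cl, ov_cl, ov_cl]
        exact hS₀ _ _ hji
    · refine Fin.lastCases ?_ (fun i => ?_) i
      · intro hji
        rw [ov_cl, ov_cl, ov_cl, ov_cl, ov_l, ov_l, ov_l, ov_l]
        exact hS₀ _ _ hji
      · intro hji
        rw [ov_cc, ov_cc, ov_cc, ov_cc, ov_cc, ov_cc, ov_cc, ov_cc]
        exact hSw _ _ (fun h => hji (congrArg _ h))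
  all_goals
    funext j i
    exact ov_cc _ _ j i

end Pool.Agent.EGQ
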