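import Pool.Agent.EGQ.StmtsB

/-!
# Effective generators: module VEX, the minus part for `n q₁`
-/

set_option autoImplicit false

open NumberField IsDedekindDomain Finset
open scoped nonZeroDivisors Pointwise

namespace Pool.Agent.EGQ

open Pool.Agent.Lib_helper18 Pool.Agent.Lib_helper18.Eis Pool.Agent.Lib_helper84.Cub
open Pool.Agent.PT Pool.Agent.PTE Pool.Agent.PT3 Pool.Agent.PTL Pool.Agent.PTN

namespace VEXM

section

variable {n m k : ℕ} {π : Fin m → PP} {p e : Fin m → ℕ} {r f : Fin k → ℕ} {q : ℕ}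

/-- the condition at `3` does not change -/
theorem wt_eq' (w0 : ZMod 3) (hn : ¬ 3 ∣ n) (hq : ¬ 3 ∣ q) :
    wt (((n * q : ℕ) : ℤ) ^ 2) + w1 w0 q = wt ((n : ℤ) ^ 2) + w0 := by
  have h1 : (n : ℤ) ^ 2 % 3 = 1 := sq_mod_three fun h => hn (by exact_mod_cast h)
  have h2 : (q : ℤ) ^ 2 % 3 = 1 := sq_mod_three fun h => hq (by exact_mod_cast h)
  have h3 : ((n * q : ℕ) : ℤ) ^ 2 = (n : ℤ) ^ 2 * (q : ℤ) ^ 2 := by
    push_cast
    ring
  rw [h3, wt_mul h1 h2, w1]
  ring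

/-- `π i` does not divide `q` -/
theorem not_dvd (hN : NF n π p e r f) (hq : q.Prime) (hqn : ¬ q ∣ n) (i : Fin m) :
    ¬ (π i).1 ∣ (q : Eis) := by
  obtain ⟨l, hl⟩ := EADT.below PT.Final.fSPP (π i)
  have hpi : (p i : Eis) = (π i).1 * conj (π i).1 := hN.pπ i
  have hlp : l = p i := by
    have h1 : (π i).1 ∣ (p i : Eis) := by rw [hpi]; exact dvd_mul_right _ _
    exact (Nat.prime_dvd_prime_iff_eq hl.pr (hN.pp i)).1 ((hl.dvd_nat _).1 h1)
  have hpn : p i ∣ n := by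
    have h1 : p i ∣ ∏ i, p i ^ e i :=
      (dvd_pow_self _ (by rcases hN.pe i with h | h <;> omega)).trans
        (Finset.dvd_prod_of_mem _ (Finset.mem_univ i))
    rw [hN.eq]
    exact h1.mul_right _
  intro h
  have h1 := (Nat.prime_dvd_prime_iff_eq hl.pr hq).1 ((hl.dvd_nat _).1 h)
  apply hqn
  rw [← h1, hlp]
  exact hpn

/-- the condition at `π i` does not change -/
theorem ch_eq' (hN : NF n π p e r f) (hq : q.Prime) (hqn : ¬ q ∣ n) (c : Fin m → ZMod 3)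
    (i : Fin m) : ch (π i).1 ((3 ^ 0 * (n * q) : ℕ) : Eis) + c1 π c q i =
      ch (π i).1 ((3 ^ 0 * n : ℕ) : Eis) + c i := by
  have h3 : ¬ (π i).1 ∣ 3 := by
    obtain ⟨_, _, _, hSPP4, _, _⟩ := PT.Final.fSPP
    exact (hSPP4 (π i)).1
  have h1 := not_dvd hN hq hqn i
  have h2 : ((3 ^ 0 * (n * q) : ℕ) : Eis) = ((3 ^ 0 * n : ℕ) : Eis) * (q : Eis) := by
    push_cast
    ring
  have hn : ((3 ^ 0 * n : ℕ) : Eis) ≠ 0 := by
    rw [pow_zero, one_mul]
    exact PT.EADM.natCast_ne (PT.EADM.n_ne hN)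
  rw [h2, PT.EADM.ch_mul (π i).2.1 h3 hn (PT.EADM.natCast_ne hq.ne_zero),
    PT.EADM.ch_unit (π i).2.1 h1, c1]
  ring

theorem Nm_inl (hN : NF n π p e r f) (hq : q.Prime) (hq3 : q % 3 = 2) (hqn : ¬ q ∣ n)
    (w0 : ZMod 3) (c : Fin m → ZMod 3) (a b : Fin (m + 1)) :
    PTN.Nm 0 (n * q) π p e (sn r q) (w1 w0 q) (c1 π c q) a (Sum.inl b) =
      PTN.Nm 0 n π p e r w0 c a (Sum.inl b) := by
  unfold PTN.Nm
  refine Fin.cases ?_ (fun i => ?_) a
  · refine Fin.cases ?_ (fun i' => ?_) b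
    · simp only [Fin.cases_zero]
      exact wt_eq' w0 (PT.EADM.three_not hN) (by omega)
    · simp only [Fin.cases_zero, Fin.cases_succ]
  · refine Fin.cases ?_ (fun i' => ?_) b
    · simp only [Fin.cases_zero, Fin.cases_succ]
    · simp only [Fin.cases_succ]
      by_cases h : i' = i
      · rw [if_pos h, if_pos h]
        linear_combination -(ch_eq' hN hq hqn c i)
      · rw [if_neg h, if_neg h]

theorem Nm_inr (w0 : ZMod 3) (c : Fin m → ZMod 3) (a : Fin (m + 1)) (j : Fin k) :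
    PTN.Nm 0 (n * q) π p e (sn r q) (w1 w0 q) (c1 π c q) a (Sum.inr j.castSucc) =
      PTN.Nm 0 n π p e r w0 c a (Sum.inr j) := by
  unfold PTN.Nm
  have h : sn r q j.castSucc = r j := Fin.snoc_castSucc (α := fun _ => ℕ) q r j
  refine Fin.cases ?_ (fun i => ?_) a
  · simp only [Fin.cases_zero, h]
  · simp only [Fin.cases_succ, h]

end

end VEXM

theorem VEX_thm : Stmt_VEX := by
  intro n m k π p e r f w0 c q₁ hN hq hq3 hqn hv
  have hact : actR 0 (n * q₁) (w1 w0 q₁) ↔ actR 0 n w0 := by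
    unfold actR
    rw [VEXM.wt_eq' w0 (PT.EADM.three_not hN) (by omega)]
  have hle : VS 0 (n * q₁) π p e (sn r q₁) (w1 w0 q₁) (c1 π c q₁) ≤
      VS 0 n π p e r w0 c := by
    rintro y ⟨h1, h2⟩
    have hv : ∀ {k' : ℕ} (M : Matrix (Fin (m + 1)) (Col m k') (ZMod 3)) (b : Col m k'),
        Matrix.vecMul y M b = ∑ a, y a * M a b := fun _ _ => rfl
    refine ⟨fun ha => h1 fun h => ha (hact.1 h), fun b hb => ?_⟩
    rcases b with b | j
    · have h3 := h2 (Sum.inl b) fun h0 h => hb h0 (by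
        have := Sum.inl.inj h
        rw [this])
      rw [← h3, hv, hv]
      exact Finset.sum_congr rfl fun a _ => by rw [VEXM.Nm_inl hN hq hq3 hqn]
    · have h3 := h2 (Sum.inr j.castSucc) fun _ h => by cases h
      rw [← h3, hv, hv]
      exact Finset.sum_congr rfl fun a _ => by rw [VEXM.Nm_inr]
  have h := Submodule.finrank_mono hle
  unfold vN at hv ⊢
  omega

end Pool.Agent.EGQ
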