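import Pool.Agent.EGQ.StmtsB

/-!
# EGQ_NFX: the normal form of `n q₁`
-/

set_option autoImplicit false

namespace Pool.Agent.EGQ

open Pool.Agent.PT

/-- EGQ_NFX. -/
theorem NFX_thm : Stmt_NFX := by
  intro n m k π p e r f q₁ h hq hq3 hn
  have hr : ∀ j, r j ≠ q₁ := by
    intro j hj
    apply hn
    rw [← hj, h.eq]
    refine Dvd.dvd.mul_left ?_ _
    refine Dvd.dvd.trans ?_ (Finset.dvd_prod_of_mem _ (Finset.mem_univ j))
    rcases h.rf j with h1 | h1 <;> rw [h1]
    · rw [pow_one]
    · exact dvd_pow_self _ two_ne_zero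
  refine ⟨h.pp, h.p1, h.pπ, h.pe, h.pinj, ?_, ?_, ?_, ?_, ?_⟩
  · intro j
    refine Fin.lastCases ?_ (fun j => ?_) j
    · unfold sn; rw [Fin.snoc_last]; exact hq
    · unfold sn; rw [Fin.snoc_castSucc]; exact h.rp j
  · intro j
    refine Fin.lastCases ?_ (fun j => ?_) j
    · unfold sn; rw [Fin.snoc_last]; exact hq3
    · unfold sn; rw [Fin.snoc_castSucc]; exact h.r2 j
  · intro j
    refine Fin.lastCases ?_ (fun j => ?_) j
    · unfold sn; rw [Fin.snoc_last]; exact Or.inl rfl
    · unfold sn; rw [Fin.snoc_castSucc]; exact h.rf j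
  · intro i j
    refine Fin.lastCases ?_ (fun i => ?_) i
    · refine Fin.lastCases ?_ (fun j => ?_) j
      · intro _; rfl
      · unfold sn; rw [Fin.snoc_last, Fin.snoc_castSucc]
        intro hij
        exact absurd hij.symm (hr j)
    · refine Fin.lastCases ?_ (fun j => ?_) j
      · unfold sn; rw [Fin.snoc_last, Fin.snoc_castSucc]
        intro hij
        exact absurd hij (hr i)
      · unfold sn; rw [Fin.snoc_castSucc, Fin.snoc_castSucc]
        intro hij
        rw [h.rinj hij]
  · rw [Fin.prod_univ_castSucc]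
    unfold sn
    simp only [Fin.snoc_castSucc, Fin.snoc_last, pow_one]
    rw [← mul_assoc, ← h.eq]

end Pool.Agent.EGQ
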