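import Pool.Agent.EGQ.HT
import Pool.Agent.EGQ.UPB
import Pool.Agent.EGQ.CLA
import Pool.Agent.EGQ.DC2
import Pool.Agent.EGQ.DNA
import Pool.Agent.EGQ.DNB
import Pool.Agent.EGQ.DNC
import Pool.Agent.EGQ.PIG
import Pool.Agent.EGQ.THK
import Pool.Agent.EGQ.VEX
import Pool.Agent.EGQ.ADX
import Pool.Agent.EGQ.BEX
import Pool.Agent.EGQ.BXA
import Pool.Agent.EGQ.BXB
import Pool.Agent.EGQ.SYX
import Pool.Agent.EGQ.LIN
import Pool.Agent.EGQ.NFX
import Pool.Agent.EGQ.LOC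
import Pool.Agent.EGQ.CRI
import Pool.Agent.EGQ.FINC
import Pool.Agent.CDP.MainC

/-!
# The theorem of project EGQ, counting form
-/

set_option autoImplicit false

namespace Pool.Agent.EGQ

theorem c_dnc : Stmt_DNC :=
  DNC_thm PIG_thm (DNA_thm (LOC_thm NFX_thm ADX_thm) DC2_thm DNB_thm) DNB_thm

theorem c_cri : Stmt_CRI :=
  CRI_thm NFX_thm VEX_thm (BEX_thm NFX_thm VEX_thm ADX_thm (BXA_thm NFX_thm VEX_thm ADX_thm) BXB_thm)
    (SYX_thm NFX_thm) LIN_thm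

theorem mainC : Stmt_FINC :=
  FINC_thm (UPB_thm CLA_thm c_dnc c_cri THK_thm) CDP.count HT_thm

end Pool.Agent.EGQ
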