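import Pool.Agent.EGQ.FinalC
import Pool.Agent.EGQ.DecA

/-!
# The theorem of project EGQ, counting form with a primitive recursive set of numbers
-/

set_option autoImplicit false

namespace Pool.Agent.EGQ

theorem mainD : Stmt_FIND :=
  FIND_thm (UPB_dec CLA_thm PIG_thm (DNA_thm (LOC_thm NFX_thm ADX_thm) DC2_thm DNB_thm) DNB_thm
    c_cri THK_thm) CDP.count HT_thm

end Pool.Agent.EGQ
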