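import Pool.Agent.EGQ.Stmts
import Pool.Agent.FHG.Fin

set_option autoImplicit false

namespace Pool.Agent.EGQ

theorem HT_thm : Stmt_HT := by
  intro n hn _ _
  refine ⟨FHG.Dn n ^ 3, ?_⟩
  intro p q t hp hq hp3 hq3 ht hpq hbig h R m hm
  exact FHG.index n p q t hn ht hp hq hp3 hq3 hpq hbig
    (WeierstrassCurve.Affine.Point.some (px p q t) (py p q t) h :
      (FHG.C ((n : ℤ) * p * q)).toAffine.Point) R
    (WeierstrassCurve.Affine.Point.some_ne_zero h) rfl m hm

end Pool.Agent.EGQ
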