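import Pool.Agent.PTDM.C48

/-!
# Effective generators: twists by two primes with a known generator (MP_8e0b0b_nt, project EGQ)

THEOREM (`Stmt_FIN`). Let `n` be cube-free, prime to `3`, and suppose that the number of primes `2 (mod 3)` dividing `n`
is even or that some prime `2` or `5 (mod 9)` divides `n`. There are infinitely many pairs of primes `p < q` with
`q = p + n t ^ 3` such that the group of rational points of `X ^ 3 + Y ^ 3 = n p q` is infinite cyclic and generated by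
the point with Weierstrass coordinates
`(4 (p² - p q + q²) / t², 4 (p + q) (2 p - q) (2 q - p) / t³)` on `y² = x³ - 432 (n p q)²`.

Three parts: `Stmt_HT` (heights; project FHG of helper53), `Stmt_CDP` (primes of a thick set; project CDP of helper62) and
the second descent (this file).

DESCENT. `B = n q₁ q₂`, `q₁, q₂ = 2 (mod 3)` primes not dividing `3 n`, `(w0, c)` the class of `q₁ q₂`:
`w0 = wt (q₁²) + wt (q₂²)`, `c i = sym (π i) q₁ + sym (π i) q₂`. The rank bound `NBKN` (PTN) for `n' = n q₁` and the prime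
`q₂` gives `r(B) ≤ v' + (s' - rank M')`. If `v = vN 0 n π p e r w0 c = 0` then `v' = 0` (`VEX`), `s' = s + 1`, and a basis
of the classes for `n` extends to one for `n'` (`BEX`, `SYX`); so `r(B) ≤ 1` as soon as the `s × s` block of `M'` on the old
classes is nonsingular (`LIN`, `CRI`). This block is `C + G(q₁) + G(q₂)`, `G(q) = Φ(q) - TAUV q` (`DC2`), where `C`, `Φ` do not
depend on `q₁`, `q₂`. For `q₁`, `q₂` with the same value of `G` it is `C - G`, and by `DENG` (PT3) the primes `q` of the class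
`-(w0, c)` with `det (C - G(q)) ≠ 0` have positive lower density if `s` is even; pigeonhole (`PIG`, `DNC`). Classes with
`v = 0` and `s` even: `CLA`.

IMPORT. This file imports the whole proved library (`PTDM.C48`): every statement of `PT`, `PTE`, `PT3`, `PTL`, `PTN`
is a theorem and may be cited directly: `PT.Final.fSPP`, `PT.Final.fSTM`, `PT.Final.fSLC`, `PT.Final.fLCI`,
`PT.Final.fAVV`, `PT.Final.fSCJ`, `PT.Final.fCLSC`, `PT3.Final.fTENT`, `PT3.Final.fESYT`, `PT3.Final.fDENG`,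
`PT3.Final.fLCL`, `PT3.Final.fEVET`, `PTN.Final.fNDIM`, `PTN.Final.fNVEC`, `PTN.Final.fNBAS`, `PTN.Final.fNADT`,
`PTN.Final.fNBKN`, `PTN.Final.fNZER`, `PTN.Final.fNZE0`, `PTN.Final.fNFE` (all in `Pool.Agent`; the doc-strings of the
statements are in `Pool/Agent/PT/Defs.lean`, `PT/Stmts1-5.lean`, `PT3/Stmts.lean`, `PTN/St*.lean`, and the original proof
files `PT/*.lean`, `PT3/*.lean`, `PTN/*.lean` can be READ, not imported; all their lemmas are available under the same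
names). The modules of EGQ never import each other: take the statements you need as hypotheses, for example
`theorem BEX_thm (h1 : Stmt_NFX) (h2 : Stmt_VEX) (h3 : Stmt_ADX) : Stmt_BEX`.
-/

set_option autoImplicit false

open NumberField IsDedekindDomain Finset
open scoped nonZeroDivisors Pointwise

namespace Pool.Agent.EGQ

open Pool.Agent.Lib_helper18 Pool.Agent.Lib_helper18.Eis Pool.Agent.Lib_helper84.Cub
open Pool.Agent.PT Pool.Agent.PTE Pool.Agent.PT3 Pool.Agent.PTL Pool.Agent.PTN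

/-! ### Thick sets of primes -/

/-- The primes of `S` have positive upper Dirichlet density. -/
def Thick (S : Set ℕ) : Prop := ∃ c : ℝ, 0 < c ∧ ∀ K : ℝ, ∃ σ : ℝ, 1 < σ ∧ σ ≤ 2 ∧
  c * Real.log (1 / (σ - 1)) + K ≤ BDENS.sm S σ

/-- EGQ_PIG: pigeonhole.
Proof. `DensityGE S δ` is `δ log (1/(σ-1)) - C ≤ sm S σ` for all `1 < σ ≤ 2`. Suppose that none of the sets
`S i = {q | q ∈ S ∧ F q = i}` is thick. With `N = Nat.card ι` (`N > 0` since `F 0 : ι`) and `c = δ / (2 N)` there are `K i`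
with `sm (S i) σ < c log (1/(σ-1)) + K i` for all `1 < σ ≤ 2`. `sm S σ = ∑ i, sm (S i) σ` (the series of the indicator
functions, `BDENS.sm_eq`, `BDENS.ind_summable`, see PT/BDENS.lean), so `δ L - C ≤ (δ / 2) L + ∑ K i` for
`L = log (1/(σ-1))`, which is unbounded (`σ → 1`): contradiction. -/
def Stmt_PIG : Prop := ∀ (S : Set ℕ) (δ : ℝ), 0 < δ → RI.DensityGE S δ →
  ∀ (ι : Type) [Finite ι] (F : ℕ → ι), ∃ i : ι, Thick {q : ℕ | q ∈ S ∧ F q = i}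

/-- EGQ_THK: small primes do not matter.
Proof. `sm S σ ≤ sm {q ∈ S | M < q} σ + sm {q | q ≤ M} σ`, and the last sum has at most `M + 1` terms, each at most `1`.
Use the same `c` and `K + (M + 1)` in place of `K`. -/
def Stmt_THK : Prop := ∀ (S : Set ℕ) (M : ℕ), Thick S → Thick {q : ℕ | q ∈ S ∧ M < q}

/-! ### One more prime -/

/-- `b` followed by `x` -/
def sn {α : Type} {s : ℕ} (b : Fin s → α) (x : α) : Fin (s + 1) → α := Fin.snoc (α := fun _ => α) b x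

/-- `w0` without the contribution of `q` -/
noncomputable def w1 (w0 : ZMod 3) (q : ℕ) : ZMod 3 := w0 - wt ((q : ℤ) ^ 2)

/-- `c` without the contribution of `q` -/
noncomputable def c1 {m : ℕ} (π : Fin m → PP) (c : Fin m → ZMod 3) (q : ℕ) : Fin m → ZMod 3 :=
  fun i => c i - sym (π i).1 (q : Eis)

/-- EGQ_NFX: the normal form of `n q₁`.
Proof. `Fin.prod_univ_castSucc`, `Fin.snoc_castSucc`, `Fin.snoc_last`; `r j ∣ n` so `q₁ ≠ r j`
(`Function.Injective`: cases `Fin.lastCases`). -/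
def Stmt_NFX : Prop := ∀ (n m k : ℕ) (π : Fin m → PP) (p e : Fin m → ℕ) (r f : Fin k → ℕ) (q₁ : ℕ),
  NF n π p e r f → q₁.Prime → q₁ % 3 = 2 → ¬ q₁ ∣ n → NF (n * q₁) π p e (sn r q₁) (sn f 1)

/-- EGQ_VEX: the minus part for `n q₁`.
Proof. The columns `inl a` of `Nm 0 (n * q₁) .. (w1 w0 q₁) (c1 π c q₁)` are those of `Nm 0 n .. w0 c`:
`wt ((n q₁)²) + w0 - wt (q₁²) = wt (n²) + w0` (`wt_mul`, everything prime to `3`),
`ch (π i) (n q₁) = ch (π i) n + sym (π i) q₁` (`q₁` is prime to `π i`), and the columns `inr j.castSucc` are the columns `inr j`.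
So `VS 0 (n * q₁) .. ≤ VS 0 n ..` (same type; `actR` is the same condition). `Submodule.finrank_mono`. -/
def Stmt_VEX : Prop := ∀ (n m k : ℕ) (π : Fin m → PP) (p e : Fin m → ℕ) (r f : Fin k → ℕ)
  (w0 : ZMod 3) (c : Fin m → ZMod 3) (q₁ : ℕ),
  NF n π p e r f → q₁.Prime → q₁ % 3 = 2 → ¬ q₁ ∣ n → vN 0 n π p e r w0 c = 0 →
  vN 0 (n * q₁) π p e (sn r q₁) (w1 w0 q₁) (c1 π c q₁) = 0

/-- EGQ_ADX: the admissible classes for `n q₁`.
Proof. (1) unfold `AdN`, `AdC`: `V (π i) (n q₁) = V (π i) n`, `ch (π i) (3^0 n q₁) + c i - sym (π i) q₁ = ch (π i) (3^0 n) + c i`,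
`wt ((n q₁)²) + w0 - wt (q₁²) = wt (n²) + w0`. (2) `x = q₁ ^ (3 a) x'`, `q₁ ∤ x'`; `x'` is admissible too (`lv`, `lw`,
`V (π i)` and `ch (π i)` are additive and `0` on cubes), it is supported on `3 n`, so (1) applies; `u = 1`, `v = q₁ ^ a`.
(3) additivity. (4) the congruence. -/
def Stmt_ADX : Prop := ∀ (n m k : ℕ) (π : Fin m → PP) (p e : Fin m → ℕ) (r f : Fin k → ℕ)
  (w0 : ZMod 3) (c : Fin m → ZMod 3) (q₁ : ℕ),
  NF n π p e r f → q₁.Prime → q₁ % 3 = 2 → ¬ q₁ ∣ n →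
  (∀ x : ℤ, (∀ l : ℕ, l.Prime → (l : ℤ) ∣ x → l ∣ 3 * n) →
    (AdN 0 (n * q₁) π (w1 w0 q₁) (c1 π c q₁) x ↔ AdN 0 n π w0 c x)) ∧
  (∀ x : ℤ, AdN 0 (n * q₁) π (w1 w0 q₁) (c1 π c q₁) x → 3 ∣ padicValInt q₁ x →
    ∃ x' u v : ℤ, u ≠ 0 ∧ v ≠ 0 ∧ AdN 0 n π w0 c x' ∧ x * u ^ 3 = x' * v ^ 3) ∧
  (∀ x y : ℤ, AdN 0 (n * q₁) π (w1 w0 q₁) (c1 π c q₁) x → AdN 0 (n * q₁) π (w1 w0 q₁) (c1 π c q₁) y →
    AdN 0 (n * q₁) π (w1 w0 q₁) (c1 π c q₁) (x * y)) ∧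
  wt (((n * q₁ : ℕ) : ℤ) ^ 2) + w1 w0 q₁ = wt ((n : ℤ) ^ 2) + w0

/-- A basis of the admissible classes, as in `NBAS` (`h = 0`). -/
structure Bas (n : ℕ) {m : ℕ} (π : Fin m → PP) (w0 : ZMod 3) (c : Fin m → ZMod 3) {s : ℕ}
    (τ : Fin s → Fin 3) (b X Y : Fin s → ℤ) : Prop where
  ad : ∀ i, AdN 0 n π w0 c (b i)
  v2 : ∀ i (π : PP), V π.1 (b i : Eis) ≤ 2
  ind : ∀ g : Fin s → ℕ, (∃ i, ¬ 3 ∣ g i) → ¬ ∃ t : ℤ, t ^ 3 = ∏ i, b i ^ g i
  n3 : ∀ i j, i ≠ j → ¬ (3 : ℤ) ∣ b i ∨ ¬ (3 : ℤ) ∣ b j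
  lam : ∀ B : ℤ, TyB 0 n w0 B → LamS B τ b X Y
  span : ∀ x : ℤ, AdN 0 n π w0 c x → ∃ (g : Fin s → ℕ) (u v : ℤ), u ≠ 0 ∧ v ≠ 0 ∧
    x * u ^ 3 = (∏ i, b i ^ g i) * v ^ 3

/-- EGQ_BEX: extension of a basis.
Proof. Put `n' = n q₁`, `U' = US 0 n' .. (w1 w0 q₁) (c1 π c q₁)`. `NDIM` for `n` and for `n'` (`k + 1`), `vN = vN' = 0`
(`VEX`), same `actR` (`ADX` (4)): `sN' = sN + 1 = s + 1`. The vectors `exv (b i)` are in `U'` (`ADX` (1), `NVEC`), so there is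
`u ∈ U'` outside their span. `u (inr last) ≠ 0`: otherwise the integer `x` of `NVEC` (3) with `exv x = u` has
`3 ∣ padicValInt q₁ x`, is admissible for `n` up to cubes (`ADX` (2)) and `x u³ = (∏ b i ^ g i) v³` by `span`, so
`u = ∑ g i exv (b i)`. CORRECTION AT `lam`: if there is no `B` with `TyB 0 n w0 B` the condition `lam` is empty. Otherwise put
`β = wt (n²) + w0`; for `x` admissible `lv x = 0`, and `lw x = 0` if `β = 0`. `TyB 0 n' (w1 w0 q₁) B ↔ TyB 0 n w0 B`.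
(`τ i = 2` is impossible: `lv B = 0`.) If `τ i₁ = 1` for some `i₁`: `lw (b i₁) = β ≠ 0` (it is not a local cube: `LCL`); replace
`u` by `u + e exv (b i₁)` with `lw = 0`; the new class has type `0` (local cube). If there is no such `i₁`: if `lw u = 0` type `0`;
otherwise `β ≠ 0` and `lw u = ± β`; replace `u` by `2 u` if `lw u = - β`; type `1`, `X₁ = 1`, `Y₁ = 0`, `LamS.inj` holds as no
other class has type `1`. Then `b₁` from `NVEC` (3) for the final `u` (`V σ b₁ ≤ 2`, `3 ∤ b₁`). `ind`: if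
`t³ = (∏ b i ^ g i) b₁ ^ g` then `g u(inr last) = 0`, so `3 ∣ g`, `b₁ ^ (g/3) ∣ t` and `ind` for `b`. `span`: for `x`
admissible choose `g` with `padicValInt q₁ (x b₁ ^ (2 g)) = 0 (mod 3)`, then `ADX` (2) and `span` for `b`, and multiply by
`b₁ ^ g` (`b₁ ^ (3 g)` is a cube). -/
def Stmt_BEX : Prop := ∀ (n m k : ℕ) (π : Fin m → PP) (p e : Fin m → ℕ) (r f : Fin k → ℕ)
  (w0 : ZMod 3) (c : Fin m → ZMod 3) (q₁ s : ℕ) (τ : Fin s → Fin 3) (b X Y : Fin s → ℤ),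
  NF n π p e r f → q₁.Prime → q₁ % 3 = 2 → ¬ q₁ ∣ n → vN 0 n π p e r w0 c = 0 →
  s = sN 0 n π p e r w0 c → Bas n π w0 c τ b X Y →
  ∃ (τ₁ : Fin 3) (b₁ X₁ Y₁ : ℤ), Bas (n * q₁) π (w1 w0 q₁) (c1 π c q₁) (sn τ τ₁) (sn b b₁) (sn X X₁) (sn Y Y₁)

/-- EGQ_SYX: extension of the solutions of the norm equations.
Proof. `ESYT` for `n q₁` (normal form: `NFX`) and the classes `sn b b₁` gives a system `P₀ Q₀ P₀' Q₀'`. Put
`P₁ j i = P j' i'` if `j = j'.castSucc`, `i = i'.castSucc`, and `P₁ j i = P₀ j i` if one of `j`, `i` is the last index (the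
same for `Q₁`, …). `SysG.sol` and `SwS` hold for every pair since they hold in both systems; `SysG.ind` is `Bas.ind`. -/
def Stmt_SYX : Prop := ∀ (n m k : ℕ) (π : Fin m → PP) (p e : Fin m → ℕ) (r f : Fin k → ℕ)
  (w0 : ZMod 3) (c : Fin m → ZMod 3) (q₁ s : ℕ) (τ : Fin s → Fin 3) (b X Y : Fin s → ℤ)
  (τ₁ : Fin 3) (b₁ X₁ Y₁ : ℤ) (P Q P' Q' : Fin s → Fin s → ℤ),
  NF n π p e r f → q₁.Prime → q₁ % 3 = 2 → ¬ q₁ ∣ n →
  Bas (n * q₁) π (w1 w0 q₁) (c1 π c q₁) (sn τ τ₁) (sn b b₁) (sn X X₁) (sn Y Y₁) →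
  SysG b P Q P' Q' → SwS P Q P' Q' →
  ∃ P₁ Q₁ P₁' Q₁' : Fin (s + 1) → Fin (s + 1) → ℤ, SysG (sn b b₁) P₁ Q₁ P₁' Q₁' ∧ SwS P₁ Q₁ P₁' Q₁' ∧
    rs P₁ = P ∧ rs Q₁ = Q ∧ rs P₁' = P' ∧ rs Q₁' = Q'

/-- EGQ_LIN: linear algebra.
Proof. `rank (M.submatrix ..) ≤ rank M` (`Matrix.rank_submatrix_le` and transposes), and the rank of an invertible matrix
is `s`. -/
def Stmt_LIN : Prop := ∀ (s : ℕ) (M : Matrix (Fin (s + 1)) (Fin (s + 1)) (ZMod 3)),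
  (M.submatrix Fin.castSucc Fin.castSucc).det ≠ 0 → s + 1 - M.rank ≤ 1

/-- The conditions on the two primes. -/
structure Two (n : ℕ) {m : ℕ} (π : Fin m → PP) (w0 : ZMod 3) (c : Fin m → ZMod 3) (q₁ q₂ : ℕ) : Prop where
  p1 : q₁.Prime
  p2 : q₂.Prime
  ne : q₁ ≠ q₂
  l1 : 3 < q₁
  l2 : 3 < q₂
  m1 : q₁ % 3 = 2
  m2 : q₂ % 3 = 2
  d1 : ¬ q₁ ∣ n
  d2 : ¬ q₂ ∣ n
  w : wt ((q₁ : ℤ) ^ 2) + wt ((q₂ : ℤ) ^ 2) = w0
  c : ∀ i, sym (π i).1 (q₁ : Eis) + sym (π i).1 (q₂ : Eis) = c i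

/-- EGQ_CRI: the bound `r(n q₁ q₂) ≤ 1`.
Proof. `BEX`, `SYX`, then `NBKN` with `h = 0`, `n' = n q₁`, `k + 1`, `sn r q₁`, `sn f 1`, the class
`(w1 w0 q₁, c1 π c q₁)`, `E = 1`, `q = q₂` (`InCT 1 ..` is `Two.w`, `Two.c`; `q₂ ∤ n q₁`; `vN = 0` by `VEX`). `BB 0 (n q₁) 1 q₂ =
n q₁ q₂`. The submatrix of `MaT (sn b b₁) (sn X X₁) (sn Y Y₁) P₁ Q₁ P₁' Q₁' B` on the indices `castSucc` is
`MaT b X Y P Q P' Q' B` (`Fin.snoc_castSucc`, `rs P₁ = P`, `Fin.castSucc_inj`). `LIN`; `GenBy A d → d ≤ d' → GenBy A d'`. -/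
def Stmt_CRI : Prop := ∀ (n m k : ℕ) (π : Fin m → PP) (p e : Fin m → ℕ) (r f : Fin k → ℕ)
  (w0 : ZMod 3) (c : Fin m → ZMod 3) (q₁ q₂ s : ℕ) (τ : Fin s → Fin 3) (b X Y : Fin s → ℤ)
  (P Q P' Q' : Fin s → Fin s → ℤ),
  NF n π p e r f → vN 0 n π p e r w0 c = 0 → s = sN 0 n π p e r w0 c → Bas n π w0 c τ b X Y →
  SysG b P Q P' Q' → SwS P Q P' Q' → Two n π w0 c q₁ q₂ →
  (MaT b X Y P Q P' Q' ((n : ℤ) * q₁ * q₂)).det ≠ 0 → CubeRank.GenBy ((n : ℤ) * q₁ * q₂) 1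

/-! ### The local conditions and the dependence on the primes -/

/-- EGQ_LOC: the number `B = n q₁ q₂`.
Proof. `NADT` with `h = 0`, `n' = n q₁` (`NFX`), the class `(w1 w0 q₁, c1 π c q₁)`, `E = 1`, `q = q₂`, gives `BG B`,
`TyB 0 n' .. B` and `AdN 0 n' .. x ↔ AG B x ∧ Loc B x` for `x` supported on `3 n'`; `ADX` (1), (4). -/
def Stmt_LOC : Prop := ∀ (n m k : ℕ) (π : Fin m → PP) (p e : Fin m → ℕ) (r f : Fin k → ℕ)
  (w0 : ZMod 3) (c : Fin m → ZMod 3) (q₁ q₂ : ℕ),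
  NF n π p e r f → Two n π w0 c q₁ q₂ →
  BG ((n : ℤ) * q₁ * q₂) ∧ TyB 0 n w0 ((n : ℤ) * q₁ * q₂) ∧
    ∀ x : ℤ, AdN 0 n π w0 c x → AG ((n : ℤ) * q₁ * q₂) x

/-- EGQ_DC2: the pairing `O_{N Q₁ Q₂}(b, η)` as a function of the primes `Q₁`, `Q₂ = 2 (mod 3)`.
Proof. Copy of `DCOT_thm` (PT3/DCOT.lean, read it; 300 lines): there `B = N Q ^ E`; take `E = 1` and the composite number
`Q = Q₁ Q₂`, `unitOfCoprime (Q₁ Q₂) = unitOfCoprime Q₁ * unitOfCoprime Q₂`: at the places dividing `M` (and at `3`) the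
primality of `Q` is not used (`PTL.DC.place_LC` holds for every `Q` prime to `f`), only that `Q` is prime to `f`.
There are two places outside `M` and `3` with a nonzero term, `Q₁` and `Q₂` (inert primes, different), and the term
at `Q₁` is `- TAUV Q₁ p q p' q' r₁` because `V Q₁ B = 1` (`PTL.DC.tm_inert` with `n Q₂` in place of `n`, `E = 1`). -/
def Stmt_DC2 : Prop := ∀ (N : ℕ) (b X Y x p q p' q' : ℤ), 0 < N → Sol b x p q p' q' → b ≠ 0 →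
  x ≠ 0 → ∃ f₀ : ℕ, 0 < f₀ ∧ ∀ f : ℕ, 0 < f → f₀ ∣ f →
  ∃ (C : ZMod 3) (Φ : (ZMod f)ˣ →* Multiplicative (ZMod 3)),
    ∀ (Q₁ Q₂ : ℕ) (h₁ : Q₁.Coprime f) (h₂ : Q₂.Coprime f), Q₁.Prime → Q₂.Prime → Q₁ ≠ Q₂ →
      Q₁ % 3 = 2 → Q₂ % 3 = 2 → AG ((N : ℤ) * Q₁ * Q₂) x →
      ∀ r₁ r₂ : ℤ, (Q₁ : ℤ) ∣ r₁ ^ 3 - b → (Q₂ : ℤ) ∣ r₂ ^ 3 - b →
        OT ((N : ℤ) * Q₁ * Q₂) b X Y x p q p' q' =
          C + ((Φ (ZMod.unitOfCoprime Q₁ h₁)).toAdd - TAUV Q₁ p q p' q' r₁) +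
            ((Φ (ZMod.unitOfCoprime Q₂ h₂)).toAdd - TAUV Q₂ p q p' q' r₂)

/-- EGQ_DNC: the set of primes.
Proof. `f = 9 (∏ p i) (∏ f₀ j i)`, `f₀ j i` from `DC2` for `N = n` and the data of the pair `j ≠ i` (`f₀ = 1` for `j = i`), `κ`
from `CLSC`; `C`, `Φ` from `DC2`, assembled to `C : Fin s → Fin s → ZMod 3`,
`Φ : (ZMod f)ˣ →* Multiplicative (Fin s → Fin s → ZMod 3)` (`0` on the diagonal; see `CLN_thm`, PTN/CLN.lean, or
`FINA`). `DENG` for the class `Fin.cons (-w0) (-c)` and `-C`, `Φ`: the set `S₀` of the primes `Q % 3 = 2` prime to `f` in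
this class with `det (alt (- C + Φ Q - τ)) ≠ 0` for the matrix `τ` of the `TAUV` (a root `r j` with `Q ∣ r j ^ 3 - b j` exists
since cubing is bijective modulo `Q`; `TAUV` depends only on `r` modulo `Q`, see PTN/CLN.lean) has positive density.
Let `F Q : Fin s → Fin s → ZMod 3`, `F Q j i = (Φ Q) j i - τ j i` for `j ≠ i` (with chosen roots; anything if `Q` is not
prime to `f`), `0` for `j = i`. `PIG`: `S = {Q ∈ S₀ | F Q = G}` is thick. For `q₁ ≠ q₂` in `S`, large: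
`Two` (`-w0 - w0 = w0` in `ZMod 3`), and by `LOC`, `TENT` (alternating; `LamS` from `Bas.lam`) and `DC2`
`MaT .. = alt (C + G + G) = - alt (- C + G)` (`C + 2 G = C - G`), with `det = ± det (alt (- C + G)) ≠ 0`. -/
def Stmt_DNC : Prop := ∀ (n m k : ℕ) (π : Fin m → PP) (p e : Fin m → ℕ) (r f : Fin k → ℕ)
  (w0 : ZMod 3) (c : Fin m → ZMod 3) (s : ℕ) (τ : Fin s → Fin 3) (b X Y : Fin s → ℤ)
  (P Q P' Q' : Fin s → Fin s → ℤ),
  NF n π p e r f → Even s → Bas n π w0 c τ b X Y → SysG b P Q P' Q' → SwS P Q P' Q' →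
  ∃ (S : Set ℕ) (M : ℕ), Thick S ∧ ∀ q₁ q₂ : ℕ, q₁ ∈ S → q₂ ∈ S → q₁.Prime → q₂.Prime → q₁ ≠ q₂ → M < q₁ →
    M < q₂ → Two n π w0 c q₁ q₂ ∧ (MaT b X Y P Q P' Q' ((n : ℤ) * q₁ * q₂)).det ≠ 0

/-! ### The theorems -/

/-- EGQ_CLA: choice of the class.
Proof. `k` even: `NZER` for `h = 0` gives `(w0, c)` with `vN = 0` and `wt (n²) + w0 ≠ 0`, so `actR` is false and `NDIM` gives
`sN = k`. `k` odd: `wt (r j ^ 2) ≠ 0` for `r j = 2, 5 (mod 9)`, `NZE0` gives `vN = 0`, `wt (n²) + w0 = 0`, `actR` holds, and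
`sN + 1 = k`. -/
def Stmt_CLA : Prop := ∀ (n m k : ℕ) (π : Fin m → PP) (p e : Fin m → ℕ) (r f : Fin k → ℕ),
  NF n π p e r f → (Even k ∨ ∃ j, r j % 9 = 2 ∨ r j % 9 = 5) →
  ∃ (w0 : ZMod 3) (c : Fin m → ZMod 3), vN 0 n π p e r w0 c = 0 ∧ Even (sN 0 n π p e r w0 c)

/-- the condition on `n` -/
def Good (n : ℕ) : Prop := 0 < n ∧ (∀ p : ℕ, p.Prime → ¬ p ^ 3 ∣ n) ∧ ¬ 3 ∣ n ∧
  (Even (n.primeFactors.filter (fun p => p % 3 = 2)).card ∨
    ∃ p : ℕ, p.Prime ∧ p ∣ n ∧ (p % 9 = 2 ∨ p % 9 = 5))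

/-- EGQ_UPB: the upper bound for the rank.
Proof. `NFE` (`h = n.factorization 3 = 0`), `CLA`, `NBAS` (gives `Bas`), `ESYT` (`AdN` implies `AdC`), `DNC`, `CRI`, `THK`. (In the
second case of `Good` the prime `p ∣ n` is one of the `r j`: it divides the product in `NF.eq` and is `2 (mod 3)`.) -/
def Stmt_UPB : Prop := ∀ n : ℕ, Good n → ∃ S : Set ℕ, Thick S ∧ ∀ q₁ q₂ : ℕ, q₁ ∈ S → q₂ ∈ S →
  q₁.Prime → q₂.Prime → q₁ ≠ q₂ → q₁ % 3 = 2 ∧ q₂ % 3 = 2 ∧ CubeRank.GenBy ((n : ℤ) * q₁ * q₂) 1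

/-- The analytic input (project CDP of helper62). -/
def Stmt_CDP : Prop := ∀ S : Set ℕ, Thick S → ∀ n N₀ : ℕ, 0 < n →
  ∃ p q t : ℕ, p.Prime ∧ q.Prime ∧ p ∈ S ∧ q ∈ S ∧ 0 < t ∧ q = p + n * t ^ 3 ∧ N₀ < p

/-- The Weierstrass coordinates of the point. -/
noncomputable def px (p q t : ℕ) : ℚ := 4 * ((p : ℚ) ^ 2 - p * q + q ^ 2) / t ^ 2

/-- The Weierstrass coordinates of the point. -/
noncomputable def py (p q t : ℕ) : ℚ := 4 * ((p : ℚ) + q) * (2 * p - q) * (2 * q - p) / t ^ 3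

/-- The height input (project FHG of helper53): the point is not a proper multiple. -/
def Stmt_HT : Prop := ∀ n : ℕ, 0 < n → (∀ p : ℕ, p.Prime → ¬ p ^ 3 ∣ n) → ¬ 3 ∣ n →
  ∃ Q₀ : ℕ, ∀ p q t : ℕ, p.Prime → q.Prime → p % 3 = 2 → q % 3 = 2 → 0 < t → q = p + n * t ^ 3 → Q₀ ≤ p →
  ∀ (h : (CubeRank.EA ((n : ℤ) * p * q)).toAffine.Nonsingular (px p q t) (py p q t))
    (R : CubeRank.GA ((n : ℤ) * p * q)) (m : ℤ),
    m • R = (WeierstrassCurve.Affine.Point.some _ _ h : CubeRank.GA ((n : ℤ) * p * q)) → m = 1 ∨ m = -1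

/-- EGQ_FIN: the theorem.
Proof. `UPB` gives `S`, `CDP` (with `N₀ = max N Q₀`) gives `p`, `q`, `t`. The point is on the curve:
`4 (a² + a b + b²)³ - ((a - b) (2 a + b) (a + 2 b))² = 27 (a b (a + b))²` with `a = p`, `b = n t³`, `a + b = q`
(`field_simp; ring` after substituting `q`), nonsingular because the discriminant is not `0` (or `y ≠ 0` or the derivative in
`x` is `3 x² ≠ 0`: `x > 0`). `GenBy _ 1`: `closure {G} = ⊤` (or the group is trivial, then `2 • 0 = P` contradicts `HT`), `P = m • G`,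
`m = ± 1` by `HT`, so every `R` is a multiple of `P`; uniqueness: `m • P = m' • P` with `d = m - m' ≠ 0` gives
`(1 + d) • P = P`, `(1 - d) • P = P`, so `1 + d = ± 1` and `1 - d = ± 1`, `d = 0`. `rr = 1`: `≤ 1` by `rr_le`; if it is `0` then
(`gen_rr`) the group is trivial, contradiction as before. -/
def Stmt_FIN : Prop := ∀ n N : ℕ, Good n → ∃ p q t : ℕ, N < p ∧ p.Prime ∧ q.Prime ∧ 0 < t ∧
  q = p + n * t ^ 3 ∧ p % 3 = 2 ∧ q % 3 = 2 ∧ CubeRank.rr ((n : ℤ) * p * q) = 1 ∧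
  ∃ h : (CubeRank.EA ((n : ℤ) * p * q)).toAffine.Nonsingular (px p q t) (py p q t),
    ∀ R : CubeRank.GA ((n : ℤ) * p * q), ∃! m : ℤ,
      R = m • (WeierstrassCurve.Affine.Point.some _ _ h : CubeRank.GA ((n : ℤ) * p * q))

end Pool.Agent.EGQ
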