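import Pool.Agent.EGQ.Stmts

/-!
# Effective generators (project EGQ): auxiliary statements

See `Pool/Agent/EGQ/Stmts.lean` for the conventions and for the library.
-/

set_option autoImplicit false

open NumberField IsDedekindDomain Finset
open scoped nonZeroDivisors Pointwise

namespace Pool.Agent.EGQ

open Pool.Agent.Lib_helper18 Pool.Agent.Lib_helper18.Eis Pool.Agent.Lib_helper84.Cub
open Pool.Agent.PT Pool.Agent.PTE Pool.Agent.PT3 Pool.Agent.PTL Pool.Agent.PTN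

/-- EGQ_BXA: there is a new class.
Proof. First two paragraphs of the proof of `BEX`: `sN' = s + 1` by `PTN.Final.fNDIM` for `n` and for `n' = n q₁` (`k + 1` columns
`inr`), `vN = vN' = 0` (`VEX`), same `actR` (`ADX` (4)). The vectors `exv p (sn r q₁) (b i)` are in
`U' = US 0 n' .. (w1 w0 q₁) (c1 π c q₁)` (`ADX` (1), `fNVEC`); they are at most `s`, so their span is not `U'`
(`finrank_range_le_card`-like), take `u ∈ U'` outside the span, `x` from `fNVEC` (3), `exv x = u`, `AdN` by `fNVEC` (1).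
If `3 ∣ padicValInt q₁ x`: `ADX` (2), `Bas.span`, so `x u³ = (∏ b i ^ g i) v³` and `u = ∑ g i • exv (b i)` (`fNVEC` (2), or
additivity of `padicValInt`), contradiction. -/
def Stmt_BXA : Prop := ∀ (n m k : ℕ) (π : Fin m → PP) (p e : Fin m → ℕ) (r f : Fin k → ℕ)
  (w0 : ZMod 3) (c : Fin m → ZMod 3) (q₁ s : ℕ) (τ : Fin s → Fin 3) (b X Y : Fin s → ℤ),
  NF n π p e r f → q₁.Prime → q₁ % 3 = 2 → ¬ q₁ ∣ n → vN 0 n π p e r w0 c = 0 →
  s = sN 0 n π p e r w0 c → Bas n π w0 c τ b X Y →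
  ∃ x : ℤ, AdN 0 (n * q₁) π (w1 w0 q₁) (c1 π c q₁) x ∧ ¬ 3 ∣ padicValInt q₁ x

/-- EGQ_BXB: reduced representatives.
Proof. `fNVEC`: `exv x ∈ US`, the integer `b` of (3) for `u = exv x` (`u (inl 0) = lv x = 0` since `h = 0`), `AdN b` by (1),
`x u³ = b v³` by (2). -/
def Stmt_BXB : Prop := ∀ (n m k : ℕ) (π : Fin m → PP) (p e : Fin m → ℕ) (r f : Fin k → ℕ)
  (w0 : ZMod 3) (c : Fin m → ZMod 3), NF n π p e r f → ∀ x : ℤ, AdN 0 n π w0 c x →
  ∃ b u v : ℤ, u ≠ 0 ∧ v ≠ 0 ∧ x * u ^ 3 = b * v ^ 3 ∧ AdN 0 n π w0 c b ∧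
    (∀ σ : PP, V σ.1 (b : Eis) ≤ 2) ∧ ¬ (3 : ℤ) ∣ b

/-- the matrix of the symbols `TAUV` at the prime `Q` -/
def IsTau {s : ℕ} (b : Fin s → ℤ) (p q p' q' : Fin s → Fin s → ℤ) (Q : ℕ) (τ : Fin s → Fin s → ZMod 3) : Prop :=
  ∀ j i, j ≠ i → ∀ r : ℤ, (Q : ℤ) ∣ r ^ 3 - b j → τ j i = TAUV Q (p j i) (q j i) (p' j i) (q' j i) r

/-- EGQ_DNB: the matrix of the symbols exists.
Proof. Cubing is injective, hence bijective, modulo `Q` (`DCONST.root_unique`), so a root `r j` exists; every other root is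
congruent to it modulo `Q`, and `TAUV` depends only on `r` modulo `Q` (`sym_congr`, as in `DCOT_thm`, PT3/DCOT.lean, `hsym`). -/
def Stmt_DNB : Prop := ∀ (s : ℕ) (b : Fin s → ℤ) (p q p' q' : Fin s → Fin s → ℤ) (Q : ℕ), Q.Prime → Q % 3 = 2 →
  ∃ τ : Fin s → Fin s → ZMod 3, IsTau b p q p' q' Q τ

/-- EGQ_DNA: the matrix of the pairing for `B = n q₁ q₂`.
Proof. `F = 9 (∏ p i) (∏ f₀ j i)`, `f₀ j i` from `DC2` for `N = n` and the data `(b j, b i, X j, Y j, P j i, …)` of the pair `j ≠ i`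
(`Sol` from `SysG.sol`; `f₀ = 1` for `j = i`); `C j i`, `Φ j i` from `DC2` for this `F` (`0`, `1` for `j = i`); the homomorphism to
`Multiplicative (Fin s → Fin s → ZMod 3)` is the product (`MonoidHom` to a function type; as in `CLN_thm`, PTN/CLN.lean). Entries
with `j < i`: `DC2` with roots `r₁`, `r₂` (they exist: `DNB`'s proof, or cubing is bijective), `IsTau` gives `τ₁ j i`, `τ₂ j i`;
`AG B (b i)` by `LOC`. Entries with `i < j`: `MaT j i = - MaT i j` by `TENT` (`LOC` gives `BG B`, `AG B (b i)`, `TyB`, so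
`Bas.lam` gives `LamS`). Diagonal: both `0`. -/
def Stmt_DNA : Prop := ∀ (n m k : ℕ) (π : Fin m → PP) (p e : Fin m → ℕ) (r f : Fin k → ℕ)
  (w0 : ZMod 3) (c : Fin m → ZMod 3) (s : ℕ) (τ : Fin s → Fin 3) (b X Y : Fin s → ℤ)
  (P Q P' Q' : Fin s → Fin s → ℤ),
  NF n π p e r f → Bas n π w0 c τ b X Y → SysG b P Q P' Q' → SwS P Q P' Q' →
  ∃ F : ℕ, 0 < F ∧ 9 ∣ F ∧ (∀ i, p i ∣ F) ∧
    ∃ (C : Fin s → Fin s → ZMod 3) (Φ : (ZMod F)ˣ →* Multiplicative (Fin s → Fin s → ZMod 3)),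
      ∀ (q₁ q₂ : ℕ) (h₁ : q₁.Coprime F) (h₂ : q₂.Coprime F), Two n π w0 c q₁ q₂ →
        ∀ τ₁ τ₂ : Fin s → Fin s → ZMod 3, IsTau b P Q P' Q' q₁ τ₁ → IsTau b P Q P' Q' q₂ τ₂ →
          MaT b X Y P Q P' Q' ((n : ℤ) * q₁ * q₂) =
            alt (C + ((Φ (ZMod.unitOfCoprime q₁ h₁)).toAdd - τ₁) +
              ((Φ (ZMod.unitOfCoprime q₂ h₂)).toAdd - τ₂))

end Pool.Agent.EGQ
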